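import Pool.Graph.R_seed8.TH686.FO.Rec

set_option autoImplicit false
set_option linter.unusedSectionVars false
set_option linter.unusedVariables false

/-! Complete theories in languages with function symbols. -/

namespace Pool.Agent.H4.VG.Fun

open FirstOrder FirstOrder.Language
open Pool.Agent.W889.FO
open Pool.Agent.TH686.FO

variable {L : FirstOrder.Language.{0, 0}}

/-- the relational structure of a structure -/
@[reducible] def mkR (M : L.Structure ℕ) : (St0.LF L).Structure ℕ :=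
  { funMap := fun {_} f => isEmptyElim f
    RelMap := fun {n} Q => match n, Q with
      | _, @St0.RF.rel _ n R => fun v => @Structure.RelMap L ℕ M n R v
      | _, @St0.RF.fn _ n F => fun v =>
          @Structure.funMap L ℕ M n F (fun i => v i.castSucc) = v (Fin.last n) }

theorem mkR_gr (M : L.Structure ℕ) {n : ℕ} (F : L.Functions n) (v : Fin n → ℕ) (b : ℕ) :
    St0.gr (mkR M) F v b ↔ @Structure.funMap L ℕ M n F v = b := by
  show @Structure.funMap L ℕ M n F (fun i => Fin.snoc (α := fun _ => ℕ) v b i.castSucc) =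
    Fin.snoc (α := fun _ => ℕ) v b (Fin.last n) ↔ _
  simp only [Fin.snoc_castSucc, Fin.snoc_last]

theorem mkR_W (M : L.Structure ℕ) : St0.W (mkR M) :=
  ⟨fun F v => ⟨_, (mkR_gr M F.2 v _).2 rfl⟩, fun F v b b' h1 h2 =>
    ((mkR_gr M F.2 v b).1 h1).symm.trans ((mkR_gr M F.2 v b').1 h2)⟩

theorem D_mkR (M : L.Structure ℕ) {n : ℕ} (F : L.Functions n) (v : Fin n → ℕ) :
    @Structure.funMap L ℕ (St0.D (mkR M)) n F v = @Structure.funMap L ℕ M n F v := by
  rw [St0.fun_iff (mkR_W M), mkR_gr]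

theorem D_iso (M : L.Structure ℕ) : SIso (St0.D (mkR M)) M :=
  ⟨@FirstOrder.Language.Equiv.mk L ℕ ℕ (St0.D (mkR M)) M (Equiv.refl ℕ)
    (fun {_} F v => D_mkR M F v) (fun {_} _ _ => Iff.rfl)⟩

theorem mkR_iso {S : (St0.LF L).Structure ℕ} (h : St0.W S) : SIso (mkR (St0.D S)) S :=
  St0.iso_up (mkR_W _) h (D_iso _)

/-- Translation of formulas from the relational language. -/
theorem transR {β : Type} {n : ℕ} (φ : (St0.LF L).BoundedFormula β n) :
    ∃ ψ : L.BoundedFormula β n, ∀ (M : L.Structure ℕ) (c : β → ℕ) (d : Fin n → ℕ),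
      @BoundedFormula.Realize (St0.LF L) ℕ (mkR M) _ _ φ c d ↔
        @BoundedFormula.Realize L ℕ M _ _ ψ c d := by
  have hv : ∀ {n : ℕ} (t : (St0.LF L).Term (β ⊕ Fin n)), ∃ i, t = Term.var i := by
    intro n t
    cases t with
    | var i => exact ⟨i, rfl⟩
    | func f _ => exact isEmptyElim f
  induction φ with
  | falsum => exact ⟨BoundedFormula.falsum, fun M c d => Iff.rfl⟩
  | @equal n t1 t2 =>
    obtain ⟨i1, rfl⟩ := hv t1
    obtain ⟨i2, rfl⟩ := hv t2
    exact ⟨BoundedFormula.equal (Term.var i1) (Term.var i2), fun M c d => Iff.rfl⟩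
  | @rel n l R ts =>
    choose g hg using fun i => hv (ts i)
    have e : ∀ (M : L.Structure ℕ) (c : β → ℕ) (d : Fin n → ℕ),
        (fun i => @Term.realize (St0.LF L) ℕ (mkR M) _ (Sum.elim c d) (ts i)) =
          fun i => Sum.elim c d (g i) := by
      intro M c d
      funext i
      rw [hg i]
      rfl
    cases R with
    | rel R =>
      refine ⟨BoundedFormula.rel R (fun i => Term.var (g i)), fun M c d => ?_⟩
      show @Structure.RelMap (St0.LF L) ℕ (mkR M) l (St0.RF.rel R) _ ↔ _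
      rw [e]
      exact Iff.rfl
    | @fn m F =>
      refine ⟨BoundedFormula.equal (Term.func F (fun i : Fin m => Term.var (g i.castSucc)))
        (Term.var (g (Fin.last m))), fun M c d => ?_⟩
      show @Structure.RelMap (St0.LF L) ℕ (mkR M) (m + 1) (St0.RF.fn F) _ ↔ _
      rw [e]
      exact Iff.rfl
  | @imp n f1 f2 h1 h2 =>
    obtain ⟨ψ1, hψ1⟩ := h1
    obtain ⟨ψ2, hψ2⟩ := h2
    exact ⟨ψ1.imp ψ2, fun M c d => imp_congr (hψ1 M c d) (hψ2 M c d)⟩
  | @all n f h =>
    obtain ⟨ψ, hψ⟩ := h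
    exact ⟨ψ.all, fun M c d => forall_congr' fun a => hψ M c (Fin.snoc d a)⟩

/-- models of complete theories satisfy the same axiomatisable conditions -/
theorem ax_complete {L' : FirstOrder.Language.{0, 0}} {T : L'.Theory} (hT : T.IsComplete)
    {P : L'.Structure ℕ → Prop} (hP : Ax P) {S0 S : L'.Structure ℕ}
    (h0 : @Theory.Model L' ℕ S0 T) (h : @Theory.Model L' ℕ S T) (h1 : P S0) : P S := by
  obtain ⟨T1, hT1⟩ := hP
  rw [← hT1] at h1 ⊢
  rw [ax_iff] at h1 ⊢
  intro φ hφ
  have h2 := h1 φ hφ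
  rcases hT.2 φ with h3 | h3
  · exact @Theory.ModelsBoundedFormula.realize_sentence L' T φ h3 ℕ S h _
  · have h4 := @Theory.ModelsBoundedFormula.realize_sentence L' T φ.not h3 ℕ S0 h0 _
    exact absurd h2 ((@Sentence.realize_not L' ℕ S0 φ).1 h4)

/-- From relational structures to structures, for complete theories. -/
theorem red_fun [Countable L.Symbols] [Inhabited (L.Structure ℕ)]
    {P : (St0.LF L).Structure ℕ → Prop} {Q : L.Structure ℕ → Prop}
    (hPW : ∀ S, P S → St0.W S) (hPQ : ∀ M, P (mkR M) → Q M)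
    (h : ∀ T : L.Theory, T.IsComplete → (∀ M : L.Structure ℕ, @Theory.Model L ℕ M T → Q M) →
      VaughtF L T) (T : (St0.LF L).Theory)
    (hT : ∀ S : (St0.LF L).Structure ℕ, @Theory.Model (St0.LF L) ℕ S T → P S) :
    Vaught (St0.LF L) T := by
  have := St0.countable_LF (L := L)
  refine compl (P := P) (fun T hc hT => ?_) T hT
  rw [vaughtF_iff]
  by_cases hex : ∃ S0 : (St0.LF L).Structure ℕ, @Theory.Model (St0.LF L) ℕ S0 T
  swap
  · left
    refine ⟨fun _ => mkR default, fun S hS => absurd ⟨S, hS⟩ hex⟩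
  obtain ⟨S0, hS0⟩ := hex
  have hW0 : St0.W S0 := hPW _ (hT _ hS0)
  let T' : L.Theory := @FirstOrder.Language.completeTheory L ℕ (St0.D S0)
  have key1 : ∀ M : L.Structure ℕ, @Theory.Model L ℕ M T' →
      @Theory.Model (St0.LF L) ℕ (mkR M) T := by
    intro M hM
    rw [ax_iff]
    intro φ hφ
    obtain ⟨ψ, hψ⟩ := transR (φ : (St0.LF L).BoundedFormula Empty 0)
    have h1 : @Sentence.Realize (St0.LF L) ℕ (mkR (St0.D S0)) φ :=
      ax_iff.1 ((mkR_iso hW0).symm.model hS0) φ hφ
    have h2 : ψ ∈ T' := (hψ (St0.D S0) _ _).1 h1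
    exact (hψ M _ _).2 (ax_iff.1 hM ψ h2)
  have key2 : ∀ S : (St0.LF L).Structure ℕ, @Theory.Model (St0.LF L) ℕ S T →
      @Theory.Model L ℕ (St0.D S) T' := by
    intro S hS
    rw [ax_iff]
    intro χ hχ
    have h1 := St0.ax_theory ({χ} : L.Theory)
    have h2 : St0.W S0 ∧ @Theory.Model L ℕ (St0.D S0) ({χ} : L.Theory) := by
      refine ⟨hW0, ?_⟩
      rw [ax_iff]
      rintro _ rfl
      exact hχ
    have h3 := ax_complete hc h1 hS0 hS h2
    exact ax_iff.1 h3.2 χ rfl
  have hc' : T'.IsComplete := @FirstOrder.Language.completeTheory.isComplete L ℕ (St0.D S0) _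
  rcases h T' hc' (fun M hM => hPQ M (hT _ (key1 M hM))) with ⟨g, hg⟩ | ⟨f, hf1, hf2, hf3, hf4⟩
  · left
    refine ⟨fun n => mkR (g n), fun S hS => ?_⟩
    obtain ⟨n, hn⟩ := hg (St0.D S) (key2 S hS)
    exact ⟨n, St0.iso_up (hPW _ (hT _ hS)) (mkR_W _)
      (SIso.trans (show SIso (St0.D S) (g n) from hn) (D_iso (g n)).symm)⟩
  · right
    refine ⟨fun x => mkR (f x), fun x => key1 _ (hf1 x), fun x y hxy => hf2 x y ?_,
      fun n R a => ?_⟩
    · exact ((D_iso (f x)).symm.trans (St0.iso_down (mkR_W _) (mkR_W _) hxy)).trans (D_iso (f y))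
    · cases R with
      | rel R => exact hf3 _ R a
      | @fn m F =>
        have h1 : ∀ b, IsOpen {x : ℕ → Bool |
            @Structure.funMap L ℕ (f x) m F (fun i => a i.castSucc) = b} := fun b =>
          hf4 m F _ b
        have h2 : IsClopen {x : ℕ → Bool |
            @Structure.funMap L ℕ (f x) m F (fun i => a i.castSucc) = a (Fin.last m)} := by
          refine ⟨⟨?_⟩, h1 _⟩
          have e : {x : ℕ → Bool | @Structure.funMap L ℕ (f x) m F (fun i => a i.castSucc) =
              a (Fin.last m)}ᶜ = ⋃ b : {b : ℕ // b ≠ a (Fin.last m)}, {x : ℕ → Bool |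
                @Structure.funMap L ℕ (f x) m F (fun i => a i.castSucc) = b} := by
            ext x
            simp
          rw [e]
          exact isOpen_iUnion fun b => h1 _
        exact h2

end Pool.Agent.H4.VG.Fun
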