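import Pool.Agent.H4.VG.Fo2
import Pool.Agent.H4.VG.Fun

set_option autoImplicit false
set_option linter.unusedSectionVars false
set_option linter.unusedVariables false

/-! The reduction to theories of groups, in the relational language. -/

namespace Pool.Agent.H4.VG

open FirstOrder FirstOrder.Language
open Pool.Agent.W889.FO
open Pool.Agent.TH686.FO
open Pool.Agent.W889.VC (BP)
open Pool.Agent.W889.FO.StE (LG gd siso_gd fd_gd)
open Pool.Agent.H4.VG.Fun (mkR mkR_W D_mkR)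

section bp

variable {Y : Type} [MeasurableSpace Y] {f : Y → LR.Structure ℕ}

theorem bp_idem (hb : ∀ (n : ℕ) (R : LR.Relations n) (a : Fin n → ℕ),
    BP (fun y => @Structure.RelMap LR ℕ (f y) n R a)) (hW : ∀ y, St0.W (f y)) (e : ℕ) :
    BP (fun y => ml (f y) e e = e) :=
  (eqT (p := fun S (v : Unit → ℕ) => ml S (v ()) (v ())) (q := fun S v => v ())
    ((FT.var _).mul (FT.var _)) (FT.var _)).bp hb hW (fun _ => e)

theorem bp_inP (hb : ∀ (n : ℕ) (R : LR.Relations n) (a : Fin n → ℕ),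
    BP (fun y => @Structure.RelMap LR ℕ (f y) n R a)) (hW : ∀ y, St0.W (f y)) {α : Type}
    {p : LR.Structure ℕ → (α → ℕ) → ℕ} (hp : FT p) (v : α → ℕ) :
    BP (fun y => InP (ml (f y)) (p (f y) v)) := by
  unfold InP
  refine BP.ex fun e => (bp_idem hb hW e).and (BP.ex fun k => BP.ex fun u => ?_)
  have h1 : FD St0.W (fun S (w : α ⊕ (Unit ⊕ Fin k) → ℕ) =>
      (∀ i, Bx (ml S) (w (Sum.inr (Sum.inr i)))) ∧
        Cg (ml S) (p S (fun i => w (Sum.inl i))) (wd (ml S) (w (Sum.inr (Sum.inl ())))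
          (List.ofFn fun i => w (Sum.inr (Sum.inr i))))) :=
    (FD.fin fun i => fd_bx (FT.var _)).and <|
    fd_cg (hp.sub _) (ft_wdFn (FT.var _) (u := fun i _ w => w (Sum.inr (Sum.inr i)))
      (fun i => FT.var _))
  exact h1.bp hb hW (Sum.elim v (Sum.elim (fun _ => e) u))

theorem bp_inQ (hb : ∀ (n : ℕ) (R : LR.Relations n) (a : Fin n → ℕ),
    BP (fun y => @Structure.RelMap LR ℕ (f y) n R a)) (hW : ∀ y, St0.W (f y)) {α : Type}
    {p : LR.Structure ℕ → (α → ℕ) → ℕ} (hp : FT p) (v : α → ℕ) :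
    BP (fun y => InQ (ml (f y)) (p (f y) v)) := by
  unfold InQ
  refine BP.ex fun e => (bp_idem hb hW e).and (BP.ex fun k => BP.ex fun u => ?_)
  have h1 : FD St0.W (fun S (w : α ⊕ (Unit ⊕ Fin k) → ℕ) =>
      p S (fun i => w (Sum.inl i)) = wd (ml S) (w (Sum.inr (Sum.inl ())))
        (List.ofFn fun i => ml S (w (Sum.inr (Sum.inr i))) (w (Sum.inr (Sum.inr i))))) :=
    eqT (hp.sub _) (ft_wdFn (FT.var _)
      (u := fun i S w => ml S (w (Sum.inr (Sum.inr i))) (w (Sum.inr (Sum.inr i))))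
      (fun i => (FT.var _).mul (FT.var _)))
  exact h1.bp hb hW (Sum.elim v (Sum.elim (fun _ => e) u))

theorem bp_D1 (hb : ∀ (n : ℕ) (R : LR.Relations n) (a : Fin n → ℕ),
    BP (fun y => @Structure.RelMap LR ℕ (f y) n R a)) (hW : ∀ y, St0.W (f y)) (n : ℕ) :
    BP (fun y => D1 (ml (f y)) n) := by
  unfold D1
  refine BP.ex fun e => (bp_idem hb hW e).and (BP.ex fun w => BP.all fun T => ?_)
  exact (bp_inP hb hW (p := fun S (v : Unit ⊕ Fin n → ℕ) => wd (ml S) (v (Sum.inl ()))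
    (T.1.toList.map fun i => v (Sum.inr i)))
    (ft_wd T.1.toList (FT.var _) (u := fun i _ v => v (Sum.inr i)) (fun i => FT.var _))
    (Sum.elim (fun _ => e) w)).not

theorem bp_D2 (hb : ∀ (n : ℕ) (R : LR.Relations n) (a : Fin n → ℕ),
    BP (fun y => @Structure.RelMap LR ℕ (f y) n R a)) (hW : ∀ y, St0.W (f y)) (n : ℕ) :
    BP (fun y => D2 (ml (f y)) n) := by
  unfold D2
  refine BP.ex fun e => (bp_idem hb hW e).and (BP.ex fun w => (BP.all fun i => ?_).and
    (BP.all fun T => ?_))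
  · exact (fd_cen (p := fun S (v : Unit → ℕ) => v ()) (FT.var _)).bp hb hW (fun _ => w i)
  · exact (bp_inQ hb hW (p := fun S (v : Unit ⊕ Fin n → ℕ) => wd (ml S) (v (Sum.inl ()))
      (T.1.toList.map fun i => v (Sum.inr i)))
      (ft_wd T.1.toList (FT.var _) (u := fun i _ v => v (Sum.inr i)) (fun i => FT.var _))
      (Sum.elim (fun _ => e) w)).not

theorem bp_fl {P : Y → ℕ → Prop} (h : ∀ n, BP (fun y => P y n)) (c : Option ℕ) :
    BP (fun y => fl (P y) = c) := by
  rcases c with _ | m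
  · exact (BP.all h).congr fun y => fl_none.symm
  · exact ((h m).not.and (BP.all fun n => (BP.const (n < m)).imp (h n))).congr
      fun y => fl_some.symm

end bp

theorem cntG : CntQ gI (Option ℕ × Option ℕ) jj where
  up := fun S S' h h' hi hj => up h h' hi hj
  bp := by
    rintro f hb hW ⟨c1, c2⟩
    have hW' : ∀ y, St0.W (f y) := fun y => (hW y).1
    refine ((bp_fl (bp_D1 hb hW') c1).and (bp_fl (bp_D2 hb hW') c2)).congr fun y => ?_
    exact (Prod.mk.injEq _ _ _ _).symm ▸ Iff.rfl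

theorem ml_mkR (M : LM.Structure ℕ) : ml (mkR M) = op M := by
  funext a b
  exact D_mkR M MF.mul ![a, b]

/-- the structure of a multiplication -/
@[reducible] def mkM (μ : ℕ → ℕ → ℕ) : LM.Structure ℕ :=
  { funMap := fun {n} F => match n, F with
      | _, MF.mul => fun v => μ (v 0) (v 1)
    RelMap := fun {_} R => R.elim }

theorem op_mkM (μ : ℕ → ℕ → ℕ) : op (mkM μ) = μ := rfl

/-- existence -/
theorem exG (M : LG.Structure ℕ) (hs : ∀ u v, gd M u v → gd M v u) (hi : ∀ u, ¬ gd M u u) :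
    ∃ S, WG S ∧ SIso (gI.D S) M := by
  let Γ : SimpleGraph ℕ := { Adj := gd M, symm := ⟨hs⟩, loopless := ⟨hi⟩ }
  obtain ⟨g, h2, h, π, hπ⟩ := exists_model (α := ℕ) Γ
  have hS : ml (mkR (mkM (@mu ℕ g))) = @mu ℕ g := by rw [ml_mkR, op_mkM]
  have hW : WG (mkR (mkM (@mu ℕ g))) := ⟨mkR_W _, by rw [hS]; exact h⟩
  obtain ⟨κ, hκ⟩ := label hW g hS.symm h2
  refine ⟨_, hW, siso_gd (κ.trans π.symm) fun u v => ?_⟩
  rw [hκ]
  have h3 := hπ (π.symm (κ u)) (π.symm (κ v))
  rw [Equiv.apply_symm_apply, Equiv.apply_symm_apply] at h3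
  exact h3

/-- the reduction -/
theorem red_WG (hV : ∀ T' : LR.Theory, (∀ S : LR.Structure ℕ, @Theory.Model LR ℕ S T' →
    WG S) → Vaught LR T') (T : LG.Theory) : Vaught LG T := by
  have := StD.countable_LG
  refine to_W 0 (fun T1 hT1 => ?_) T
  exact transferQ gI cntG T1 (fun M hM => exG M (hT1 M hM).sd.symm (hT1 M hM).sd.irrefl)
    fun T' hT' => hV T' fun S hS => (hT' S hS).1

end Pool.Agent.H4.VG
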