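import Pool.Agent.H4.VG.Fo3

set_option autoImplicit false
set_option linter.unusedSectionVars false
set_option linter.unusedVariables false

/-! The reduction to complete theories of groups. -/

namespace Pool.Agent.H4.VG

open FirstOrder FirstOrder.Language Subgroup
open Pool.Agent.W889.FO
open Pool.Agent.TH686.FO
open Pool.Agent.W889.FO.StE (LG gd siso_gd fd_gd)
open Pool.Agent.H4.VG.Fun

instance : Countable LM.Symbols := by
  have h1 : Countable (Σ n, LM.Functions n) := by
    refine Function.Surjective.countable (f := fun _ : Unit => (⟨2, MF.mul⟩ : Σ n, LM.Functions n))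
      ?_
    rintro ⟨n, F⟩
    cases F with
    | mul => exact ⟨(), rfl⟩
  have h2 : IsEmpty (Σ n, LM.Relations n) := ⟨fun p => (p.2 : Empty).elim⟩
  exact inferInstanceAs (Countable ((Σ n, LM.Functions n) ⊕ Σ n, LM.Relations n))

instance : Inhabited (LM.Structure ℕ) := ⟨mkM fun _ _ => 0⟩

/-- the main reduction -/
theorem main (h : ∀ T : LM.Theory, T.IsComplete →
      (∀ M : LM.Structure ℕ, @Theory.Model LM ℕ M T → FA (op M)) → VaughtF LM T)
    (L : FirstOrder.Language.{0, 0}) (hL : Countable L.Symbols) (T : L.Theory) :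
    VaughtF L T := by
  refine all_of_LG (fun T1 => red_WG (fun T2 hT2 => ?_) T1) L hL T
  refine red_fun (L := LM) (P := WG) (Q := fun M => FA (op M)) (fun S hS => hS.1)
    (fun M hM => ?_) h T2 hT2
  rw [← ml_mkR]
  exact hM.2

end Pool.Agent.H4.VG
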