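import Pool.Agent.H4.VG.Quad

set_option autoImplicit false
set_option linter.unusedSectionVars false

/-! Classification of the groups of the class. -/

namespace Pool.Agent.H4.VG

open Subgroup

/-- linear independence over the field with two elements -/
theorem li2 {ι M : Type} [AddCommGroup M] [Module (ZMod 2) M] {f : ι → M} :
    LinearIndependent (ZMod 2) f ↔ ∀ T : Finset ι, ∑ i ∈ T, f i = 0 → T = ∅ := by
  classical
  constructor
  · intro h T hT
    by_contra hne
    obtain ⟨i, hi⟩ := Finset.nonempty_iff_ne_empty.2 hne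
    have := linearIndependent_iff'.1 h T (fun _ => 1) (by simpa using hT) i hi
    exact one_ne_zero this
  · intro h
    rw [linearIndependent_iff']
    intro s g hg i hi
    have h1 : ∑ j ∈ s.filter (fun j => g j ≠ 0), f j = 0 := by
      rw [Finset.sum_filter]
      refine Eq.trans (Finset.sum_congr rfl fun j _ => ?_) hg
      rcases zmod2 (g j) with h2 | h2
      · rw [h2]
        simp
      · rw [h2]
        simp
    have h2 := h _ h1
    by_contra h3
    have h4 : i ∈ s.filter (fun j => g j ≠ 0) := Finset.mem_filter.2 ⟨hi, h3⟩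
    rw [h2] at h4
    exact absurd h4 (Finset.notMem_empty i)

variable {G : Type} [Group G] [E2 G]

/-- classes of noncentral involutions -/
def VV (x : Wd G) : Prop := x ≠ 0 ∧ q x = 0

/-- `e` is the edge between `v` and `w` -/
def IsE (v w e : Wd G) : Prop := VV v ∧ VV w ∧ v ≠ w ∧ q e = bt v w ∧ e ≠ v + w

/-- vertices and edges -/
def BB (G : Type) [Group G] [E2 G] : Set (Wd G) := {x | VV x ∨ ∃ v w, IsE v w x}

/-- the graph -/
def Adj (v w : Wd G) : Prop := ∃ e, IsE v w e

/-- the span of the commutators -/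
def SB (G : Type) [Group G] [E2 G] : Submodule (ZMod 2) (Zd G) :=
  Submodule.span (ZMod 2) {z | ∃ x y : Wd G, z = bt x y}

/-- the span of the squares -/
def SQ (G : Type) [Group G] [E2 G] : Submodule (ZMod 2) (Zd G) :=
  Submodule.span (ZMod 2) (Set.range (q : Wd G → Zd G))

/-- the span of the vertices and edges -/
def SP (G : Type) [Group G] [E2 G] : Submodule (ZMod 2) (Wd G) :=
  Submodule.span (ZMod 2) (BB G)

/-- the class of groups -/
structure Nice (G : Type) [Group G] [E2 G] : Prop where
  ind2 : ∀ (n : ℕ) (w : Fin n → Wd G), LinearIndependent (ZMod 2) w →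
    ∀ P : Finset (Fin n × Fin n), (∀ p ∈ P, p.1 < p.2) →
      ∑ p ∈ P, bt (w p.1) (w p.2) = 0 → P = ∅
  indB : LinearIndependent (ZMod 2) (fun x : BB G => (x : Wd G))
  uniq : ∀ v w e e' : Wd G, IsE v w e → IsE v w e' → e = e'
  fin : ∀ x : Wd G, q x ∈ SB G → x ∈ SP G

theorem Nice.ind2' (h : Nice G) {κ : Type} [LinearOrder κ] {b : κ → Wd G}
    (hb : LinearIndependent (ZMod 2) b) :
    LinearIndependent (ZMod 2)
      (fun p : {p : κ × κ // p.1 < p.2} => bt (b p.1.1) (b p.1.2)) := by
  classical
  rw [li2]
  intro T hT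
  let F : Finset κ := T.image (fun p => p.1.1) ∪ T.image (fun p => p.1.2)
  let o := F.orderIsoOfFin rfl
  have hF1 : ∀ p ∈ T, p.1.1 ∈ F := fun p hp =>
    Finset.mem_union_left _ (Finset.mem_image_of_mem _ hp)
  have hF2 : ∀ p ∈ T, p.1.2 ∈ F := fun p hp =>
    Finset.mem_union_right _ (Finset.mem_image_of_mem _ hp)
  let f : T → Fin F.card × Fin F.card := fun p =>
    (o.symm ⟨p.1.1.1, hF1 p.1 p.2⟩, o.symm ⟨p.1.1.2, hF2 p.1 p.2⟩)
  have hf : Function.Injective f := by
    intro p r hpr
    have h1 := congrArg Prod.fst hpr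
    have h2 := congrArg Prod.snd hpr
    have h3 := congrArg Subtype.val (o.symm.injective h1)
    have h4 := congrArg Subtype.val (o.symm.injective h2)
    exact Subtype.ext (Subtype.ext (Prod.ext h3 h4))
  have hw : LinearIndependent (ZMod 2) (fun i : Fin F.card => b (o i)) :=
    hb.comp (fun i => (o i : κ)) fun i j hij => o.injective (Subtype.ext hij)
  have h5 := h.ind2 _ _ hw (T.attach.image f) (by
    intro p hp
    obtain ⟨r, -, rfl⟩ := Finset.mem_image.1 hp
    exact o.symm.lt_iff_lt.2 r.1.2) (by
    rw [Finset.sum_image fun p _ r _ hpr => hf hpr]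
    rw [← hT, ← Finset.sum_attach T]
    refine Finset.sum_congr rfl fun p _ => ?_
    simp [f])
  rw [Finset.image_eq_empty, Finset.attach_eq_empty_iff] at h5
  exact h5

theorem bt_mem (x y : Wd G) : bt x y ∈ SB G := Submodule.subset_span ⟨x, y, rfl⟩

theorem SB_le_SQ : SB G ≤ SQ G := by
  refine Submodule.span_le.2 ?_
  rintro z ⟨x, y, rfl⟩
  have h : ∀ x : Wd G, q x ∈ SQ G := fun x => Submodule.subset_span ⟨x, rfl⟩
  exact add_mem (add_mem (h _) (h _)) (h _)

/-- the span of the commutators of the elements of a basis -/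
theorem SB_eq {κ : Type} [LinearOrder κ] (b : Module.Basis κ (ZMod 2) (Wd G)) :
    Submodule.span (ZMod 2) (Set.range
      (fun p : {p : κ × κ // p.1 < p.2} => bt (b p.1.1) (b p.1.2))) = SB G := by
  refine le_antisymm (Submodule.span_le.2 ?_) (Submodule.span_le.2 ?_)
  · rintro _ ⟨p, rfl⟩
    exact bt_mem _ _
  · rintro z ⟨x, y, rfl⟩
    set U := Submodule.span (ZMod 2) (Set.range
      (fun p : {p : κ × κ // p.1 < p.2} => bt (b p.1.1) (b p.1.2)))
    have h1 : ∀ s t, bt (b s) (b t) ∈ U := by
      intro s t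
      rcases lt_trichotomy s t with h | h | h
      · exact Submodule.subset_span ⟨⟨(s, t), h⟩, rfl⟩
      · subst h
        rw [bt_self]
        exact zero_mem _
      · rw [bt_symm]
        exact Submodule.subset_span ⟨⟨(t, s), h⟩, rfl⟩
    have h2 : ∀ s y, bt (b s) y ∈ U := by
      intro s y
      have h3 : ∀ y ∈ Submodule.span (ZMod 2) (Set.range b), bt (b s) y ∈ U := by
        intro y hy
        refine Submodule.span_induction (p := fun y _ => bt (b s) y ∈ U) ?_ ?_ ?_ ?_ hy
        · rintro _ ⟨t, rfl⟩
          exact h1 s t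
        · rw [bt_symm, bt_zero]
          exact zero_mem _
        · intro u v _ _ hu hv
          rw [bt_add']
          exact add_mem hu hv
        · intro c u _ hu
          have := (bl (b s)).map_smul c u
          rw [bl_apply, bl_apply] at this
          rw [this]
          exact U.smul_mem c hu
      exact h3 y (by rw [b.span_eq]; exact Submodule.mem_top)
    have h4 : ∀ x ∈ Submodule.span (ZMod 2) (Set.range b), bt x y ∈ U := by
      intro x hx
      refine Submodule.span_induction (p := fun x _ => bt x y ∈ U) ?_ ?_ ?_ ?_ hx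
      · rintro _ ⟨t, rfl⟩
        exact h2 t y
      · rw [bt_zero]
        exact zero_mem _
      · intro u v _ _ hu hv
        rw [bt_add]
        exact add_mem hu hv
      · intro c u _ hu
        rcases zmod2 c with rfl | rfl
        · rw [zero_smul, bt_zero]
          exact zero_mem _
        · rw [one_smul]
          exact hu
    exact h4 x (by rw [b.span_eq]; exact Submodule.mem_top)

/-- squares modulo commutators -/
noncomputable def qb : Wd G →ₗ[ZMod 2] (Zd G ⧸ SB G) where
  toFun x := (SB G).mkQ (q x)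
  map_add' x y := by
    rw [q_add, map_add, map_add]
    have : (SB G).mkQ (bt x y) = 0 := by
      rw [Submodule.mkQ_apply, Submodule.Quotient.mk_eq_zero]
      exact bt_mem x y
    rw [this, add_zero]
  map_smul' c x := by
    rcases zmod2 c with rfl | rfl
    · simp [q_zero]
    · simp

theorem qb_apply (x : Wd G) : qb x = Submodule.Quotient.mk (p := SB G) (q x) := rfl

theorem Nice.ker_qb (h : Nice G) : LinearMap.ker (qb (G := G)) = SP G := by
  ext x
  rw [LinearMap.mem_ker, qb_apply, Submodule.Quotient.mk_eq_zero]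
  constructor
  · exact h.fin x
  · intro hx
    refine Submodule.span_induction (p := fun x _ => q x ∈ SB G) ?_ ?_ ?_ ?_ hx
    · rintro y (hy | ⟨v, w, hy⟩)
      · rw [hy.2]
        exact zero_mem _
      · rw [hy.2.2.2.1]
        exact bt_mem v w
    · rw [q_zero]
      exact zero_mem _
    · intro u v _ _ hu hv
      rw [q_add]
      exact add_mem (add_mem hu hv) (bt_mem _ _)
    · intro c u _ hu
      rcases zmod2 c with rfl | rfl
      · rw [zero_smul, q_zero]
        exact zero_mem _
      · rw [one_smul]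
        exact hu

/-- the generators of the span of the squares -/
noncomputable def gen {κ ι : Type} [LinearOrder κ] (b : κ → Wd G) (c : ι → Wd G) :
    {p : κ × κ // p.1 < p.2} ⊕ ι → Zd G :=
  Sum.elim (fun p => bt (b p.1.1) (b p.1.2)) (fun i => q (c i))

theorem Nice.gen_li (h : Nice G) {κ ι : Type} [LinearOrder κ] {b : κ → Wd G}
    (hb : LinearIndependent (ZMod 2) b) {c : ι → Wd G}
    (hc : LinearIndependent (ZMod 2) (fun i => Submodule.Quotient.mk (p := SP G) (c i))) :
    LinearIndependent (ZMod 2) (gen b c) := by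
  classical
  have h1 := h.ind2' hb
  have h2 : LinearIndependent (ZMod 2) (fun p : {p : κ × κ // p.1 < p.2} =>
      (⟨bt (b p.1.1) (b p.1.2), bt_mem _ _⟩ : SB G)) :=
    LinearIndependent.of_comp (SB G).subtype h1
  refine LinearIndependent.sumElim_of_quotient h2 (fun i => q (c i)) ?_
  -- the induced injective map
  let f : (Wd G ⧸ SP G) →ₗ[ZMod 2] (Zd G ⧸ SB G) :=
    (SP G).liftQ qb (by rw [h.ker_qb])
  have hf : LinearMap.ker f = ⊥ := by
    refine LinearMap.ker_eq_bot'.2 fun x hx => ?_
    obtain ⟨y, rfl⟩ := (SP G).mkQ_surjective x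
    rw [Submodule.mkQ_apply, Submodule.liftQ_apply] at hx
    rw [Submodule.mkQ_apply, Submodule.Quotient.mk_eq_zero, ← h.ker_qb]
    exact hx
  exact hc.map' f hf

theorem gen_span {κ ι : Type} [LinearOrder κ] (b : Module.Basis κ (ZMod 2) (Wd G))
    (c : ι → Wd G) (h : ∀ k, b k ∈ BB G ∨ ∃ i, b k = c i) :
    Submodule.span (ZMod 2) (Set.range (gen b c)) = SQ G := by
  refine le_antisymm (Submodule.span_le.2 ?_) (Submodule.span_le.2 ?_)
  · rintro _ ⟨s | i, rfl⟩
    · exact SB_le_SQ (bt_mem _ _)
    · exact Submodule.subset_span ⟨_, rfl⟩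
  · rintro _ ⟨x, rfl⟩
    have h1 : SB G ≤ Submodule.span (ZMod 2) (Set.range (gen b c)) := by
      rw [← SB_eq b]
      refine Submodule.span_mono ?_
      rintro _ ⟨p, rfl⟩
      exact ⟨Sum.inl p, rfl⟩
    have h2 : ∀ x ∈ Submodule.span (ZMod 2) (Set.range b),
        q x ∈ Submodule.span (ZMod 2) (Set.range (gen b c)) := by
      intro x hx
      refine Submodule.span_induction (p := fun x _ =>
        q x ∈ Submodule.span (ZMod 2) (Set.range (gen b c))) ?_ ?_ ?_ ?_ hx
      · rintro _ ⟨k, rfl⟩
        rcases h k with (hk | ⟨v, w, hk⟩) | ⟨i, hi⟩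
        · rw [hk.2]
          exact zero_mem _
        · rw [hk.2.2.2.1]
          exact h1 (bt_mem v w)
        · rw [hi]
          exact Submodule.subset_span ⟨Sum.inr i, rfl⟩
      · rw [q_zero]
        exact zero_mem _
      · intro u v _ _ hu hv
        rw [q_add]
        exact add_mem (add_mem hu hv) (h1 (bt_mem _ _))
      · intro d u _ hu
        rcases zmod2 d with rfl | rfl
        · rw [zero_smul, q_zero]
          exact zero_mem _
        · rw [one_smul]
          exact hu
    exact h2 x (by rw [b.span_eq]; exact Submodule.mem_top)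

end Pool.Agent.H4.VG
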