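import Pool.Agent.H4.VG.Cls

set_option autoImplicit false
set_option linter.unusedSectionVars false

/-! Classification of the groups of the class: the graph and two dimensions. -/

namespace Pool.Agent.H4.VG

open Subgroup

/-- a bijection from a relation -/
theorem equiv_of_rel {X Y : Type} (R : X → Y → Prop) (h1 : ∀ x, ∃ y, R x y)
    (h2 : ∀ y, ∃ x, R x y) (h3 : ∀ x y y', R x y → R x y' → y = y')
    (h4 : ∀ x x' y, R x y → R x' y → x = x') : ∃ σ : X ≃ Y, ∀ x, R x (σ x) := by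
  choose f hf using h1
  choose g hg using h2
  exact ⟨⟨f, g, fun x => h4 _ _ _ (hg _) (hf x), fun y => h3 _ _ _ (hf _) (hg y)⟩, hf⟩

variable {G G' : Type} [Group G] [E2 G] [Group G'] [E2 G']

theorem IsE.symm {v w e : Wd G} (h : IsE v w e) : IsE w v e :=
  ⟨h.2.1, h.1, h.2.2.1.symm, by rw [bt_symm]; exact h.2.2.2.1, by
    rw [add_comm]; exact h.2.2.2.2⟩

theorem VV.mem {v : Wd G} (h : VV v) : v ∈ BB G := Or.inl h

theorem IsE.mem {v w e : Wd G} (h : IsE v w e) : e ∈ BB G := Or.inr ⟨v, w, h⟩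

theorem Nice.bt_inj (h : Nice G) {a b c d : Wd G} (ha : a ∈ BB G) (hb : b ∈ BB G)
    (hc : c ∈ BB G) (hd : d ∈ BB G) (hab : a ≠ b) (hcd : c ≠ d) (he : bt a b = bt c d) :
    (a = c ∧ b = d) ∨ (a = d ∧ b = c) := by
  classical
  let _ : LinearOrder (BB G) := linearOrderOfSTO (WellOrderingRel (α := BB G))
  have hli := h.ind2' h.indB
  have hinj := hli.injective
  have key : ∀ x y z t : BB G, x < y → z < t → bt (x : Wd G) y = bt (z : Wd G) t →
      x = z ∧ y = t := by
    intro x y z t hxy hzt he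
    have := @hinj ⟨(x, y), hxy⟩ ⟨(z, t), hzt⟩ he
    have h1 := congrArg Subtype.val this
    exact ⟨congrArg Prod.fst h1, congrArg Prod.snd h1⟩
  have hab' : (⟨a, ha⟩ : BB G) ≠ ⟨b, hb⟩ := fun e => hab (congrArg Subtype.val e)
  have hcd' : (⟨c, hc⟩ : BB G) ≠ ⟨d, hd⟩ := fun e => hcd (congrArg Subtype.val e)
  rcases lt_or_gt_of_ne hab' with h1 | h1 <;> rcases lt_or_gt_of_ne hcd' with h2 | h2
  · have := key _ _ _ _ h1 h2 he
    exact Or.inl ⟨congrArg Subtype.val this.1, congrArg Subtype.val this.2⟩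
  · have := key _ _ _ _ h1 h2 (by rw [he, bt_symm])
    exact Or.inr ⟨congrArg Subtype.val this.1, congrArg Subtype.val this.2⟩
  · have := key _ _ _ _ h1 h2 (by rw [← he, bt_symm])
    exact Or.inr ⟨congrArg Subtype.val this.2, congrArg Subtype.val this.1⟩
  · have := key _ _ _ _ h1 h2 (by rw [bt_symm, he, bt_symm])
    exact Or.inl ⟨congrArg Subtype.val this.2, congrArg Subtype.val this.1⟩

theorem Nice.bt_ne (h : Nice G) {a b : Wd G} (ha : a ∈ BB G) (hb : b ∈ BB G) (hab : a ≠ b) :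
    bt a b ≠ 0 := by
  classical
  let _ : LinearOrder (BB G) := linearOrderOfSTO (WellOrderingRel (α := BB G))
  have hli := h.ind2' h.indB
  have hab' : (⟨a, ha⟩ : BB G) ≠ ⟨b, hb⟩ := fun e => hab (congrArg Subtype.val e)
  rcases lt_or_gt_of_ne hab' with h1 | h1
  · exact hli.ne_zero (⟨(_, _), h1⟩ : {p : BB G × BB G // p.1 < p.2})
  · rw [bt_symm]
    exact hli.ne_zero (⟨(_, _), h1⟩ : {p : BB G × BB G // p.1 < p.2})

theorem Nice.not_both (h : Nice G) {x v w : Wd G} (h1 : VV x) (h2 : IsE v w x) : False := by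
  have h3 := h2.2.2.2.1
  rw [h1.2] at h3
  exact h.bt_ne h2.1.mem h2.2.1.mem h2.2.2.1 h3.symm

/-- the correspondence of the vertices and edges -/
def RB (π : {v : Wd G // VV v} ≃ {v : Wd G' // VV v}) (x : Wd G) (y : Wd G') : Prop :=
  (∃ hx : VV x, y = (π ⟨x, hx⟩ : Wd G')) ∨
    ∃ v w : {v : Wd G // VV v}, IsE v.1 w.1 x ∧ IsE (π v).1 (π w).1 y

theorem RB.uniq (h : Nice G) (h' : Nice G') {π : {v : Wd G // VV v} ≃ {v : Wd G' // VV v}}
    {x : Wd G} {y y' : Wd G'} (h1 : RB π x y) (h2 : RB π x y') : y = y' := by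
  rcases h1 with ⟨hx, rfl⟩ | ⟨v, w, k1, k2⟩ <;> rcases h2 with ⟨hx', rfl⟩ | ⟨v', w', k3, k4⟩
  · rfl
  · exact (h.not_both hx k3).elim
  · exact (h.not_both hx' k1).elim
  · have he : bt (v : Wd G) w = bt (v' : Wd G) w' := k1.2.2.2.1.symm.trans k3.2.2.2.1
    rcases h.bt_inj k1.1.mem k1.2.1.mem k3.1.mem k3.2.1.mem k1.2.2.1 k3.2.2.1 he with
      ⟨e1, e2⟩ | ⟨e1, e2⟩
    · have e1' := Subtype.ext e1
      have e2' := Subtype.ext e2
      subst e1' e2'
      exact h'.uniq _ _ _ _ k2 k4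
    · have e1' := Subtype.ext e1
      have e2' := Subtype.ext e2
      subst e1' e2'
      exact h'.uniq _ _ _ _ k2 k4.symm

theorem RB.symm {π : {v : Wd G // VV v} ≃ {v : Wd G' // VV v}} {x : Wd G} {y : Wd G'}
    (h : RB π x y) : RB π.symm y x := by
  rcases h with ⟨hx, rfl⟩ | ⟨v, w, k1, k2⟩
  · refine Or.inl ⟨(π ⟨x, hx⟩).2, ?_⟩
    have : π.symm ⟨(π ⟨x, hx⟩ : Wd G'), (π ⟨x, hx⟩).2⟩ = ⟨x, hx⟩ := π.symm_apply_apply _
    rw [this]
  · refine Or.inr ⟨π v, π w, k2, ?_⟩
    rw [π.symm_apply_apply, π.symm_apply_apply]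
    exact k1

theorem RB.ex {π : {v : Wd G // VV v} ≃ {v : Wd G' // VV v}}
    (hπ : ∀ v w, Adj v.1 w.1 → Adj (π v).1 (π w).1) {x : Wd G} (hx : x ∈ BB G) :
    ∃ y, y ∈ BB G' ∧ RB π x y := by
  rcases hx with hx | ⟨v, w, hx⟩
  · exact ⟨_, (π ⟨x, hx⟩).2.mem, Or.inl ⟨hx, rfl⟩⟩
  · obtain ⟨e, he⟩ := hπ ⟨v, hx.1⟩ ⟨w, hx.2.1⟩ ⟨x, hx⟩
    exact ⟨e, he.mem, Or.inr ⟨_, _, hx, he⟩⟩

/-- the bijection of the vertices and edges -/
theorem exists_theta (h : Nice G) (h' : Nice G')
    (π : {v : Wd G // VV v} ≃ {v : Wd G' // VV v})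
    (hπ : ∀ v w, Adj v.1 w.1 ↔ Adj (π v).1 (π w).1) :
    ∃ θ : BB G ≃ BB G', ∀ x : BB G, RB π (x : Wd G) (θ x : Wd G') := by
  refine equiv_of_rel (fun (x : BB G) (y : BB G') => RB π x y) ?_ ?_ ?_ ?_
  · intro x
    obtain ⟨y, h1, h2⟩ := RB.ex (fun v w => (hπ v w).1) x.2
    exact ⟨⟨y, h1⟩, h2⟩
  · intro y
    obtain ⟨x, h1, h2⟩ := RB.ex (π := π.symm) (fun v w hvw => by
      rw [hπ, π.apply_symm_apply, π.apply_symm_apply]
      exact hvw) y.2
    refine ⟨⟨x, h1⟩, ?_⟩
    have := h2.symm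
    rwa [Equiv.symm_symm] at this
  · exact fun x y y' h1 h2 => Subtype.ext (RB.uniq h h' h1 h2)
  · exact fun x x' y h1 h2 => Subtype.ext (RB.uniq h' h h1.symm h2.symm)

theorem Nice.basisW (h : Nice G) {ι : Type}
    (bI : Module.Basis ι (ZMod 2) (Wd G ⧸ SP G)) :
    ∃ b : Module.Basis (BB G ⊕ ι) (ZMod 2) (Wd G), (∀ x : BB G, b (Sum.inl x) = x) ∧
      ∀ i, Submodule.Quotient.mk (p := SP G) (b (Sum.inr i)) = bI i := by
  have e : Submodule.span (ZMod 2) (Set.range fun x : BB G => (x : Wd G)) = SP G := by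
    rw [Subtype.range_coe]
    rfl
  let bS : Module.Basis (BB G) (ZMod 2) (SP G) :=
    (Module.Basis.span h.indB).map (LinearEquiv.ofEq _ _ e)
  have hbS : ∀ x : BB G, (bS x : Wd G) = x := fun x => by
    simp [bS]
  refine ⟨Module.Basis.sumQuot bS bI, fun x => ?_, fun i => ?_⟩
  · rw [Module.Basis.sumQuot_inl, hbS]
  · rw [Module.Basis.sumQuot_inr]

theorem basisZ {S : Submodule (ZMod 2) (Zd G)} {κ ι : Type} {g : κ → Zd G}
    (hg : LinearIndependent (ZMod 2) g) (hs : Submodule.span (ZMod 2) (Set.range g) = S)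
    (bJ : Module.Basis ι (ZMod 2) (Zd G ⧸ S)) :
    ∃ z : Module.Basis (κ ⊕ ι) (ZMod 2) (Zd G), ∀ s, z (Sum.inl s) = g s := by
  let bS : Module.Basis κ (ZMod 2) S :=
    (Module.Basis.span hg).map (LinearEquiv.ofEq _ _ hs)
  have hbS : ∀ x, (bS x : Zd G) = g x := fun x => by
    simp [bS]
  refine ⟨Module.Basis.sumQuot bS bJ, fun x => ?_⟩
  rw [Module.Basis.sumQuot_inl, hbS]

/-- **Classification.** -/
theorem classify (h : Nice G) (h' : Nice G')
    (π : {v : Wd G // VV v} ≃ {v : Wd G' // VV v})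
    (hπ : ∀ v w, Adj v.1 w.1 ↔ Adj (π v).1 (π w).1)
    (hI : Module.rank (ZMod 2) (Wd G ⧸ SP G) = Module.rank (ZMod 2) (Wd G' ⧸ SP G'))
    (hJ : Module.rank (ZMod 2) (Zd G ⧸ SQ G) = Module.rank (ZMod 2) (Zd G' ⧸ SQ G')) :
    Nonempty (G ≃* G') := by
  classical
  obtain ⟨θ, hθ⟩ := exists_theta h h' π hπ
  -- the bases of the first space
  let bI := Module.Basis.ofVectorSpace (ZMod 2) (Wd G ⧸ SP G)
  let bI' := Module.Basis.ofVectorSpace (ZMod 2) (Wd G' ⧸ SP G')
  obtain ⟨eI⟩ : Nonempty (_ ≃ _) :=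
    Cardinal.eq.1 ((bI.mk_eq_rank''.trans hI).trans bI'.mk_eq_rank''.symm)
  obtain ⟨b, hb1, hb2⟩ := h.basisW bI
  obtain ⟨b0, hb3, hb4⟩ := h'.basisW bI'
  let b' := b0.reindex (θ.sumCongr eI).symm
  have hb5 : ∀ x, b' (Sum.inl x) = θ x := fun x => by
    simp [b', hb3]
  have hb6 : ∀ i, Submodule.Quotient.mk (p := SP G') (b' (Sum.inr i)) = bI' (eI i) :=
    fun i => by
      simp [b', hb4]
  let _ : LinearOrder (BB G ⊕ Module.Basis.ofVectorSpaceIndex (ZMod 2) (Wd G ⧸ SP G)) :=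
    linearOrderOfSTO (WellOrderingRel
      (α := BB G ⊕ Module.Basis.ofVectorSpaceIndex (ZMod 2) (Wd G ⧸ SP G)))
  have hc1 : LinearIndependent (ZMod 2)
      (fun i => Submodule.Quotient.mk (p := SP G) (b (Sum.inr i))) := by
    have : (fun i => Submodule.Quotient.mk (p := SP G) (b (Sum.inr i))) = bI := funext hb2
    rw [this]
    exact bI.linearIndependent
  have hc2 : LinearIndependent (ZMod 2)
      (fun i => Submodule.Quotient.mk (p := SP G') (b' (Sum.inr i))) := by
    have : (fun i => Submodule.Quotient.mk (p := SP G') (b' (Sum.inr i))) = bI' ∘ eI :=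
      funext hb6
    rw [this]
    exact bI'.linearIndependent.comp _ eI.injective
  have hg1 := h.gen_li b.linearIndependent hc1
  have hg2 := h'.gen_li b'.linearIndependent hc2
  have hs1 := gen_span b (fun i => b (Sum.inr i)) (by
    rintro (x | i)
    · left
      rw [hb1]
      exact x.2
    · exact Or.inr ⟨i, rfl⟩)
  have hs2 := gen_span b' (fun i => b' (Sum.inr i)) (by
    rintro (x | i)
    · left
      rw [hb5]
      exact (θ x).2
    · exact Or.inr ⟨i, rfl⟩)
  -- the bases of the second space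
  let bJ := Module.Basis.ofVectorSpace (ZMod 2) (Zd G ⧸ SQ G)
  let bJ' := Module.Basis.ofVectorSpace (ZMod 2) (Zd G' ⧸ SQ G')
  obtain ⟨eJ⟩ : Nonempty (_ ≃ _) :=
    Cardinal.eq.1 ((bJ.mk_eq_rank''.trans hJ).trans bJ'.mk_eq_rank''.symm)
  obtain ⟨z, hz⟩ := basisZ hg1 hs1 bJ
  obtain ⟨z0, hz0⟩ := basisZ hg2 hs2 bJ'
  let z' := z0.reindex ((Equiv.refl _).sumCongr eJ).symm
  have hz' : ∀ s, z' (Sum.inl s) = gen b' (fun i => b' (Sum.inr i)) s := fun s => by
    simp [z', hz0]
  let φ : Wd G ≃ₗ[ZMod 2] Wd G' := b.equiv b' (Equiv.refl _)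
  let ψ : Zd G ≃ₗ[ZMod 2] Zd G' := z.equiv z' (Equiv.refl _)
  have hφ : ∀ k, φ (b k) = b' k := fun k => by simp [φ]
  have hψ : ∀ s, ψ (gen b (fun i => b (Sum.inr i)) s) = gen b' (fun i => b' (Sum.inr i)) s :=
    fun s => by
      rw [← hz, ← hz']
      simp [ψ]
  have hbt : ∀ x y, ψ (bt x y) = bt (φ x) (φ y) := by
    have h1 : (bl (G := G)).compr₂ (ψ : Zd G →ₗ[ZMod 2] Zd G') =
        (bl (G := G')).compl₁₂ (φ : Wd G →ₗ[ZMod 2] Wd G') (φ : Wd G →ₗ[ZMod 2] Wd G') := by
      refine LinearMap.ext_basis b b fun s t => ?_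
      show ψ (bt (b s) (b t)) = bt (φ (b s)) (φ (b t))
      rw [hφ, hφ]
      rcases lt_trichotomy s t with hst | hst | hst
      · exact hψ (Sum.inl ⟨(s, t), hst⟩)
      · subst hst
        rw [bt_self, bt_self, map_zero]
      · rw [bt_symm, bt_symm (b' s)]
        exact hψ (Sum.inl ⟨(t, s), hst⟩)
    intro x y
    exact LinearMap.congr_fun (LinearMap.congr_fun h1 x) y
  have hq : ∀ x, ψ (q x) = q (φ x) := by
    have h2 : ∀ x ∈ Submodule.span (ZMod 2) (Set.range b), ψ (q x) = q (φ x) := by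
      intro x hx
      refine Submodule.span_induction (p := fun x _ => ψ (q x) = q (φ x)) ?_ ?_ ?_ ?_ hx
      · rintro _ ⟨x | i, rfl⟩
        · rw [hφ, hb5, hb1]
          rcases hθ x with ⟨hx, he⟩ | ⟨v, w, k1, k2⟩
          · rw [he, hx.2, (π ⟨x, hx⟩).2.2, map_zero]
          · rw [k1.2.2.2.1, k2.2.2.2.1, hbt]
            have key : ∀ v : {v : Wd G // VV v}, φ v = π v := by
              intro v
              have h3 := hb1 ⟨v, v.2.mem⟩
              have h4 : φ v = b' (Sum.inl ⟨v, v.2.mem⟩) := by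
                rw [← hφ, h3]
              rw [h4, hb5]
              exact RB.uniq h h' (hθ ⟨v, v.2.mem⟩) (Or.inl ⟨v.2, rfl⟩)
            rw [key, key]
        · rw [hφ]
          exact hψ (Sum.inr i)
      · rw [q_zero, map_zero, map_zero, q_zero]
      · intro u v _ _ hu hv
        rw [q_add, map_add, map_add, map_add, q_add, hu, hv, hbt]
      · intro c u _ hu
        rcases zmod2 c with rfl | rfl
        · rw [zero_smul, q_zero, map_zero, map_zero, q_zero]
        · rw [one_smul]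
          exact hu
    intro x
    exact h2 x (by rw [b.span_eq]; exact Submodule.mem_top)
  -- the isomorphism of the groups
  let Φ : G ⧸ center G ≃* G' ⧸ center G' :=
    { toFun := fun a => Additive.toMul (φ (Additive.ofMul a : Additive (G ⧸ center G)) :
        Additive (G' ⧸ center G'))
      invFun := fun a => Additive.toMul (φ.symm (Additive.ofMul a : Additive (G' ⧸ center G')) :
        Additive (G ⧸ center G))
      left_inv := fun a => congrArg (Additive.toMul (α := G ⧸ center G))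
        (φ.symm_apply_apply (Additive.ofMul a : Additive (G ⧸ center G)))
      right_inv := fun a => congrArg (Additive.toMul (α := G' ⧸ center G'))
        (φ.apply_symm_apply (Additive.ofMul a : Additive (G' ⧸ center G')))
      map_mul' := fun a b => congrArg (Additive.toMul (α := G' ⧸ center G'))
        (φ.map_add (Additive.ofMul a : Additive (G ⧸ center G))
          (Additive.ofMul b : Additive (G ⧸ center G))) }
  let Ψ : center G ≃* center G' :=
    { toFun := fun a => Additive.toMul (ψ (Additive.ofMul a : Additive (center G)) :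
        Additive (center G'))
      invFun := fun a => Additive.toMul (ψ.symm (Additive.ofMul a : Additive (center G')) :
        Additive (center G))
      left_inv := fun a => congrArg (Additive.toMul (α := center G))
        (ψ.symm_apply_apply (Additive.ofMul a : Additive (center G)))
      right_inv := fun a => congrArg (Additive.toMul (α := center G'))
        (ψ.apply_symm_apply (Additive.ofMul a : Additive (center G')))
      map_mul' := fun a b => congrArg (Additive.toMul (α := center G'))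
        (ψ.map_add (Additive.ofMul a : Additive (center G))
          (Additive.ofMul b : Additive (center G))) }
  refine lift_iso Φ Ψ fun g g' hg => ?_
  have h1 : φ (cl g) = cl g' := congrArg (Additive.ofMul (α := G' ⧸ center G')) hg
  have h2 := hq (cl g)
  rw [h1] at h2
  have h3 := congrArg el h2
  rw [el_q] at h3
  rw [q_cl] at h3
  exact h3

end Pool.Agent.H4.VG
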