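import Pool.Agent.H4.VG.Op2
import Pool.Graph.R_seed8.TH686.FO.Rec

set_option autoImplicit false
set_option linter.unusedSectionVars false

/-! Definability over one binary function. -/

namespace Pool.Agent.H4.VG

open FirstOrder FirstOrder.Language
open Pool.Agent.W889.FO
open Pool.Agent.W889.FO.StA (FD.all1 FD.ex1)

/-- one binary function symbol -/
inductive MF : ℕ → Type
  | mul : MF 2

/-- the language with one binary function symbol -/
def LM : FirstOrder.Language.{0, 0} := ⟨MF, fun _ => Empty⟩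

/-- the operation -/
def op (S : LM.Structure ℕ) (a b : ℕ) : ℕ := @Structure.funMap LM ℕ S 2 MF.mul ![a, b]

/-- the relational language -/
abbrev LR : FirstOrder.Language.{0, 0} := St0.LF LM

/-- the operation -/
noncomputable def ml (S : LR.Structure ℕ) : ℕ → ℕ → ℕ := op (St0.D S)

/-- definable terms -/
def FT {α : Type} (p : LR.Structure ℕ → (α → ℕ) → ℕ) : Prop :=
  ∃ t : LM.Term α, ∀ S v, @Term.realize LM ℕ (St0.D S) α v t = p S v

section

variable {α β : Type} {p q r : LR.Structure ℕ → (α → ℕ) → ℕ}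

theorem FT.var (i : α) : FT (fun _ v => v i) := ⟨Term.var i, fun _ _ => rfl⟩

theorem FT.mul (hp : FT p) (hq : FT q) : FT (fun S v => ml S (p S v) (q S v)) := by
  obtain ⟨t, ht⟩ := hp
  obtain ⟨s, hs⟩ := hq
  refine ⟨Term.func (L := LM) (MF.mul : LM.Functions 2) ![t, s], fun S v => ?_⟩
  show @Structure.funMap LM ℕ (St0.D S) 2 MF.mul
    (fun i => @Term.realize LM ℕ (St0.D S) α v ((![t, s] : Fin 2 → LM.Term α) i)) =
      @Structure.funMap LM ℕ (St0.D S) 2 MF.mul ![p S v, q S v]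
  congr 1
  funext i
  refine Fin.cases ?_ (fun j => ?_) i
  · exact ht S v
  · refine Fin.cases ?_ (fun k => k.elim0) j
    exact hs S v

theorem FT.sub (hp : FT p) (g : α → β) : FT (fun S v => p S (fun i => v (g i))) := by
  obtain ⟨t, ht⟩ := hp
  refine ⟨t.relabel g, fun S v => ?_⟩
  show _ = p S (fun i => v (g i))
  rw [← ht]
  exact @Term.realize_relabel LM ℕ (St0.D S) α β t g v

theorem FT.congr {p' : LR.Structure ℕ → (α → ℕ) → ℕ} (hp : FT p) (h : ∀ S v, p S v = p' S v) :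
    FT p' := by
  obtain ⟨t, ht⟩ := hp
  exact ⟨t, fun S v => (ht S v).trans (h S v)⟩

/-- equations -/
theorem eqT (hp : FT p) (hq : FT q) : FD St0.W (fun S v => p S v = q S v) := by
  obtain ⟨t, ht⟩ := hp
  obtain ⟨s, hs⟩ := hq
  refine (FD.ex1 (P := fun S v b => @Term.realize LM ℕ (St0.D S) α v t = b ∧
    @Term.realize LM ℕ (St0.D S) α v s = b)
    ((St0.fd_term t).and (St0.fd_term s))).congr fun S _ v => ?_
  rw [← ht, ← hs]
  constructor
  · rintro ⟨b, h1, h2⟩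
    exact h1.trans h2.symm
  · intro h
    exact ⟨_, rfl, h.symm⟩

theorem fd_cen (hp : FT p) : FD St0.W (fun S v => Cen (ml S) (p S v)) :=
  FD.all1 (P := fun S v x => ml S x (p S v) = ml S (p S v) x)
    (eqT ((FT.var (Sum.inr ())).mul (hp.sub Sum.inl)) ((hp.sub Sum.inl).mul (FT.var (Sum.inr ()))))

theorem ft_cm (hp : FT p) (hq : FT q) : FT (fun S v => cm (ml S) (p S v) (q S v)) :=
  ((hp.mul hq).mul (hp.mul hq)).mul ((hp.mul hp).mul (hq.mul hq))

theorem fd_cg (hp : FT p) (hq : FT q) : FD St0.W (fun S v => Cg (ml S) (p S v) (q S v)) :=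
  fd_cen (hp.mul hq)

theorem fd_vx (hp : FT p) : FD St0.W (fun S v => Vx (ml S) (p S v)) :=
  (fd_cen hp).not.and (eqT ((hp.mul hp).mul (hp.mul hp)) (hp.mul hp))

theorem fd_ed (hp : FT p) (hq : FT q) (hr : FT r) :
    FD St0.W (fun S v => Ed (ml S) (p S v) (q S v) (r S v)) :=
  (fd_vx hp).and ((fd_vx hq).and ((fd_cg hp hq).not.and
    ((eqT (hr.mul hr) (ft_cm hp hq)).and (fd_cg hr (hp.mul hq)).not)))

theorem fd_bx (hp : FT p) : FD St0.W (fun S v => Bx (ml S) (p S v)) :=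
  (fd_vx hp).or <| FD.ex1 (P := fun S v a => ∃ w, Ed (ml S) a w (p S v)) <|
    FD.ex1 (P := fun S w b => Ed (ml S) (w (Sum.inr ())) b (p S (fun i => w (Sum.inl i)))) <|
    fd_ed (FT.var (Sum.inl (Sum.inr ()))) (FT.var (Sum.inr ()))
      (hp.sub (fun i => Sum.inl (Sum.inl i)))

theorem ft_wd {ι : Type} (l : List ι) (hp : FT p) {u : ι → LR.Structure ℕ → (α → ℕ) → ℕ}
    (hu : ∀ i, FT (u i)) : FT (fun S v => wd (ml S) (p S v) (l.map fun i => u i S v)) := by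
  induction l with
  | nil => exact hp
  | cons a l ih => exact (hu a).mul ih

theorem ft_wdFn {n : ℕ} (hp : FT p) {u : Fin n → LR.Structure ℕ → (α → ℕ) → ℕ}
    (hu : ∀ i, FT (u i)) : FT (fun S v => wd (ml S) (p S v) (List.ofFn fun i => u i S v)) := by
  refine (ft_wd (List.finRange n) hp hu).congr fun S v => ?_
  rw [List.ofFn_eq_map]

end

/-- finite disjunctions -/
theorem fd_finex {L : FirstOrder.Language.{0, 0}} {W : L.Structure ℕ → Prop} {α ι : Type}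
    [Finite ι] {P : ι → L.Structure ℕ → (α → ℕ) → Prop} (h : ∀ i, FD W (P i)) :
    FD W (fun S v => ∃ i, P i S v) := by
  refine (FD.fin fun i => (h i).not).not.congr fun S _ v => ?_
  push Not
  rfl

theorem axf {P : LR.Structure ℕ → Prop} (h : FD St0.W (fun S (_ : Empty → ℕ) => P S)) :
    Ax (fun S => St0.W S ∧ P S) := Ax.of_fd (St0.ax_W LM) h

/-- the class of the groups -/
def WG (S : LR.Structure ℕ) : Prop := St0.W S ∧ FA (ml S)

theorem ax_WG : Ax WG := by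
  have h1 := axf (P := fun S => ∀ x y z, ml S (ml S x y) z = ml S x (ml S y z)) <|
    FD.all1 (P := fun S _ x => ∀ y z, ml S (ml S x y) z = ml S x (ml S y z)) <|
    FD.all1 (P := fun S w y => ∀ z, ml S (ml S (w (Sum.inr ())) y) z =
      ml S (w (Sum.inr ())) (ml S y z)) <|
    FD.all1 (P := fun S w z => ml S (ml S (w (Sum.inl (Sum.inr ()))) (w (Sum.inr ()))) z =
      ml S (w (Sum.inl (Sum.inr ()))) (ml S (w (Sum.inr ())) z)) <|
    eqT (((FT.var _).mul (FT.var _)).mul (FT.var _)) ((FT.var _).mul ((FT.var _).mul (FT.var _)))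
  have h2 := axf (P := fun S => ∃ e, (∀ x, ml S e x = x) ∧ ∀ x, ∃ y, ml S y x = e) <|
    FD.ex1 (P := fun S _ e => (∀ x, ml S e x = x) ∧ ∀ x, ∃ y, ml S y x = e) <|
    FD.and (FD.all1 (P := fun S w x => ml S (w (Sum.inr ())) x = x)
      (eqT ((FT.var _).mul (FT.var _)) (FT.var _))) <|
    FD.all1 (P := fun S w x => ∃ y, ml S y x = w (Sum.inr ())) <|
    FD.ex1 (P := fun S w y => ml S y (w (Sum.inr ())) = w (Sum.inl (Sum.inr ()))) <|
    eqT ((FT.var _).mul (FT.var _)) (FT.var _)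
  have h3 := axf (P := fun S => ∀ x, Cen (ml S) (ml S x x)) <|
    FD.all1 (P := fun S _ x => Cen (ml S) (ml S x x)) <| fd_cen ((FT.var _).mul (FT.var _))
  have h4 := axf (P := fun S => ∀ z, Cen (ml S) z → ml S (ml S z z) (ml S z z) = ml S z z) <|
    FD.all1 (P := fun S _ z => Cen (ml S) z → ml S (ml S z z) (ml S z z) = ml S z z) <|
    (fd_cen (FT.var _)).imp (eqT (((FT.var _).mul (FT.var _)).mul ((FT.var _).mul (FT.var _)))
      ((FT.var _).mul (FT.var _)))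
  have h5 := Ax.all fun (P : Σ n, {P : Finset (Fin n × Fin n) // P.Nonempty ∧
      ∀ p ∈ P, p.1 < p.2}) => axf (P := fun S => ∀ (e : ℕ) (w : Fin P.1 → ℕ), ml S e e = e →
      (∀ T : {T : Finset (Fin P.1) // T.Nonempty},
        ¬ Cen (ml S) (wd (ml S) e (T.1.toList.map w))) →
        wd (ml S) e (P.2.1.toList.map fun p => cm (ml S) (w p.1) (w p.2)) ≠ e) <|
    FD.all1 (P := fun S _ e => ∀ w : Fin P.1 → ℕ, ml S e e = e →
      (∀ T : {T : Finset (Fin P.1) // T.Nonempty},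
        ¬ Cen (ml S) (wd (ml S) e (T.1.toList.map w))) →
        wd (ml S) e (P.2.1.toList.map fun p => cm (ml S) (w p.1) (w p.2)) ≠ e) <|
    FD.all (P := fun S v w => ml S (v (Sum.inr ())) (v (Sum.inr ())) = (v (Sum.inr ())) →
      (∀ T : {T : Finset (Fin P.1) // T.Nonempty},
        ¬ Cen (ml S) (wd (ml S) (v (Sum.inr ())) (T.1.toList.map w))) →
        wd (ml S) (v (Sum.inr ())) (P.2.1.toList.map fun p => cm (ml S) (w p.1) (w p.2)) ≠
          (v (Sum.inr ()))) <|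
    (eqT ((FT.var _).mul (FT.var _)) (FT.var _)).imp <|
    (FD.fin fun T : {T : Finset (Fin P.1) // T.Nonempty} =>
      (fd_cen (ft_wd (ι := Fin P.1) T.1.toList (FT.var _)
        (u := fun i _ w => w (Sum.inr i)) (fun i => FT.var _))).not).imp <|
    (eqT (ft_wd (ι := Fin P.1 × Fin P.1) P.2.1.toList (FT.var _)
      (u := fun p S w => cm (ml S) (w (Sum.inr p.1)) (w (Sum.inr p.2)))
      (fun p => ft_cm (FT.var _) (FT.var _))) (FT.var _)).not
  have h6 := Ax.all fun n : ℕ => axf (P := fun S => ∀ (e : ℕ) (w : Fin (n + 1) → ℕ),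
      ml S e e = e → (∀ i, Bx (ml S) (w i)) → (∀ i j, i ≠ j → ¬ Cg (ml S) (w i) (w j)) →
        ¬ Cen (ml S) (wd (ml S) e (List.ofFn w))) <|
    FD.all1 (P := fun S _ e => ∀ w : Fin (n + 1) → ℕ,
      ml S e e = e → (∀ i, Bx (ml S) (w i)) → (∀ i j, i ≠ j → ¬ Cg (ml S) (w i) (w j)) →
        ¬ Cen (ml S) (wd (ml S) e (List.ofFn w))) <|
    FD.all (P := fun S v w => ml S (v (Sum.inr ())) (v (Sum.inr ())) = (v (Sum.inr ())) →
      (∀ i, Bx (ml S) (w i)) → (∀ i j, i ≠ j → ¬ Cg (ml S) (w i) (w j)) →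
        ¬ Cen (ml S) (wd (ml S) (v (Sum.inr ())) (List.ofFn w))) <|
    (eqT ((FT.var _).mul (FT.var _)) (FT.var _)).imp <|
    (FD.fin fun i => fd_bx (FT.var _)).imp <|
    (FD.fin fun i => FD.fin fun j => (FD.const (i ≠ j)).imp
      (fd_cg (FT.var _) (FT.var _)).not).imp
    (fd_cen (ft_wdFn (FT.var _) (u := fun i _ w => w (Sum.inr i)) (fun i => FT.var _))).not
  have h7 := axf (P := fun S => ∀ v w e e', Ed (ml S) v w e → Ed (ml S) v w e' →
      Cg (ml S) e e') <|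
    FD.all1 (P := fun S _ v => ∀ w e e', Ed (ml S) v w e → Ed (ml S) v w e' →
      Cg (ml S) e e') <|
    FD.all1 (P := fun S u w => ∀ e e', Ed (ml S) (u (Sum.inr ())) w e →
      Ed (ml S) (u (Sum.inr ())) w e' → Cg (ml S) e e') <|
    FD.all1 (P := fun S u e => ∀ e', Ed (ml S) (u (Sum.inl (Sum.inr ()))) (u (Sum.inr ())) e →
      Ed (ml S) (u (Sum.inl (Sum.inr ()))) (u (Sum.inr ())) e' → Cg (ml S) e e') <|
    FD.all1 (P := fun S u e' =>
      Ed (ml S) (u (Sum.inl (Sum.inl (Sum.inr ())))) (u (Sum.inl (Sum.inr ())))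
        (u (Sum.inr ())) →
      Ed (ml S) (u (Sum.inl (Sum.inl (Sum.inr ())))) (u (Sum.inl (Sum.inr ()))) e' →
        Cg (ml S) (u (Sum.inr ())) e') <|
    (fd_ed (FT.var _) (FT.var _) (FT.var _)).imp <|
    (fd_ed (FT.var _) (FT.var _) (FT.var _)).imp <| fd_cg (FT.var _) (FT.var _)
  have h8 := Ax.all fun n : ℕ => axf (P := fun S => ∀ (e x : ℕ) (y z : Fin n → ℕ),
      ml S e e = e → ml S x x = wd (ml S) e (List.ofFn fun i => cm (ml S) (y i) (z i)) →
      ∃ (k : Fin (4 ^ (n + 1) + 1)) (u : Fin k → ℕ), (∀ i, Bx (ml S) (u i)) ∧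
        Cg (ml S) x (wd (ml S) e (List.ofFn u))) <|
    FD.all1 (P := fun S _ e => ∀ (x : ℕ) (y z : Fin n → ℕ),
      ml S e e = e → ml S x x = wd (ml S) e (List.ofFn fun i => cm (ml S) (y i) (z i)) →
      ∃ (k : Fin (4 ^ (n + 1) + 1)) (u : Fin k → ℕ), (∀ i, Bx (ml S) (u i)) ∧
        Cg (ml S) x (wd (ml S) e (List.ofFn u))) <|
    FD.all1 (P := fun S v x => ∀ (y z : Fin n → ℕ),
      ml S (v (Sum.inr ())) (v (Sum.inr ())) = v (Sum.inr ()) →
      ml S x x = wd (ml S) (v (Sum.inr ())) (List.ofFn fun i => cm (ml S) (y i) (z i)) →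
      ∃ (k : Fin (4 ^ (n + 1) + 1)) (u : Fin k → ℕ), (∀ i, Bx (ml S) (u i)) ∧
        Cg (ml S) x (wd (ml S) (v (Sum.inr ())) (List.ofFn u))) <|
    FD.all (P := fun S v y => ∀ (z : Fin n → ℕ),
      ml S (v (Sum.inl (Sum.inr ()))) (v (Sum.inl (Sum.inr ()))) = v (Sum.inl (Sum.inr ())) →
      ml S (v (Sum.inr ())) (v (Sum.inr ())) =
        wd (ml S) (v (Sum.inl (Sum.inr ()))) (List.ofFn fun i => cm (ml S) (y i) (z i)) →
      ∃ (k : Fin (4 ^ (n + 1) + 1)) (u : Fin k → ℕ), (∀ i, Bx (ml S) (u i)) ∧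
        Cg (ml S) (v (Sum.inr ())) (wd (ml S) (v (Sum.inl (Sum.inr ()))) (List.ofFn u))) <|
    FD.all (P := fun S v z =>
      ml S (v (Sum.inl (Sum.inl (Sum.inr ())))) (v (Sum.inl (Sum.inl (Sum.inr ())))) =
        v (Sum.inl (Sum.inl (Sum.inr ()))) →
      ml S (v (Sum.inl (Sum.inr ()))) (v (Sum.inl (Sum.inr ()))) =
        wd (ml S) (v (Sum.inl (Sum.inl (Sum.inr ()))))
          (List.ofFn fun i => cm (ml S) (v (Sum.inr i)) (z i)) →
      ∃ (k : Fin (4 ^ (n + 1) + 1)) (u : Fin k → ℕ), (∀ i, Bx (ml S) (u i)) ∧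
        Cg (ml S) (v (Sum.inl (Sum.inr ())))
          (wd (ml S) (v (Sum.inl (Sum.inl (Sum.inr ())))) (List.ofFn u))) <|
    (eqT ((FT.var _).mul (FT.var _)) (FT.var _)).imp <|
    (eqT ((FT.var _).mul (FT.var _)) (ft_wdFn (FT.var _)
      (u := fun i S w => cm (ml S) (w (Sum.inl (Sum.inr i))) (w (Sum.inr i)))
      (fun i => ft_cm (FT.var _) (FT.var _)))).imp <|
    fd_finex fun k : Fin (4 ^ (n + 1) + 1) =>
    FD.ex (P := fun S v u => (∀ i, Bx (ml S) (u i)) ∧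
        Cg (ml S) (v (Sum.inl (Sum.inl (Sum.inr ()))))
          (wd (ml S) (v (Sum.inl (Sum.inl (Sum.inl (Sum.inr ()))))) (List.ofFn u))) <|
    (FD.fin fun i => fd_bx (FT.var _)).and <|
    fd_cg (FT.var _) (ft_wdFn (FT.var _) (u := fun i _ w => w (Sum.inr i)) (fun i => FT.var _))
  have h9 := Ax.all fun n : ℕ => axf (P := fun S => ∃ w : Fin n → ℕ, (∀ i, Vx (ml S) (w i)) ∧
      ∀ i j, i ≠ j → ¬ Cg (ml S) (w i) (w j)) <|
    FD.ex (P := fun S _ w => (∀ i, Vx (ml S) (w i)) ∧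
      ∀ i j, i ≠ j → ¬ Cg (ml S) (w i) (w j)) <|
    (FD.fin fun i => fd_vx (FT.var _)).and <|
    FD.fin fun i => FD.fin fun j => (FD.const (i ≠ j)).imp (fd_cg (FT.var _) (FT.var _)).not
  refine (h1.and (h2.and (h3.and (h4.and (h5.and (h6.and (h7.and (h8.and h9)))))))).congr
    fun S => ?_
  constructor
  · rintro ⟨k1, k2, k3, k4, k5, k6, k7, k8, k9⟩
    exact ⟨k1.1, k1.2, k2.2, k3.2, k4.2, fun P => (k5 P).2, fun n => (k6 n).2, k7.2,
      fun n => (k8 n).2, fun n => (k9 n).2⟩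
  · rintro ⟨hW, k⟩
    exact ⟨⟨hW, k.assoc⟩, ⟨hW, k.unit⟩, ⟨hW, k.sq⟩, ⟨hW, k.ex⟩, fun P => ⟨hW, k.ind2 P⟩,
      fun n => ⟨hW, k.indB n⟩, ⟨hW, k.uniq⟩, fun n => ⟨hW, k.fin n⟩, fun n => ⟨hW, k.inf n⟩⟩

end Pool.Agent.H4.VG
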