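import Pool.Graph.R_seed8.TH686.FO.Rec

set_option autoImplicit false
set_option linter.unusedSectionVars false

/-! Transfer of the dichotomy along quotient interpretations with a countable invariant. -/

namespace Pool.Agent.H4.VG

open FirstOrder FirstOrder.Language
open Pool.Agent.W889.FO
open Pool.Agent.TH686.FO
open Pool.Agent.W889.VC (BP cont_of_meas)
open Pool.Agent.W889.SD (Nth nth_equiv bp_nth)

variable {L L' : FirstOrder.Language.{0, 0}}

/-- an invariant with countably many values that, with the interpreted structure, determines the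
structure up to isomorphism -/
structure CntQ (I : Itq L L') [L.IsRelational] (J : Type) (j : L'.Structure ℕ → J) : Prop where
  up : ∀ S S', I.W S → I.W S' → SIso (I.D S) (I.D S') → j S = j S' → SIso S S'
  bp : ∀ (f : (ℕ → Bool) → L'.Structure ℕ), (∀ (n : ℕ) (R : L'.Relations n) (a : Fin n → ℕ),
    BP (fun y => @Structure.RelMap L' ℕ (f y) n R a)) → (∀ y, I.W (f y)) →
      ∀ c, BP (fun y => j (f y) = c)

/-- Transfer of the dichotomy. -/
theorem transferQ (I : Itq L L') [L.IsRelational] [L'.IsRelational]
    [Countable (Σ n, L.Relations n)] {J : Type} [Countable J] {j : L'.Structure ℕ → J}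
    (hj : CntQ I J j) (T : L.Theory)
    (hex : ∀ M : L.Structure ℕ, @Theory.Model L ℕ M T → ∃ S, I.W S ∧ SIso (I.D S) M)
    (hV : ∀ T' : L'.Theory, (∀ S : L'.Structure ℕ, @Theory.Model L' ℕ S T' →
      I.W S ∧ @Theory.Model L ℕ (I.D S) T) → Vaught L' T') : Vaught L T := by
  classical
  obtain ⟨T', hT'⟩ := I.ax_theory T
  rcases hV T' (fun S hS => (hT' S).1 hS) with ⟨g, hg⟩ | ⟨f, hf1, hf2, hf3⟩
  · left
    refine ⟨fun n => I.D (g n), fun M hM => ?_⟩
    obtain ⟨S, hS, hi⟩ := hex M hM
    obtain ⟨n, hn⟩ := hg S ((hT' S).2 ⟨hS, hi.symm.model hM⟩)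
    exact ⟨n, hi.symm.trans (I.iso_down hS hn)⟩
  · right
    have hb : ∀ (n : ℕ) (R : L'.Relations n) (a : Fin n → ℕ),
        BP (fun y => @Structure.RelMap L' ℕ (f y) n R a) := fun n R a =>
      (hf3 n R a).isOpen.measurableSet
    have hW : ∀ y, I.W (f y) := fun y => ((hT' _).1 (hf1 y)).1
    have hdom : ∀ u, BP (fun y => I.dom (f y) u) := fun u => I.fdom.bp hb hW (fun _ => u)
    have heqv : ∀ u v, BP (fun y => I.eqv (f y) u v) := fun u v => I.feqv.bp hb hW ![u, v]
    have hrp : ∀ u, BP (fun y => I.rp (f y) u) := fun u =>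
      (hdom u).and (BP.all fun u' => (BP.const (u' < u)).imp ((hdom u').imp (heqv u' u).not))
    have hD : ∀ {n : ℕ} (R : L.Relations n) (v : Fin n → ℕ),
        BP (fun y => @Structure.RelMap L ℕ (I.D (f y)) n R v) := fun {n} R v =>
      BP.ex fun u : Fin n → ℕ => (BP.all fun i => bp_nth hrp (v i) (u i)).and
        ((I.frel R).bp hb hW u)
    have : Countable (Σ n, L.Relations n × (Fin n → ℕ)) := by
      have : ∀ n, Countable (L.Relations n) := fun n =>
        (sigma_mk_injective (β := L.Relations) (i := n)).countable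
      infer_instance
    obtain ⟨κ, hκ⟩ := Countable.exists_injective_nat J
    let F : (ℕ → Bool) → ((Σ n, L.Relations n × (Fin n → ℕ)) → Bool) × ℕ := fun x =>
      (fun p => decide (@Structure.RelMap L ℕ (I.D (f x)) p.1 p.2.1 p.2.2), κ (j (f x)))
    have hF : Measurable F := by
      refine Measurable.prodMk ?_ ?_
      · refine measurable_pi_iff.2 fun p => measurable_to_bool ?_
        refine (congrArg MeasurableSet (Set.ext fun x => ?_)).mp (hD p.2.1 p.2.2)
        simp
      · refine measurable_to_countable' fun m => ?_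
        have h1 : BP (fun x => ∃ c, κ c = m ∧ j (f x) = c) :=
          BP.ex fun c => (BP.const _).and (hj.bp f hb hW c)
        refine (congrArg MeasurableSet (Set.ext fun x => ?_)).mp h1
        constructor
        · rintro ⟨c, h1, h2⟩
          show κ (j (f x)) = m
          rw [h2, h1]
        · intro h1
          exact ⟨_, h1, rfl⟩
    obtain ⟨h, h1, h2⟩ := cont_of_meas hF
    have h3 : Continuous fun x => (F (h x)).2 := continuous_snd.comp h2
    let x0 : ℕ → Bool := fun _ => false
    obtain ⟨e, he1, he2, he3⟩ := Itp.cylinder (U := {x | (F (h x)).2 = (F (h x0)).2})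
      ((isOpen_discrete {(F (h x0)).2}).preimage h3) (x0 := x0) rfl
    refine ⟨fun x => I.D (f (h (e x))), fun x => ((hT' _).1 (hf1 _)).2, fun x y hxy => ?_,
      fun n R a => ?_⟩
    · have h4 : j (f (h (e x))) = j (f (h (e y))) :=
        hκ ((he3 x).trans (he3 y).symm)
      exact he1 (h1 (hf2 _ _ (hj.up _ _ (hW _) (hW _) hxy h4)))
    · have hc : Continuous fun x => (F (h (e x))).1 ⟨n, R, a⟩ :=
        (continuous_apply (⟨n, R, a⟩ : Σ n, L.Relations n × (Fin n → ℕ))).comp
          (continuous_fst.comp (h2.comp he2))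
      have hcl : IsClopen ((fun x => (F (h (e x))).1 ⟨n, R, a⟩) ⁻¹' {true}) :=
        (isClopen_discrete {true}).preimage hc
      convert hcl using 1
      ext x
      simp [F]

end Pool.Agent.H4.VG
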