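import Pool.Agent.H4.VG.Fo
import Pool.Agent.H4.VG.Trq

set_option autoImplicit false
set_option linter.unusedSectionVars false
set_option linter.unusedVariables false

/-! The interpretation of graphs in groups. -/

namespace Pool.Agent.H4.VG

open FirstOrder FirstOrder.Language
open Pool.Agent.W889.FO
open Pool.Agent.TH686.FO
open Pool.Agent.W889.VC (BP)
open Pool.Agent.W889.SD (Nth)
open Pool.Agent.W889.FO.StE (LG gd siso_gd fd_gd)
open Pool.Agent.W889.FO.StA (FD.all1 FD.ex1)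

theorem FA.exg {α : Type} {μ : α → α → α} (h : FA μ) : ∃ g : Group α, @mu α g = μ :=
  ⟨h.group, rfl⟩

section cg

variable {α : Type} {μ : α → α → α}

theorem FA.refl (h : FA μ) (u : α) : Cg μ u u := h.sq u

theorem FA.symm (h : FA μ) {u v : α} (h1 : Cg μ u v) : Cg μ v u := by
  obtain ⟨g, rfl⟩ := h.exg
  have := h.e2
  rw [cg_iff] at h1 ⊢
  exact h1.symm

theorem FA.trans (h : FA μ) {u v w : α} (h1 : Cg μ u v) (h2 : Cg μ v w) : Cg μ u w := by
  obtain ⟨g, rfl⟩ := h.exg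
  have := h.e2
  rw [cg_iff] at h1 h2 ⊢
  exact h1.trans h2

theorem FA.cong (h : FA μ) {u v u' v' : α} (h1 : Cg μ u u') (h2 : Cg μ v v')
    (h3 : ∃ e, Ed μ u v e) : ∃ e, Ed μ u' v' e := by
  obtain ⟨g, rfl⟩ := h.exg
  have := h.e2
  obtain ⟨e, he⟩ := h3
  refine ⟨e, ?_⟩
  rw [cg_iff] at h1 h2
  rw [ed_iff] at he ⊢
  rw [← h1, ← h2]
  exact he

end cg

theorem FA.infr {μ : ℕ → ℕ → ℕ} (h : FA μ) (N : ℕ) :
    ∃ u, N ≤ u ∧ Vx μ u ∧ ∀ u', u' < u → Vx μ u' → ¬ Cg μ u' u := by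
  classical
  by_contra hcon
  push Not at hcon
  have hrep : ∀ x, Vx μ x → ∃ u, u < N ∧ Vx μ u ∧ Cg μ u x := by
    intro x hx
    have hex : ∃ u, Vx μ u ∧ Cg μ u x := ⟨x, hx, h.refl x⟩
    obtain ⟨h1, h2⟩ := Nat.find_spec hex
    refine ⟨Nat.find hex, ?_, h1, h2⟩
    by_contra hlt
    obtain ⟨u', h3, h4, h5⟩ := hcon (Nat.find hex) (not_lt.1 hlt) h1
    exact Nat.find_min hex h3 ⟨h4, h.trans h5 h2⟩
  obtain ⟨w, h1, h2⟩ := h.inf (N + 1)
  choose u hu1 hu2 hu3 using fun i => hrep (w i) (h1 i)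
  have h5 : Function.Injective fun i => (⟨u i, hu1 i⟩ : Fin N) := by
    intro i i' hii
    have h6 : u i = u i' := congrArg Fin.val hii
    by_contra hne
    refine h2 i i' hne (h.trans (h.symm (hu3 i)) ?_)
    rw [h6]
    exact hu3 i'
  have := Fintype.card_le_of_injective _ h5
  simp at this

/-- the interpretation -/
noncomputable def gI : Itq LG LR where
  W := WG
  axW := ax_WG
  dom := fun S u => Vx (ml S) u
  eqv := fun S u v => Cg (ml S) u v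
  rel := fun {n} Q => match n, Q with
    | _, FirstOrder.Language.graphRel.adj => fun S v => ∃ e, Ed (ml S) (v 0) (v 1) e
  fdom := (fd_vx (FT.var _)).mono fun S h => h.1
  feqv := (fd_cg (FT.var _) (FT.var _)).mono fun S h => h.1
  frel := fun {n} Q => match n, Q with
    | _, FirstOrder.Language.graphRel.adj =>
      (FD.ex1 (P := fun S v e => Ed (ml S) (v 0) (v 1) e)
        (fd_ed (FT.var _) (FT.var _) (FT.var _))).mono fun S h => h.1
  refl := fun S h u _ => h.2.refl u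
  symm := fun S h u v _ _ => h.2.symm
  trans := fun S h u v w _ _ _ => h.2.trans
  cong := fun S h {n} Q => match n, Q with
    | _, FirstOrder.Language.graphRel.adj => fun u v _ _ hq hr => h.2.cong (hq 0) (hq 1) hr
  inf := fun S h N => h.2.infr N

/-- the vertices of the interpreted graph -/
theorem label {S : LR.Structure ℕ} (h : WG S) (g : Group ℕ) (hg : @mu ℕ g = ml S)
    (h2 : @E2 ℕ g) : ∃ κ : ℕ ≃ {v : @Wd ℕ g // @VV ℕ g h2 v},
      ∀ a b, gd (gI.D S) a b ↔ @Adj ℕ g h2 (κ a).1 (κ b).1 := by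
  have hv : ∀ u, Vx (ml S) u ↔ @VV ℕ g h2 (@cl ℕ g u) := by
    intro u
    rw [← hg]
    exact @vx_iff ℕ g h2 u
  have hc : ∀ u v, Cg (ml S) u v ↔ @cl ℕ g u = @cl ℕ g v := by
    intro u v
    rw [← hg]
    exact @cg_iff ℕ g h2 u v
  have he : ∀ u v e, Ed (ml S) u v e ↔ @IsE ℕ g h2 (@cl ℕ g u) (@cl ℕ g v) (@cl ℕ g e) := by
    intro u v e
    rw [← hg]
    exact @ed_iff ℕ g h2 u v e
  have hs := @cl_surj ℕ g h2
  obtain ⟨κ, hκ⟩ := equiv_of_rel (fun (n : ℕ) (v : {v : @Wd ℕ g // @VV ℕ g h2 v}) =>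
      ∃ u, gI.lab S n u ∧ @cl ℕ g u = v.1)
    (fun n => by
      obtain ⟨u, hu⟩ := Itq.lab_surj (I := gI) h n
      exact ⟨⟨@cl ℕ g u, (hv u).1 hu.1⟩, u, hu, rfl⟩)
    (fun v => by
      obtain ⟨u, hu⟩ := hs v.1
      have h3 : Vx (ml S) u := (hv u).2 (by rw [hu]; exact v.2)
      obtain ⟨n, hn⟩ := Itq.ex_lab (I := gI) h h3
      exact ⟨n, u, hn, hu⟩)
    (by
      rintro n v v' ⟨u, h3, h4⟩ ⟨u', h5, h6⟩
      apply Subtype.ext
      rw [← h4, ← h6]
      exact (hc _ _).1 ((Itq.lab_eq (I := gI) h h3 h5).2 rfl))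
    (by
      rintro n n' v ⟨u, h3, h4⟩ ⟨u', h5, h6⟩
      exact (Itq.lab_eq (I := gI) h h3 h5).1 ((hc _ _).2 (h4.trans h6.symm)))
  refine ⟨κ, fun a b => ?_⟩
  obtain ⟨u, h3, h4⟩ := hκ a
  obtain ⟨v, h5, h6⟩ := hκ b
  have h7 := Itq.rel_iff (I := gI) h FirstOrder.Language.graphRel.adj (u := ![u, v])
    (v := ![a, b]) (fun i => by
      refine Fin.cases ?_ (fun j => ?_) i
      · exact h3
      · refine Fin.cases ?_ (fun k => k.elim0) j
        exact h5)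
  refine Iff.trans h7 ?_
  show (∃ e, Ed (ml S) u v e) ↔ ∃ e, @IsE ℕ g h2 (κ a).1 (κ b).1 e
  rw [← h4, ← h6]
  constructor
  · rintro ⟨e, h8⟩
    exact ⟨_, (he _ _ _).1 h8⟩
  · rintro ⟨e, h8⟩
    obtain ⟨e, rfl⟩ := hs e
    exact ⟨e, (he _ _ _).2 h8⟩

/-- isomorphic multiplications -/
theorem siso_ml {S S' : LR.Structure ℕ} (h : St0.W S) (h' : St0.W S') (σ : Equiv.Perm ℕ)
    (hσ : ∀ a b, σ (ml S a b) = ml S' (σ a) (σ b)) : SIso S S' := by
  refine St0.iso_up h h' ⟨@FirstOrder.Language.Equiv.mk LM ℕ ℕ (St0.D S) (St0.D S') σ ?_ ?_⟩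
  · intro n F v
    cases F with
    | mul =>
      have e1 : v = ![v 0, v 1] := by
        funext m
        fin_cases m <;> rfl
      have e2 : (⇑σ ∘ v) = ![σ (v 0), σ (v 1)] := by
        funext m
        fin_cases m <;> rfl
      show σ (@Structure.funMap LM ℕ (St0.D S) 2 MF.mul v) =
        @Structure.funMap LM ℕ (St0.D S') 2 MF.mul (⇑σ ∘ v)
      rw [e2]
      conv_lhs => rw [e1]
      exact hσ (v 0) (v 1)
  · intro n R v
    exact R.elim

/-- the invariant -/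
noncomputable def jj (S : LR.Structure ℕ) : Option ℕ × Option ℕ := (fl (D1 (ml S)), fl (D2 (ml S)))

theorem up {S S' : LR.Structure ℕ} (h : WG S) (h' : WG S') (hi : SIso (gI.D S) (gI.D S'))
    (hj : jj S = jj S') : SIso S S' := by
  obtain ⟨g, hg⟩ := h.2.exg
  obtain ⟨g', hg'⟩ := h'.2.exg
  have f1 : FA (@mu ℕ g) := by rw [hg]; exact h.2
  have f2 : FA (@mu ℕ g') := by rw [hg']; exact h'.2
  have h2 : @E2 ℕ g := @FA.e2 ℕ g f1
  have h2' : @E2 ℕ g' := @FA.e2 ℕ g' f2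
  obtain ⟨κ, hκ⟩ := label h g hg h2
  obtain ⟨κ', hκ'⟩ := label h' g' hg' h2'
  obtain ⟨e⟩ := hi
  let τ : Equiv.Perm ℕ := @FirstOrder.Language.Equiv.toEquiv LG ℕ ℕ (gI.D S) (gI.D S') e
  have hτ : ∀ u v, gd (gI.D S') (τ u) (τ v) ↔ gd (gI.D S) u v := by
    intro u v
    have h1 := iso_rel e FirstOrder.Language.graphRel.adj ![u, v]
    refine Iff.trans ?_ h1
    unfold gd
    have e2 : ![τ u, τ v] = fun i => τ ((![u, v] : Fin 2 → ℕ) i) := by
      funext m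
      fin_cases m <;> rfl
    rw [e2]
    exact Iff.rfl
  have k1 : fl (D1 (@mu ℕ g)) = fl (D1 (@mu ℕ g')) := by
    rw [hg, hg']
    exact congrArg Prod.fst hj
  have k2 : fl (D2 (@mu ℕ g)) = fl (D2 (@mu ℕ g')) := by
    rw [hg, hg']
    exact congrArg Prod.snd hj
  obtain ⟨⟨σ, hσ⟩⟩ := @class_iso ℕ ℕ _ _ g g' h2 h2' f1 f2 ((κ.symm.trans τ).trans κ')
    (fun v w => by
      obtain ⟨a, rfl⟩ := κ.surjective v
      obtain ⟨b, rfl⟩ := κ.surjective w
      rw [← hκ, ← hτ, hκ']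
      simp) k1 k2
  refine siso_ml h.1 h'.1 σ fun a b => ?_
  rw [← hg, ← hg']
  exact hσ a b

end Pool.Agent.H4.VG
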