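import Mathlib

set_option autoImplicit false

/-! Lifting an isomorphism of the central quotients and of the centres to the groups. -/

namespace Pool.Agent.H4.VG

open Subgroup

/-- the squares are central and the centre has exponent two -/
class E2 (G : Type) [Group G] : Prop where
  sq : ∀ g : G, g * g ∈ center G
  ex : ∀ z : G, z ∈ center G → z * z = 1

variable {G G' : Type} [Group G] [Group G']

theorem comm_of {G : Type} [Group G] [E2 G] (g h : G) : g * h * g⁻¹ * h⁻¹ ∈ center G := by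
  have h1 : (g * h) * (g * h) ∈ center G := E2.sq _
  have h2 : g * g ∈ center G := E2.sq _
  have h3 : h * h ∈ center G := E2.sq _
  have e : g * h * g⁻¹ * h⁻¹ = ((g * h) * (g * h)) * (h * h)⁻¹ * (g * g)⁻¹ := by
    have h4 : ∀ x, x * (g * g) = (g * g) * x := fun x => (mem_center_iff.1 h2 x)
    have h5 : ∀ x, x * (h * h) = (h * h) * x := fun x => (mem_center_iff.1 h3 x)
    have e1 : (g * h) * (g * h) = (g * h * g⁻¹ * h⁻¹) * (g * g) * (h * h) := by
      have : (g * h * g⁻¹ * h⁻¹) * (g * g) * (h * h) = (g * h * g⁻¹) * (h⁻¹ * (g * g)) * (h * h) := by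
        group
      rw [this, h4]
      group
    rw [e1]
    have := h4 (h * h)
    group
  rw [e]
  exact mul_mem (mul_mem h1 (inv_mem h3)) (inv_mem h2)

/-- The lifting. -/
theorem lift_iso [E2 G] [E2 G'] (φ : G ⧸ center G ≃* G' ⧸ center G')
    (ψ : center G ≃* center G')
    (h : ∀ (g : G) (g' : G'), φ (g : G ⧸ center G) = (g' : G' ⧸ center G') →
      ((ψ ⟨g * g, E2.sq g⟩ : center G') : G') = g' * g') :
    Nonempty (G ≃* G') := by
  classical
  -- the fibre product
  let P : Subgroup (G × G') :=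
    { carrier := {p | φ (p.1 : G ⧸ center G) = (p.2 : G' ⧸ center G')}
      mul_mem' := by
        rintro a b ha hb
        simp only [Set.mem_ofPred_eq] at *
        rw [Prod.fst_mul, Prod.snd_mul, QuotientGroup.mk_mul, QuotientGroup.mk_mul, map_mul,
          ha, hb]
      one_mem' := by simp
      inv_mem' := by
        rintro a ha
        simp only [Set.mem_ofPred_eq] at *
        rw [Prod.fst_inv, Prod.snd_inv, QuotientGroup.mk_inv, QuotientGroup.mk_inv, map_inv, ha] }
  let K : Subgroup (G × G') :=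
    { carrier := {p | ∃ hp : p.1 ∈ center G, ((ψ ⟨p.1, hp⟩ : center G') : G') = p.2}
      mul_mem' := by
        rintro a b ⟨ha, ha'⟩ ⟨hb, hb'⟩
        refine ⟨mul_mem ha hb, ?_⟩
        have : (⟨(a * b).1, mul_mem ha hb⟩ : center G) = ⟨a.1, ha⟩ * ⟨b.1, hb⟩ := rfl
        rw [this, map_mul, Subgroup.coe_mul, ha', hb']
        rfl
      one_mem' := by
        refine ⟨one_mem _, ?_⟩
        have : (⟨(1 : G × G').1, one_mem _⟩ : center G) = 1 := rfl
        rw [this, map_one]
        rfl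
      inv_mem' := by
        rintro a ⟨ha, ha'⟩
        refine ⟨inv_mem ha, ?_⟩
        have : (⟨(a⁻¹).1, inv_mem ha⟩ : center G) = (⟨a.1, ha⟩ : center G)⁻¹ := rfl
        rw [this, map_inv, Subgroup.coe_inv, ha']
        rfl }
  have hKc : ∀ p ∈ K, ∀ x : G × G', p * x = x * p := by
    rintro p ⟨hp, hp'⟩ x
    refine Prod.ext ?_ ?_
    · exact (mem_center_iff.1 hp x.1).symm
    · have : p.2 ∈ center G' := by rw [← hp']; exact (ψ _).2
      exact (mem_center_iff.1 this x.2).symm
  have hKP : K ≤ P := by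
    rintro p ⟨hp, hp'⟩
    show φ (p.1 : G ⧸ center G) = (p.2 : G' ⧸ center G')
    have h1 : (p.1 : G ⧸ center G) = 1 := (QuotientGroup.eq_one_iff _).2 hp
    have h2 : (p.2 : G' ⧸ center G') = 1 := (QuotientGroup.eq_one_iff _).2 (by
      rw [← hp']; exact (ψ _).2)
    rw [h1, h2, map_one]
  have hsq : ∀ p ∈ P, p * p ∈ K := fun p hp => ⟨E2.sq _, h p.1 p.2 hp⟩
  have hcom : ∀ p ∈ P, ∀ r ∈ P, p * r * p⁻¹ * r⁻¹ ∈ K := by
    intro p hp r hr
    have h1 := hsq _ (mul_mem hp hr)
    have h2 := hsq _ hp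
    have h3 := hsq _ hr
    have e : p * r * p⁻¹ * r⁻¹ = ((p * r) * (p * r)) * (r * r)⁻¹ * (p * p)⁻¹ := by
      have h4 : ∀ x, (p * p) * x = x * (p * p) := hKc _ h2
      have e1 : (p * r) * (p * r) = (p * r * p⁻¹ * r⁻¹) * (p * p) * (r * r) := by
        have : (p * r * p⁻¹ * r⁻¹) * (p * p) * (r * r) =
            (p * r * p⁻¹) * (r⁻¹ * (p * p)) * (r * r) := by group
        rw [this, ← h4]
        group
      rw [e1]
      group
    rw [e]
    exact mul_mem (mul_mem h1 (inv_mem h3)) (inv_mem h2)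
  -- a maximal partial graph
  let Good : Set (Subgroup (G × G')) :=
    {C | K ≤ C ∧ C ≤ P ∧ ∀ p ∈ C, p.1 ∈ center G → p ∈ K}
  have hKG : K ∈ Good := ⟨le_rfl, hKP, fun p hp _ => hp⟩
  obtain ⟨C, -, hC⟩ : ∃ C, K ≤ C ∧ Maximal (· ∈ Good) C := by
    refine zorn_le_nonempty₀ Good ?_ K hKG
    intro c hc hch y hy
    refine ⟨sSup c, ⟨(hc hy).1.trans (le_sSup hy), sSup_le fun D hD => (hc hD).2.1, ?_⟩,
      fun D hD => le_sSup hD⟩
    intro p hp hp1
    rw [Subgroup.mem_sSup_of_directedOn ⟨y, hy⟩ hch.directedOn] at hp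
    obtain ⟨D, hD, hpD⟩ := hp
    exact (hc hD).2.2 p hpD hp1
  obtain ⟨⟨hC1, hC2, hC3⟩, hmax⟩ := hC
  have htot : ∀ g : G, ∃ g' : G', (g, g') ∈ C := by
    by_contra hcon
    push Not at hcon
    obtain ⟨g0, hg0⟩ := hcon
    obtain ⟨g0', hg0'⟩ : ∃ g' : G', φ (g0 : G ⧸ center G) = (g' : G' ⧸ center G') := by
      obtain ⟨g', hg'⟩ := QuotientGroup.mk_surjective (φ (g0 : G ⧸ center G))
      exact ⟨g', hg'.symm⟩
    set t : G × G' := (g0, g0') with ht
    have htP : t ∈ P := hg0'
    have htt : t * t ∈ C := hC1 (hsq t htP)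
    have hconj : ∀ c ∈ C, t⁻¹ * c * t ∈ C := by
      intro c hc
      have h1 : t⁻¹ * c * t⁻¹⁻¹ * c⁻¹ ∈ C := hC1 (hcom _ (inv_mem htP) _ (hC2 hc))
      have h2 := mul_mem h1 hc
      simpa [mul_assoc] using h2
    let D : Subgroup (G × G') :=
      { carrier := {p | p ∈ C ∨ p * t ∈ C}
        mul_mem' := by
          rintro a b (ha | ha) (hb | hb)
          · exact Or.inl (mul_mem ha hb)
          · right
            rw [mul_assoc]
            exact mul_mem ha hb
          · right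
            have := mul_mem ha (hconj b hb)
            have e : a * b * t = a * t * (t⁻¹ * b * t) := by group
            rw [e]
            exact this
          · left
            have h1 := mul_mem (mul_mem ha (hconj _ hb)) (inv_mem (mul_mem htt htt))
            have h2 := mul_mem ha (mul_mem (hconj _ hb) (inv_mem htt))
            have e : a * b = a * t * ((t⁻¹ * (b * t) * t) * (t * t)⁻¹) := by group
            rw [e]
            exact h2
        one_mem' := Or.inl (one_mem _)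
        inv_mem' := by
          rintro a (ha | ha)
          · exact Or.inl (inv_mem ha)
          · right
            have h1 := mul_mem htt (hconj _ (inv_mem ha))
            have e : a⁻¹ * t = (t * t) * (t⁻¹ * (a * t)⁻¹ * t) := by group
            rw [e]
            exact h1 }
    have hCD : C ≤ D := fun p hp => Or.inl hp
    have hDG : D ∈ Good := by
      refine ⟨hC1.trans hCD, ?_, ?_⟩
      · rintro p (hp | hp)
        · exact hC2 hp
        · have := mul_mem (hC2 hp) (inv_mem htP)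
          simpa using this
      · rintro p (hp | hp) hp1
        · exact hC3 p hp hp1
        · exfalso
          have hk : (p.1, ((ψ ⟨p.1, hp1⟩ : center G') : G')) ∈ C := hC1 ⟨hp1, rfl⟩
          have h2 := mul_mem (inv_mem hk) hp
          have e : (p.1, ((ψ ⟨p.1, hp1⟩ : center G') : G'))⁻¹ * (p * t) =
              (g0, ((ψ ⟨p.1, hp1⟩ : center G') : G')⁻¹ * (p.2 * g0')) := by
            refine Prod.ext ?_ rfl
            show (p.1)⁻¹ * (p.1 * g0) = g0
            group
          rw [e] at h2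
          exact hg0 _ h2
    have hDC : D ≤ C := hmax hDG hCD
    have : t⁻¹ ∈ C := hDC (Or.inr (by simp))
    have h3 : t ∈ C := by simpa using inv_mem this
    exact hg0 g0' h3
  have huniq : ∀ (g : G) (a b : G'), (g, a) ∈ C → (g, b) ∈ C → a = b := by
    intro g a b ha hb
    have h1 : (g, a)⁻¹ * (g, b) ∈ C := mul_mem (inv_mem ha) hb
    have e : (g, a)⁻¹ * (g, b) = (1, a⁻¹ * b) := by
      refine Prod.ext ?_ rfl
      show g⁻¹ * g = 1
      group
    rw [e] at h1
    obtain ⟨h2, h3⟩ := hC3 _ h1 (one_mem _)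
    have e2 : (⟨1, h2⟩ : center G) = 1 := rfl
    change ((ψ (⟨1, h2⟩ : center G) : center G') : G') = a⁻¹ * b at h3
    rw [e2, map_one] at h3
    have h4 : a⁻¹ * b = 1 := h3.symm
    exact (inv_mul_eq_one.1 h4)
  have hcz : ∀ (g : G) (a a' : G'), (g, a) ∈ C → φ (g : G ⧸ center G) = (a' : G' ⧸ center G') →
      ∃ z ∈ center G, (g * z, a') ∈ C := by
    intro g a a' ha ha'
    have h1 : (a : G' ⧸ center G') = (a' : G' ⧸ center G') := (hC2 ha : φ _ = _).symm.trans ha'
    have h2 : a⁻¹ * a' ∈ center G' := QuotientGroup.eq.1 h1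
    let z := ψ.symm ⟨a⁻¹ * a', h2⟩
    have h3 : ((z : G), a⁻¹ * a') ∈ C := hC1 ⟨z.2, by
      show ((ψ z : center G') : G') = _
      rw [MulEquiv.apply_symm_apply]⟩
    refine ⟨z, z.2, ?_⟩
    have h4 := mul_mem ha h3
    have e : (g, a) * ((z : G), a⁻¹ * a') = (g * z, a') := by
      refine Prod.ext rfl ?_
      show a * (a⁻¹ * a') = a'
      group
    rw [e] at h4
    exact h4
  have hsurj : ∀ g' : G', ∃ g : G, (g, g') ∈ C := by
    intro g'
    obtain ⟨g, hg⟩ := QuotientGroup.mk_surjective (φ.symm (g' : G' ⧸ center G'))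
    have hg2 : φ (g : G ⧸ center G) = (g' : G' ⧸ center G') := by
      have : φ (g : G ⧸ center G) = φ (φ.symm (g' : G' ⧸ center G')) := by
        rw [← hg]
      rw [this, MulEquiv.apply_symm_apply]
    obtain ⟨a, ha⟩ := htot g
    obtain ⟨z, -, hz⟩ := hcz g a g' ha hg2
    exact ⟨_, hz⟩
  have huniq' : ∀ (g k : G) (a : G'), (g, a) ∈ C → (k, a) ∈ C → g = k := by
    intro g k a hg hk
    have h1 : (g, a)⁻¹ * (k, a) ∈ C := mul_mem (inv_mem hg) hk
    have e : (g, a)⁻¹ * (k, a) = (g⁻¹ * k, 1) := by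
      refine Prod.ext rfl ?_
      show a⁻¹ * a = 1
      group
    rw [e] at h1
    have h2 : φ ((g⁻¹ * k : G) : G ⧸ center G) = ((1 : G') : G' ⧸ center G') := hC2 h1
    have h3 : ((g⁻¹ * k : G) : G ⧸ center G) = 1 := by
      rw [QuotientGroup.mk_one] at h2
      exact (map_eq_one_iff φ φ.injective).1 h2
    have h4 : g⁻¹ * k ∈ center G := (QuotientGroup.eq_one_iff _).1 h3
    obtain ⟨h5, h6⟩ := hC3 _ h1 h4
    change ((ψ ⟨g⁻¹ * k, h5⟩ : center G') : G') = 1 at h6
    have h7 : ψ ⟨g⁻¹ * k, h5⟩ = 1 := Subtype.ext h6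
    have h8 : (⟨g⁻¹ * k, h5⟩ : center G) = 1 := (map_eq_one_iff ψ ψ.injective).1 h7
    have h9 : g⁻¹ * k = 1 := congrArg Subtype.val h8
    exact inv_mul_eq_one.1 h9
  obtain ⟨e, -⟩ := Subgroup.exists_mulEquiv_eq_graph (G := C)
    ⟨fun p r hpr => by
      have h1 : (p.1).1 = (r.1).1 := hpr
      refine Subtype.ext (Prod.ext h1 ?_)
      refine huniq (p.1).1 _ _ p.2 ?_
      rw [h1]
      exact r.2, fun g => by
      obtain ⟨g', hg'⟩ := htot g
      exact ⟨⟨_, hg'⟩, rfl⟩⟩
    ⟨fun p r hpr => by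
      have h1 : (p.1).2 = (r.1).2 := hpr
      refine Subtype.ext (Prod.ext ?_ h1)
      refine huniq' _ _ (p.1).2 p.2 ?_
      rw [h1]
      exact r.2, fun g' => by
      obtain ⟨g, hg⟩ := hsurj g'
      exact ⟨⟨_, hg⟩, rfl⟩⟩
  exact ⟨e⟩

end Pool.Agent.H4.VG
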