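import Pool.Agent.H4.VG.Cls2

set_option autoImplicit false
set_option linter.unusedSectionVars false

/-! The group of a graph. -/

namespace Pool.Agent.H4.VG

open Subgroup

variable {V : Type} (Γ : SimpleGraph V)

/-- the basis -/
abbrev BS : Type := V ⊕ Γ.edgeSet

/-- the first space -/
abbrev WW : Type := BS Γ →₀ ZMod 2

/-- the second space -/
abbrev ZZ : Type := (BS Γ × BS Γ) →₀ ZMod 2

/-- the two orientations of an edge -/
noncomputable def orient (e : Sym2 V) : ZZ Γ :=
  Sym2.lift ⟨fun v w => Finsupp.single (Sum.inl v, Sum.inl w) 1 +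
    Finsupp.single (Sum.inl w, Sum.inl v) 1, fun v w => add_comm _ _⟩ e

theorem orient_mk (v w : V) : orient Γ s(v, w) =
    Finsupp.single (Sum.inl v, Sum.inl w) 1 + Finsupp.single (Sum.inl w, Sum.inl v) 1 := rfl

/-- the square of a basis element -/
noncomputable def sqb : BS Γ → ZZ Γ
  | Sum.inl _ => 0
  | Sum.inr e => orient Γ e

open Classical in
/-- the products of the basis elements -/
noncomputable def dd (b b' : BS Γ) : ZZ Γ := if b = b' then sqb Γ b else Finsupp.single (b, b') 1

/-- the cocycle -/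
noncomputable def cc : WW Γ →ₗ[ZMod 2] WW Γ →ₗ[ZMod 2] ZZ Γ :=
  Finsupp.linearCombination (ZMod 2) fun b => Finsupp.linearCombination (ZMod 2) (dd Γ b)

theorem cc_single (b b' : BS Γ) :
    cc Γ (Finsupp.single b 1) (Finsupp.single b' 1) = dd Γ b b' := by
  simp [cc]

/-- the tensor product -/
noncomputable def tn : WW Γ →ₗ[ZMod 2] WW Γ →ₗ[ZMod 2] ZZ Γ :=
  Finsupp.linearCombination (ZMod 2) fun b =>
    Finsupp.linearCombination (ZMod 2) fun b' => Finsupp.single (b, b') 1

theorem tn_single (b b' : BS Γ) :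
    tn Γ (Finsupp.single b 1) (Finsupp.single b' 1) = Finsupp.single (b, b') 1 := by
  simp [tn]

theorem two_z (z : ZZ Γ) : z + z = 0 := by
  ext p
  rw [Finsupp.add_apply]
  exact CharTwo.add_self_eq_zero _

theorem two_w (z : WW Γ) : z + z = 0 := by
  ext p
  rw [Finsupp.add_apply]
  exact CharTwo.add_self_eq_zero _

theorem bil_ext {M : Type} [AddCommGroup M] [Module (ZMod 2) M]
    {f g : WW Γ →ₗ[ZMod 2] WW Γ →ₗ[ZMod 2] M}
    (h : ∀ b b', f (Finsupp.single b 1) (Finsupp.single b' 1) =
      g (Finsupp.single b 1) (Finsupp.single b' 1)) : f = g := by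
  refine LinearMap.ext_basis Finsupp.basisSingleOne Finsupp.basisSingleOne fun b b' => ?_
  simpa using h b b'

/-- the commutator form is the alternating tensor -/
theorem cc_comm (x y : WW Γ) : cc Γ x y + cc Γ y x = tn Γ x y + tn Γ y x := by
  classical
  have h : cc Γ + (cc Γ).flip = tn Γ + (tn Γ).flip := by
    refine bil_ext Γ fun b b' => ?_
    simp only [LinearMap.add_apply, LinearMap.flip_apply]
    rw [cc_single, cc_single, tn_single, tn_single]
    by_cases hb : b = b'
    · subst hb
      rw [two_z, two_z]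
    · simp [dd, hb, Ne.symm hb]
  exact LinearMap.congr_fun (LinearMap.congr_fun h x) y

theorem tn_apply (x y : WW Γ) (s t : BS Γ) : tn Γ x y (s, t) = x s * y t := by
  have h : (tn Γ).compr₂ (Finsupp.lapply (s, t)) =
      (LinearMap.mul (ZMod 2) (ZMod 2)).compl₁₂ (Finsupp.lapply s) (Finsupp.lapply t) := by
    classical
    refine bil_ext Γ fun b b' => ?_
    simp only [LinearMap.compr₂_apply, LinearMap.compl₁₂_apply, Finsupp.lapply_apply,
      LinearMap.mul_apply', tn_single]
    simp only [Finsupp.single_apply, Prod.mk.injEq]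
    by_cases h1 : b = s <;> by_cases h2 : b' = t <;> simp [h1, h2]
  exact LinearMap.congr_fun (LinearMap.congr_fun h x) y

/-- the coefficients which do not belong to edges of the graph -/
theorem cc_apply (x y : WW Γ) (s t : BS Γ) (hst : s ≠ t)
    (h0 : ∀ v w, ¬ (s = Sum.inl v ∧ t = Sum.inl w ∧ Γ.Adj v w)) :
    cc Γ x y (s, t) = x s * y t := by
  have h : (cc Γ).compr₂ (Finsupp.lapply (s, t)) =
      (LinearMap.mul (ZMod 2) (ZMod 2)).compl₁₂ (Finsupp.lapply s) (Finsupp.lapply t) := by
    classical
    refine bil_ext Γ fun b b' => ?_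
    simp only [LinearMap.compr₂_apply, LinearMap.compl₁₂_apply, Finsupp.lapply_apply,
      LinearMap.mul_apply', cc_single]
    by_cases hb : b = b'
    · subst hb
      have h1 : (Finsupp.single b (1 : ZMod 2)) s * (Finsupp.single b (1 : ZMod 2)) t = 0 := by
        simp only [Finsupp.single_apply]
        by_cases h1 : b = s
        · have h2 : ¬ b = t := fun h2 => hst (h1.symm.trans h2)
          simp [h2]
        · simp [h1]
      rw [h1]
      have h2 : dd Γ b b = sqb Γ b := by simp [dd]
      rw [h2]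
      rcases b with v | ⟨e, he⟩
      · rfl
      · show orient Γ e (s, t) = 0
        induction e using Sym2.ind with
        | _ v w =>
          rw [orient_mk]
          have hvw : Γ.Adj v w := he
          simp only [Finsupp.add_apply, Finsupp.single_apply, Prod.mk.injEq]
          have h3 : ¬ ((Sum.inl v : BS Γ) = s ∧ (Sum.inl w : BS Γ) = t) := fun h =>
            h0 v w ⟨h.1.symm, h.2.symm, hvw⟩
          have h4 : ¬ ((Sum.inl w : BS Γ) = s ∧ (Sum.inl v : BS Γ) = t) := fun h =>
            h0 w v ⟨h.1.symm, h.2.symm, hvw.symm⟩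
          simp [h3, h4]
    · simp only [dd, hb, if_false, Finsupp.single_apply, Prod.mk.injEq]
      by_cases h1 : b = s <;> by_cases h2 : b' = t <;> simp [h1, h2]
  exact LinearMap.congr_fun (LinearMap.congr_fun h x) y

/-- the group of a graph -/
@[ext] structure NG : Type where
  x : WW Γ
  z : ZZ Γ

namespace NG

variable {Γ}

noncomputable instance : Mul (NG Γ) := ⟨fun a b => ⟨a.x + b.x, a.z + b.z + cc Γ a.x b.x⟩⟩
noncomputable instance : One (NG Γ) := ⟨⟨0, 0⟩⟩
noncomputable instance : Inv (NG Γ) := ⟨fun a => ⟨a.x, a.z + cc Γ a.x a.x⟩⟩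

theorem mul_x (a b : NG Γ) : (a * b).x = a.x + b.x := rfl
theorem mul_z (a b : NG Γ) : (a * b).z = a.z + b.z + cc Γ a.x b.x := rfl
theorem one_x : (1 : NG Γ).x = 0 := rfl
theorem one_z : (1 : NG Γ).z = 0 := rfl
theorem inv_x (a : NG Γ) : (a⁻¹).x = a.x := rfl
theorem inv_z (a : NG Γ) : (a⁻¹).z = a.z + cc Γ a.x a.x := rfl

noncomputable instance : Group (NG Γ) :=
  Group.ofLeftAxioms
    (fun a b c => by
      refine NG.ext ?_ ?_
      · simp only [mul_x]
        abel
      · simp only [mul_x, mul_z, map_add, LinearMap.add_apply]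
        abel)
    (fun a => by
      refine NG.ext ?_ ?_
      · rw [mul_x, one_x, zero_add]
      · rw [mul_z, one_x, one_z, map_zero, LinearMap.zero_apply, zero_add, add_zero])
    (fun a => by
      refine NG.ext ?_ ?_
      · rw [mul_x, inv_x, one_x, two_w]
      · rw [mul_z, inv_x, inv_z, one_z]
        have h1 := two_z Γ a.z
        have h2 := two_z Γ (cc Γ a.x a.x)
        calc a.z + cc Γ a.x a.x + a.z + cc Γ a.x a.x
            = (a.z + a.z) + (cc Γ a.x a.x + cc Γ a.x a.x) := by abel
          _ = 0 := by rw [h1, h2, add_zero])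

end NG

end Pool.Agent.H4.VG
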