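import Pool.Agent.H4.VG.Mod

set_option autoImplicit false
set_option linter.unusedSectionVars false

/-! Squares and commutators in the group of a graph. -/

namespace Pool.Agent.H4.VG

open Subgroup

variable {V : Type} {Γ : SimpleGraph V}

theorem orient_diag (e : Γ.edgeSet) (s : BS Γ) : orient Γ e (s, s) = 0 := by
  obtain ⟨e, he⟩ := e
  induction e using Sym2.ind with
  | _ v w =>
    classical
    show orient Γ s(v, w) (s, s) = 0
    rw [orient_mk]
    have hvw : Γ.Adj v w := he
    simp only [Finsupp.add_apply, Finsupp.single_apply, Prod.mk.injEq]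
    have h3 : ¬ ((Sum.inl v : BS Γ) = s ∧ (Sum.inl w : BS Γ) = s) := fun h =>
      hvw.ne (Sum.inl_injective (h.1.trans h.2.symm))
    have h4 : ¬ ((Sum.inl w : BS Γ) = s ∧ (Sum.inl v : BS Γ) = s) := fun h => h3 ⟨h.2, h.1⟩
    simp [h3, h4]

/-- no diagonal terms -/
theorem cc_diag (x y : WW Γ) (s : BS Γ) : cc Γ x y (s, s) = 0 := by
  have h : (cc Γ).compr₂ (Finsupp.lapply (s, s)) = 0 := by
    classical
    refine bil_ext Γ fun b b' => ?_
    simp only [LinearMap.compr₂_apply, Finsupp.lapply_apply, cc_single, LinearMap.zero_apply]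
    by_cases hb : b = b'
    · subst hb
      have h2 : dd Γ b b = sqb Γ b := by simp [dd]
      rw [h2]
      rcases b with v | e
      · rfl
      · exact orient_diag e s
    · simp only [dd, hb, if_false, Finsupp.single_apply, Prod.mk.injEq]
      rw [if_neg]
      rintro ⟨rfl, rfl⟩
      exact hb rfl
  exact LinearMap.congr_fun (LinearMap.congr_fun h x) y

/-- the coefficients which belong to the edges of the graph -/
theorem cc_edge (x y : WW Γ) {v w : V} (h : Γ.Adj v w) :
    cc Γ x y (Sum.inl v, Sum.inl w) = x (Sum.inl v) * y (Sum.inl w) +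
      x (Sum.inr ⟨s(v, w), h⟩) * y (Sum.inr ⟨s(v, w), h⟩) := by
  have h : (cc Γ).compr₂ (Finsupp.lapply ((Sum.inl v : BS Γ), (Sum.inl w : BS Γ))) =
      (LinearMap.mul (ZMod 2) (ZMod 2)).compl₁₂ (Finsupp.lapply (Sum.inl v : BS Γ))
        (Finsupp.lapply (Sum.inl w : BS Γ)) +
      (LinearMap.mul (ZMod 2) (ZMod 2)).compl₁₂ (Finsupp.lapply (Sum.inr ⟨s(v, w), h⟩ : BS Γ))
        (Finsupp.lapply (Sum.inr ⟨s(v, w), h⟩ : BS Γ)) := by
    classical
    refine bil_ext Γ fun b b' => ?_
    simp only [LinearMap.compr₂_apply, LinearMap.compl₁₂_apply, Finsupp.lapply_apply,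
      LinearMap.mul_apply', cc_single, LinearMap.add_apply]
    by_cases hb : b = b'
    · subst hb
      have h2 : dd Γ b b = sqb Γ b := by simp [dd]
      rw [h2]
      rcases b with a | ⟨e, he⟩
      · show (0 : ZMod 2) = _
        simp only [Finsupp.single_apply]
        by_cases h1 : (Sum.inl a : BS Γ) = Sum.inl v
        · have h3 : ¬ (Sum.inl a : BS Γ) = Sum.inl w := fun h3 =>
            h.ne (Sum.inl_injective (h1.symm.trans h3))
          simp [h3]
        · simp [h1]
      · show orient Γ e (Sum.inl v, Sum.inl w) = _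
        induction e using Sym2.ind with
        | _ c d =>
          rw [orient_mk]
          have hcd : Γ.Adj c d := he
          simp only [Finsupp.add_apply, Finsupp.single_apply, Prod.mk.injEq, Sum.inl.injEq,
            Sum.inr.injEq, reduceCtorEq, if_false, Subtype.mk.injEq, zero_mul, zero_add]
          by_cases h3 : c = v ∧ d = w
          · obtain ⟨rfl, rfl⟩ := h3
            have h4 : ¬ (d = c ∧ c = d) := fun h4 => h.ne h4.2
            simp [h4]
          · by_cases h4 : d = v ∧ c = w
            · obtain ⟨rfl, rfl⟩ := h4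
              simp [h3, Sym2.eq_swap]
            · have h5 : ¬ s(c, d) = s(v, w) := by
                rw [Sym2.eq_iff]
                rintro (h5 | h5)
                · exact h3 h5
                · exact h4 ⟨h5.2, h5.1⟩
              rw [if_neg h3, if_neg h4, if_neg h5, mul_zero, add_zero]
    · simp only [dd, hb, if_false, Finsupp.single_apply, Prod.mk.injEq]
      have h3 : (if b = Sum.inr (⟨s(v, w), h⟩ : Γ.edgeSet) then (1 : ZMod 2) else 0) *
          (if b' = Sum.inr (⟨s(v, w), h⟩ : Γ.edgeSet) then (1 : ZMod 2) else 0) = 0 := by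
        by_cases h1 : b = Sum.inr ⟨s(v, w), h⟩
        · have h2 : ¬ b' = Sum.inr ⟨s(v, w), h⟩ := fun h2 => hb (h1.trans h2.symm)
          simp [h2]
        · simp [h1]
      rw [h3, add_zero]
      by_cases h1 : b = Sum.inl v <;> by_cases h2 : b' = Sum.inl w <;> simp [h1, h2]
  exact LinearMap.congr_fun (LinearMap.congr_fun h x) y

theorem mul_ne {a b : ZMod 2} (ha : a ≠ 0) (hb : b ≠ 0) : a * b ≠ 0 := mul_ne_zero ha hb

theorem one_of {a : ZMod 2} (ha : a ≠ 0) : a = 1 := (zmod2 a).resolve_left ha

theorem single_of {x : WW Γ} {s : BS Γ} (hs : x s ≠ 0) (h : ∀ t, t ≠ s → x t = 0) :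
    x = Finsupp.single s 1 := by
  classical
  ext t
  rw [Finsupp.single_apply]
  by_cases ht : s = t
  · subst ht
    rw [if_pos rfl]
    exact one_of hs
  · rw [if_neg ht]
    exact h t (Ne.symm ht)

theorem cc_self_single (s : BS Γ) :
    cc Γ (Finsupp.single s 1) (Finsupp.single s 1) = sqb Γ s := by
  rw [cc_single]
  simp [dd]

theorem orient_ne (e : Γ.edgeSet) : orient Γ (e : Sym2 V) ≠ 0 := by
  obtain ⟨e, he⟩ := e
  induction e using Sym2.ind with
  | _ v w =>
    classical
    intro h
    have hvw : Γ.Adj v w := he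
    have h1 := DFunLike.congr_fun h ((Sum.inl v : BS Γ), (Sum.inl w : BS Γ))
    change orient Γ s(v, w) _ = 0 at h1
    rw [orient_mk] at h1
    have h2 : ¬ (w = v ∧ v = w) := fun h2 => hvw.ne h2.2
    simp [Finsupp.single_apply, h2] at h1

/-- the elements with trivial square -/
theorem sq_zero {x : WW Γ} (h : cc Γ x x = 0) (hx : x ≠ 0) :
    ∃ v, x = Finsupp.single (Sum.inl v) 1 := by
  obtain ⟨s, hs⟩ : ∃ s, x s ≠ 0 := by
    by_contra hcon
    push Not at hcon
    exact hx (Finsupp.ext hcon)
  have hE : ∀ e : Γ.edgeSet, x (Sum.inr e) = 0 := by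
    intro e
    by_contra he
    have h1 : x = Finsupp.single (Sum.inr e) 1 := by
      refine single_of he fun t ht => ?_
      have h2 := cc_apply Γ x x (Sum.inr e) t (Ne.symm ht) (fun v w hvw => by
        simpa using hvw.1)
      rw [h] at h2
      by_contra h3
      exact mul_ne he h3 h2.symm
    rw [h1, cc_self_single] at h
    exact orient_ne e h
  rcases s with v | e
  · refine ⟨v, single_of hs fun t ht => ?_⟩
    rcases t with w | e
    · by_cases hvw : Γ.Adj v w
      · have h2 := cc_edge x x hvw
        rw [h, hE, zero_mul, add_zero] at h2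
        by_contra h3
        exact mul_ne hs h3 h2.symm
      · have h2 := cc_apply Γ x x (Sum.inl v) (Sum.inl w) (Ne.symm ht) (fun v' w' h' => by
          obtain ⟨h1, h2, h3⟩ := h'
          have h1' := Sum.inl_injective h1
          have h2' := Sum.inl_injective h2
          subst h1' h2'
          exact hvw h3)
        rw [h] at h2
        by_contra h3
        exact mul_ne hs h3 h2.symm
    · exact hE e
  · exact absurd (hE e) hs

/-- the elements whose square is the commutator of two vertices -/
theorem sq_comm {u : WW Γ} {v w : V} (hvw : v ≠ w)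
    (h : cc Γ u u = Finsupp.single (Sum.inl v, Sum.inl w) 1 +
      Finsupp.single (Sum.inl w, Sum.inl v) 1)
    (hu : u ≠ Finsupp.single (Sum.inl v) 1 + Finsupp.single (Sum.inl w) 1) :
    ∃ hA : Γ.Adj v w, u = Finsupp.single (Sum.inr ⟨s(v, w), hA⟩) 1 := by
  classical
  by_cases hE : ∃ e : Γ.edgeSet, u (Sum.inr e) ≠ 0
  · obtain ⟨e, he⟩ := hE
    have h1 : u = Finsupp.single (Sum.inr e) 1 := by
      refine single_of he fun t ht => ?_
      have h2 := cc_apply Γ u u (Sum.inr e) t (Ne.symm ht) (fun v w hvw => by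
        simpa using hvw.1)
      rw [h] at h2
      by_contra h3
      refine mul_ne he h3 ?_
      rw [← h2]
      simp
    rw [h1, cc_self_single] at h
    obtain ⟨e, he'⟩ := e
    have h2 : orient Γ e = Finsupp.single ((Sum.inl v : BS Γ), (Sum.inl w : BS Γ)) (1 : ZMod 2) +
      Finsupp.single ((Sum.inl w : BS Γ), (Sum.inl v : BS Γ)) 1 := h
    clear h he hu
    subst h1
    induction e using Sym2.ind with
    | _ c d =>
      rw [orient_mk] at h2
      have hcd : Γ.Adj c d := he'
      have h3 := DFunLike.congr_fun h2 ((Sum.inl v : BS Γ), (Sum.inl w : BS Γ))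
      have h4 : ¬ (w = v ∧ v = w) := fun h4 => hvw h4.2
      have h5 : (c = v ∧ d = w) ∨ (d = v ∧ c = w) := by
        by_contra hcon
        push Not at hcon
        have h6 : ¬ (c = v ∧ d = w) := fun h6 => hcon.1 h6.1 h6.2
        have h7 : ¬ (d = v ∧ c = w) := fun h7 => hcon.2 h7.1 h7.2
        simp [Finsupp.single_apply, h4, h6, h7] at h3
      rcases h5 with ⟨rfl, rfl⟩ | ⟨rfl, rfl⟩
      · exact ⟨hcd, rfl⟩
      · refine ⟨hcd.symm, ?_⟩
        congr 3
        exact Sym2.eq_swap
  · exfalso
    push Not at hE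
    have key : ∀ a b : V, a ≠ b → u (Sum.inl a) * u (Sum.inl b) =
        (if a = v ∧ b = w then 1 else 0) + (if a = w ∧ b = v then 1 else 0) := by
      intro a b hab
      have h1 : cc Γ u u (Sum.inl a, Sum.inl b) = u (Sum.inl a) * u (Sum.inl b) := by
        by_cases hA : Γ.Adj a b
        · rw [cc_edge u u hA, hE, zero_mul, add_zero]
        · refine cc_apply Γ u u (Sum.inl a) (Sum.inl b) (fun e => hab (Sum.inl_injective e))
            (fun v' w' h' => ?_)
          obtain ⟨h1, h2, h3⟩ := h'
          have h1' := Sum.inl_injective h1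
          have h2' := Sum.inl_injective h2
          subst h1' h2'
          exact hA h3
      rw [← h1, h]
      simp only [Finsupp.add_apply, Finsupp.single_apply, Prod.mk.injEq, Sum.inl.injEq]
      congr 1
      · congr 1
        exact propext ⟨fun h => ⟨h.1.symm, h.2.symm⟩, fun h => ⟨h.1.symm, h.2.symm⟩⟩
      · congr 1
        exact propext ⟨fun h => ⟨h.1.symm, h.2.symm⟩, fun h => ⟨h.1.symm, h.2.symm⟩⟩
    have h1 := key v w hvw
    have h4 : ¬ (v = w ∧ w = v) := fun h4 => hvw h4.1
    rw [if_pos ⟨rfl, rfl⟩, if_neg h4, add_zero] at h1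
    have hv : u (Sum.inl v) ≠ 0 := fun h0 => by
      rw [h0, zero_mul] at h1
      exact zero_ne_one h1
    have hw : u (Sum.inl w) ≠ 0 := fun h0 => by
      rw [h0, mul_zero] at h1
      exact zero_ne_one h1
    apply hu
    ext t
    rcases t with t | e
    · simp only [Finsupp.add_apply, Finsupp.single_apply, Sum.inl.injEq]
      by_cases htv : v = t
      · subst htv
        rw [if_pos rfl, if_neg (Ne.symm hvw), add_zero]
        exact one_of hv
      · by_cases htw : w = t
        · subst htw
          rw [if_neg htv, if_pos rfl, zero_add]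
          exact one_of hw
        · rw [if_neg htv, if_neg htw, add_zero]
          have h2 := key v t htv
          rw [if_neg (fun h => htw h.2.symm), if_neg (fun h => hvw h.1), add_zero] at h2
          by_contra h3
          exact mul_ne hv h3 h2
    · rw [hE]
      simp

end Pool.Agent.H4.VG
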