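import Pool.Agent.H4.VG.Mod2

set_option autoImplicit false
set_option linter.unusedSectionVars false

/-! The group of a graph belongs to the class. -/

namespace Pool.Agent.H4.VG

open Subgroup

variable {V : Type} {Γ : SimpleGraph V}

theorem cen_iff [Nontrivial V] (a : NG Γ) : a ∈ center (NG Γ) ↔ a.x = 0 := by
  classical
  rw [mem_center_iff]
  constructor
  · intro h
    by_contra hne
    obtain ⟨s, hs⟩ : ∃ s, a.x s ≠ 0 := by
      by_contra hcon
      push Not at hcon
      exact hne (Finsupp.ext hcon)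
    have : Nontrivial (BS Γ) := (Sum.inl_injective (α := V) (β := Γ.edgeSet)).nontrivial
    obtain ⟨t, ht⟩ := exists_ne s
    have h1 := congrArg NG.z (h ⟨Finsupp.single t 1, 0⟩)
    rw [NG.mul_z, NG.mul_z] at h1
    have h1' : (0 : ZZ Γ) + a.z + cc Γ (Finsupp.single t 1) a.x =
      a.z + 0 + cc Γ a.x (Finsupp.single t 1) := h1
    rw [zero_add, add_zero] at h1'
    have h2 := add_left_cancel h1'
    have h3 : cc Γ a.x (Finsupp.single t 1) + cc Γ (Finsupp.single t 1) a.x = 0 := by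
      rw [h2]
      exact two_z _ _
    rw [cc_comm] at h3
    have h4 := DFunLike.congr_fun h3 (s, t)
    rw [Finsupp.add_apply, tn_apply, tn_apply, Finsupp.single_eq_same,
      Finsupp.single_eq_of_ne (Ne.symm ht)] at h4
    rw [mul_one, zero_mul, add_zero] at h4
    exact hs h4
  · intro h b
    refine NG.ext ?_ ?_
    · rw [NG.mul_x, NG.mul_x, add_comm]
    · rw [NG.mul_z, NG.mul_z, h, map_zero, map_zero, LinearMap.zero_apply, add_comm b.z]

section

variable {G : Type} [Group G] (φ : G ≃* NG Γ) [Nontrivial V]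

theorem mem_cen (g : G) : g ∈ center G ↔ (φ g).x = 0 := by
  rw [← cen_iff, mem_center_iff, mem_center_iff]
  constructor
  · intro h b
    obtain ⟨c, rfl⟩ := φ.surjective b
    rw [← map_mul, ← map_mul, h c]
  · intro h b
    apply φ.injective
    rw [map_mul, map_mul, h]

include φ in
theorem e2_of : E2 G :=
  ⟨fun g => by rw [mem_cen φ, map_mul, NG.mul_x, two_w], fun z hz => by
    have h := (mem_cen φ z).1 hz
    apply φ.injective
    rw [map_mul, map_one]
    refine NG.ext ?_ ?_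
    · rw [NG.mul_x, two_w, NG.one_x]
    · rw [NG.mul_z, h, map_zero, add_zero, two_z, NG.one_z]⟩

variable [E2 G]

/-- coordinates of the classes -/
noncomputable def th0 (x : Wd G) : WW Γ := (φ (cl_surj x).choose).x

theorem th0_cl (g : G) : th0 φ (cl g) = (φ g).x := by
  unfold th0
  have h := (cl_surj (cl g)).choose_spec
  set k := (cl_surj (cl g)).choose
  have h1 : g⁻¹ * k ∈ center G := cl_eq.1 h.symm
  rw [mem_cen φ, map_mul, NG.mul_x, map_inv, NG.inv_x] at h1
  calc (φ k).x = (φ g).x + ((φ g).x + (φ k).x) := by rw [← add_assoc, two_w, zero_add]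
    _ = (φ g).x := by rw [h1, add_zero]

/-- coordinates of the classes -/
noncomputable def th1 : Wd G →ₗ[ZMod 2] WW Γ where
  toFun := th0 φ
  map_add' x y := by
    obtain ⟨g, rfl⟩ := cl_surj x
    obtain ⟨h, rfl⟩ := cl_surj y
    rw [← cl_mul, th0_cl, th0_cl, th0_cl, map_mul, NG.mul_x]
  map_smul' c x := by
    rcases zmod2 c with rfl | rfl
    · rw [zero_smul, RingHom.id_apply, zero_smul, ← cl_one, th0_cl, map_one, NG.one_x]
    · rw [one_smul, RingHom.id_apply, one_smul]

theorem th1_bij : Function.Bijective (th1 φ) := by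
  constructor
  · rw [injective_iff_map_eq_zero]
    intro x hx
    obtain ⟨g, rfl⟩ := cl_surj x
    have h1 : th0 φ (cl g) = 0 := hx
    rw [th0_cl, ← mem_cen φ] at h1
    exact cl_zero.2 h1
  · intro y
    refine ⟨cl (φ.symm ⟨y, 0⟩), ?_⟩
    show th0 φ _ = _
    rw [th0_cl, MulEquiv.apply_symm_apply]

/-- coordinates of the classes -/
noncomputable def th : Wd G ≃ₗ[ZMod 2] WW Γ := LinearEquiv.ofBijective (th1 φ) (th1_bij φ)

theorem th_cl (g : G) : th φ (cl g) = (φ g).x := th0_cl φ g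

theorem cen_x (z : Zd G) : (φ (el z)).x = 0 := (mem_cen φ _).1 (el_mem z)

/-- coordinates of the central elements -/
noncomputable def ze1 : Zd G →ₗ[ZMod 2] ZZ Γ where
  toFun z := (φ (el z)).z
  map_add' x y := by
    rw [el_add, map_mul, NG.mul_z, cen_x, map_zero, LinearMap.zero_apply, add_zero]
  map_smul' c x := by
    rcases zmod2 c with rfl | rfl
    · rw [zero_smul, RingHom.id_apply, zero_smul, el_zero, map_one, NG.one_z]
    · rw [one_smul, RingHom.id_apply, one_smul]

theorem ze1_inj : Function.Injective (ze1 φ) := by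
  rw [injective_iff_map_eq_zero]
  intro z hz
  refine el_inj (φ.injective ?_)
  rw [el_zero, map_one]
  refine NG.ext ?_ ?_
  · rw [cen_x, NG.one_x]
  · rw [NG.one_z]
    exact hz

theorem ze_q (x : Wd G) : ze1 φ (q x) = cc Γ (th φ x) (th φ x) := by
  obtain ⟨g, rfl⟩ := cl_surj x
  show (φ (el (q (cl g)))).z = _
  rw [el_q, th_cl, map_mul, NG.mul_z, two_z, zero_add]

theorem ze_bt (x y : Wd G) : ze1 φ (bt x y) = tn Γ (th φ x) (th φ y) + tn Γ (th φ y) (th φ x) := by
  rw [← cc_comm]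
  unfold bt
  rw [map_add, map_add, ze_q, ze_q, ze_q, map_add, map_add, map_add, LinearMap.add_apply,
    LinearMap.add_apply]
  have h1 := two_z Γ (cc Γ (th φ x) (th φ x))
  have h2 := two_z Γ (cc Γ (th φ y) (th φ y))
  set a := cc Γ (th φ x) (th φ x)
  set b := cc Γ (th φ y) (th φ y)
  set c := cc Γ (th φ x) (th φ y)
  set d := cc Γ (th φ y) (th φ x)
  calc a + d + (c + b) + a + b = (c + d) + (a + a) + (b + b) := by abel
    _ = c + d := by rw [h1, h2, add_zero, add_zero]

theorem q_zero_iff (x : Wd G) : q x = 0 ↔ cc Γ (th φ x) (th φ x) = 0 := by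
  rw [← ze_q, map_eq_zero_iff _ (ze1_inj φ)]

theorem th_eq {x y : Wd G} : th φ x = th φ y ↔ x = y := (th φ).injective.eq_iff

theorem th_ne {x : Wd G} : th φ x ≠ 0 ↔ x ≠ 0 := by
  rw [ne_eq, ne_eq, (th φ).map_eq_zero_iff]

theorem cc_single_inl (v : V) :
    cc Γ (Finsupp.single (Sum.inl v) 1) (Finsupp.single (Sum.inl v) 1) = 0 := by
  rw [cc_self_single]
  rfl

theorem VV_iff (x : Wd G) : VV x ↔ ∃ v, th φ x = Finsupp.single (Sum.inl v) 1 := by
  unfold VV
  rw [q_zero_iff φ, ← th_ne φ]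
  constructor
  · rintro ⟨h1, h2⟩
    exact sq_zero h2 h1
  · rintro ⟨v, hv⟩
    rw [hv]
    refine ⟨?_, cc_single_inl v⟩
    rw [ne_eq, Finsupp.single_eq_zero]
    exact one_ne_zero

theorem single_inj {s t : BS Γ} (h : (Finsupp.single s 1 : WW Γ) = Finsupp.single t 1) :
    s = t := by
  classical
  have := DFunLike.congr_fun h s
  rw [Finsupp.single_eq_same, Finsupp.single_apply] at this
  by_contra hne
  rw [if_neg (Ne.symm hne)] at this
  exact one_ne_zero this

theorem IsE_iff (x y e : Wd G) : IsE x y e ↔ ∃ (v w : V) (h : Γ.Adj v w),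
    th φ x = Finsupp.single (Sum.inl v) 1 ∧ th φ y = Finsupp.single (Sum.inl w) 1 ∧
      th φ e = Finsupp.single (Sum.inr ⟨s(v, w), h⟩) 1 := by
  classical
  unfold IsE
  rw [VV_iff φ, VV_iff φ]
  constructor
  · rintro ⟨⟨v, hv⟩, ⟨w, hw⟩, hne, h1, h2⟩
    have hvw : v ≠ w := by
      rintro rfl
      exact hne ((th_eq φ).1 (hv.trans hw.symm))
    have h3 := congrArg (ze1 φ) h1
    rw [ze_q, ze_bt, hv, hw, tn_single, tn_single] at h3
    obtain ⟨hA, h4⟩ := sq_comm hvw h3 (by
      rw [← hv, ← hw, ← map_add, ne_eq, th_eq φ]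
      exact h2)
    exact ⟨v, w, hA, hv, hw, h4⟩
  · rintro ⟨v, w, hA, hv, hw, he⟩
    refine ⟨⟨v, hv⟩, ⟨w, hw⟩, ?_, ?_, ?_⟩
    · rintro rfl
      rw [hv] at hw
      exact hA.ne (Sum.inl_injective (single_inj hw))
    · apply ze1_inj φ
      rw [ze_q, ze_bt, hv, hw, he, tn_single, tn_single, cc_self_single]
      rfl
    · intro h
      rw [h, map_add, hv, hw] at he
      have h1 := DFunLike.congr_fun he (Sum.inr ⟨s(v, w), hA⟩)
      rw [Finsupp.add_apply, Finsupp.single_eq_same] at h1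
      simp at h1

theorem BB_iff (x : Wd G) : x ∈ BB G ↔ ∃ s, th φ x = Finsupp.single s 1 := by
  show (VV x ∨ ∃ v w, IsE v w x) ↔ _
  rw [VV_iff φ]
  constructor
  · rintro (⟨v, hv⟩ | ⟨y, z, h⟩)
    · exact ⟨_, hv⟩
    · obtain ⟨v, w, hA, -, -, h1⟩ := (IsE_iff φ _ _ _).1 h
      exact ⟨_, h1⟩
  · rintro ⟨v | ⟨e, he⟩, hs⟩
    · exact Or.inl ⟨v, hs⟩
    · right
      induction e using Sym2.ind with
      | _ v w =>
        refine ⟨(th φ).symm (Finsupp.single (Sum.inl v) 1),
          (th φ).symm (Finsupp.single (Sum.inl w) 1), ?_⟩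
        rw [IsE_iff φ]
        exact ⟨v, w, he, by simp, by simp, hs⟩

/-- the index of an element -/
noncomputable def ix (x : BB G) : BS Γ := ((BB_iff φ x.1).1 x.2).choose

theorem th_ix (x : BB G) : th φ x = Finsupp.single (ix φ x) 1 :=
  ((BB_iff φ x.1).1 x.2).choose_spec

theorem ix_inj : Function.Injective (ix φ) := by
  intro x y h
  apply Subtype.ext
  rw [← th_eq φ, th_ix, th_ix, h]

include φ in
theorem indB_of : LinearIndependent (ZMod 2) (fun x : BB G => (x : Wd G)) := by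
  have h1 : LinearIndependent (ZMod 2) (fun x : BB G => th φ x) := by
    have e : (fun x : BB G => th φ x) =
        (Finsupp.basisSingleOne (R := ZMod 2) (ι := BS Γ)) ∘ ix φ := by
      funext x
      rw [th_ix]
      simp
    rw [e]
    exact Finsupp.basisSingleOne.linearIndependent.comp _ (ix_inj φ)
  exact LinearIndependent.of_comp (th φ : Wd G →ₗ[ZMod 2] WW Γ) h1

include φ in
theorem uniq_of (v w e e' : Wd G) (h : IsE v w e) (h' : IsE v w e') : e = e' := by
  obtain ⟨a, b, hA, h1, h2, h3⟩ := (IsE_iff φ _ _ _).1 h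
  obtain ⟨c, d, hA', h4, h5, h6⟩ := (IsE_iff φ _ _ _).1 h'
  rw [h1] at h4
  rw [h2] at h5
  have e1 := Sum.inl_injective (single_inj h4)
  have e2 := Sum.inl_injective (single_inj h5)
  subst e1 e2
  exact (th_eq φ).1 (h3.trans h6.symm)

include φ in
theorem ind2_of (n : ℕ) (w : Fin n → Wd G) (hw : LinearIndependent (ZMod 2) w)
    (P : Finset (Fin n × Fin n)) (hP : ∀ p ∈ P, p.1 < p.2)
    (h0 : ∑ p ∈ P, bt (w p.1) (w p.2) = 0) : P = ∅ := by
  classical
  by_contra hne
  obtain ⟨⟨a, b⟩, hab⟩ := Finset.nonempty_iff_ne_empty.2 hne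
  have hw' : LinearIndependent (ZMod 2) (fun i => th φ (w i)) :=
    hw.map' (th φ : Wd G →ₗ[ZMod 2] WW Γ) (LinearEquiv.ker _)
  obtain ⟨g, hg⟩ := LinearMap.exists_leftInverse_of_injective
    (Finsupp.linearCombination (ZMod 2) (fun i => th φ (w i))) (LinearMap.ker_eq_bot.2 hw')
  have hg1 : ∀ i, g (th φ (w i)) = Finsupp.single i 1 := by
    intro i
    have := LinearMap.congr_fun hg (Finsupp.single i 1)
    simpa using this
  let fa : WW Γ →ₗ[ZMod 2] ZMod 2 := (Finsupp.lapply a).comp g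
  let fb : WW Γ →ₗ[ZMod 2] ZMod 2 := (Finsupp.lapply b).comp g
  have hfa : ∀ i, fa (th φ (w i)) = if i = a then 1 else 0 := fun i => by
    show (g (th φ (w i))) a = _
    rw [hg1, Finsupp.single_apply]
  have hfb : ∀ i, fb (th φ (w i)) = if i = b then 1 else 0 := fun i => by
    show (g (th φ (w i))) b = _
    rw [hg1, Finsupp.single_apply]
  let B : ZZ Γ →ₗ[ZMod 2] ZMod 2 := Finsupp.linearCombination (ZMod 2)
    (fun p : BS Γ × BS Γ => fa (Finsupp.single p.1 1) * fb (Finsupp.single p.2 1))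
  have hB : ∀ x y, B (tn Γ x y) = fa x * fb y := by
    intro x y
    have h1 : (tn Γ).compr₂ B = (LinearMap.mul (ZMod 2) (ZMod 2)).compl₁₂ fa fb := by
      refine bil_ext Γ fun s t => ?_
      simp only [LinearMap.compr₂_apply, LinearMap.compl₁₂_apply, LinearMap.mul_apply',
        tn_single]
      simp [B]
    exact LinearMap.congr_fun (LinearMap.congr_fun h1 x) y
  have h1 := congrArg (fun z => B (ze1 φ z)) h0
  simp only [map_sum, map_zero, ze_bt, map_add, hB, hfa, hfb] at h1
  have h2 : ∀ p ∈ P, ((if p.1 = a then (1 : ZMod 2) else 0) * (if p.2 = b then 1 else 0) +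
      (if p.2 = a then 1 else 0) * (if p.1 = b then 1 else 0)) =
        if p = (a, b) then 1 else 0 := by
    rintro ⟨c, d⟩ hp
    have h3 := hP _ hp
    have h4 := hP _ hab
    simp only at h3 h4 ⊢
    have h5 : ¬ (d = a ∧ c = b) := by
      rintro ⟨rfl, rfl⟩
      exact lt_asymm h3 h4
    simp only [Prod.mk.injEq]
    by_cases h6 : c = a <;> by_cases h7 : d = b <;> by_cases h8 : d = a <;>
      by_cases h9 : c = b <;> simp_all
  rw [Finset.sum_congr rfl h2, Finset.sum_ite_eq' P (a, b), if_pos hab] at h1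
  exact one_ne_zero h1

end

end Pool.Agent.H4.VG
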