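import Pool.Agent.H4.VG.Mod3

set_option autoImplicit false
set_option linter.unusedSectionVars false

/-! The group of a graph: sums of commutators which are squares. -/

namespace Pool.Agent.H4.VG

open Subgroup

variable {V : Type} {Γ : SimpleGraph V}

/-- regular basis elements -/
def Reg (x : WW Γ) (s : BS Γ) : Prop := ∀ t, t ≠ s → cc Γ x x (s, t) = x s * x t

theorem reg_inr (x : WW Γ) (e : Γ.edgeSet) : Reg x (Sum.inr e) := fun t ht =>
  cc_apply Γ x x _ t (Ne.symm ht) (fun v w h => by simpa using h.1)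

theorem reg_inl (x : WW Γ) (v : V)
    (h : ∀ e : Γ.edgeSet, v ∈ (e : Sym2 V) → x (Sum.inr e) = 0) : Reg x (Sum.inl v) := by
  intro t ht
  rcases t with w | e
  · by_cases hA : Γ.Adj v w
    · rw [cc_edge x x hA, h _ (by simp), zero_mul, add_zero]
    · refine cc_apply Γ x x (Sum.inl v) (Sum.inl w) (Ne.symm ht) (fun v' w' h' => ?_)
      obtain ⟨h1, h2, h3⟩ := h'
      have h1' := Sum.inl_injective h1
      have h2' := Sum.inl_injective h2
      subst h1' h2'
      exact hA h3
  · exact cc_apply Γ x x (Sum.inl v) (Sum.inr e) (Ne.symm ht) (fun v' w' h' => by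
      simpa using h'.2.1)

/-- the number of basis elements -/
theorem card_supp {n : ℕ} (x : WW Γ) (y z : Fin n → WW Γ)
    (h : cc Γ x x = ∑ i, (tn Γ (y i) (z i) + tn Γ (z i) (y i))) :
    x.support.card ≤ 4 ^ (n + 1) := by
  classical
  let κ : BS Γ → (Fin n → ZMod 2 × ZMod 2) := fun s i => (y i s, z i s)
  have hM : ∀ s t, cc Γ x x (s, t) = ∑ i, ((κ s i).1 * z i t + (κ s i).2 * y i t) := by
    intro s t
    rw [h, Finsupp.finsetSum_apply]
    refine Finset.sum_congr rfl fun i _ => ?_
    rw [Finsupp.add_apply, tn_apply, tn_apply]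
  have hinj : ∀ s ∈ x.support, Reg x s → ∀ s' ∈ x.support, κ s = κ s' → s = s' := by
    intro s hs hr s' hs' hk
    by_contra hne
    have h1 := hr s' (Ne.symm hne)
    have h2 : cc Γ x x (s, s') = cc Γ x x (s', s') := by rw [hM, hM, hk]
    rw [h2, cc_diag] at h1
    exact mul_ne (Finsupp.mem_support_iff.1 hs) (Finsupp.mem_support_iff.1 hs') h1.symm
  let R := x.support.filter (fun s => Reg x s)
  have hR : R.card ≤ 4 ^ n := by
    have h1 : R.card ≤ (Finset.univ : Finset (Fin n → ZMod 2 × ZMod 2)).card :=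
      Finset.card_le_card_of_injOn κ (fun _ _ => Finset.mem_coe.2 (Finset.mem_univ _))
        (fun s hs s' hs' hk => hinj s (Finset.mem_filter.1 hs).1 (Finset.mem_filter.1 hs).2
          s' (Finset.mem_filter.1 hs').1 hk)
    have h2 : (Finset.univ : Finset (Fin n → ZMod 2 × ZMod 2)).card = 4 ^ n := by
      simp [Finset.card_univ]
    rw [h2] at h1
    exact h1
  let f1 : BS Γ → BS Γ := fun s => match s with
    | Sum.inl v => Sum.inl v
    | Sum.inr e => Sum.inl (Quot.out (e : Sym2 V)).1
  let f2 : BS Γ → BS Γ := fun s => match s with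
    | Sum.inl v => Sum.inl v
    | Sum.inr e => Sum.inl (Quot.out (e : Sym2 V)).2
  have hsub : x.support ⊆ R ∪ (R.image f1 ∪ R.image f2) := by
    intro s hs
    by_cases hr : Reg x s
    · exact Finset.mem_union_left _ (Finset.mem_filter.2 ⟨hs, hr⟩)
    · refine Finset.mem_union_right _ ?_
      rcases s with v | e
      · obtain ⟨e, he1, he2⟩ : ∃ e : Γ.edgeSet, v ∈ (e : Sym2 V) ∧ x (Sum.inr e) ≠ 0 := by
          by_contra hcon
          push Not at hcon
          exact hr (reg_inl x v hcon)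
        have h1 : (Sum.inr e : BS Γ) ∈ R :=
          Finset.mem_filter.2 ⟨Finsupp.mem_support_iff.2 he2, reg_inr x e⟩
        have h2 : s((Quot.out (e : Sym2 V)).1, (Quot.out (e : Sym2 V)).2) = (e : Sym2 V) :=
          Quot.out_eq _
        rw [← h2, Sym2.mem_iff] at he1
        rcases he1 with he1 | he1
        · exact Finset.mem_union_left _ (Finset.mem_image.2 ⟨_, h1, by rw [he1]⟩)
        · exact Finset.mem_union_right _ (Finset.mem_image.2 ⟨_, h1, by rw [he1]⟩)
      · exact absurd (reg_inr x e) hr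
  have h1 := Finset.card_le_card hsub
  have h2 := Finset.card_union_le R (R.image f1 ∪ R.image f2)
  have h3 := Finset.card_union_le (R.image f1) (R.image f2)
  have h4 := Finset.card_image_le (s := R) (f := f1)
  have h5 := Finset.card_image_le (s := R) (f := f2)
  have h6 : 4 ^ (n + 1) = 4 * 4 ^ n := by ring
  omega

section

variable {G : Type} [Group G] (φ : G ≃* NG Γ) [Nontrivial V] [E2 G]

include φ in
theorem fin_of (n : ℕ) (x : Wd G) (y z : Fin n → Wd G) (h : q x = ∑ i, bt (y i) (z i)) :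
    ∃ (k : Fin (4 ^ (n + 1) + 1)) (u : Fin k → Wd G), (∀ i, u i ∈ BB G) ∧ x = ∑ i, u i := by
  classical
  have h1 := congrArg (ze1 φ) h
  rw [ze_q, map_sum] at h1
  simp only [ze_bt] at h1
  have h2 := card_supp _ _ _ h1
  refine ⟨⟨(th φ x).support.card, Nat.lt_succ_of_le h2⟩,
    fun i => (th φ).symm (Finsupp.single (((th φ x).support.equivFin.symm i : _) : BS Γ) 1),
    fun i => ?_, ?_⟩
  · rw [BB_iff φ]
    exact ⟨_, LinearEquiv.apply_symm_apply _ _⟩
  · rw [← th_eq φ, map_sum]
    simp only [LinearEquiv.apply_symm_apply]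
    have h3 : ∑ i : Fin (th φ x).support.card,
        (Finsupp.single (((th φ x).support.equivFin.symm i : _) : BS Γ) 1 : WW Γ) =
        ∑ s : (th φ x).support, Finsupp.single (s : BS Γ) 1 :=
      Equiv.sum_comp (th φ x).support.equivFin.symm
        (fun s => (Finsupp.single (s : BS Γ) 1 : WW Γ))
    refine Eq.trans ?_ h3.symm
    rw [Finset.sum_coe_sort (th φ x).support (fun s => (Finsupp.single s 1 : WW Γ))]
    conv_lhs => rw [← Finsupp.sum_single (th φ x)]
    refine Finset.sum_congr rfl fun s hs => ?_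
    rw [one_of (Finsupp.mem_support_iff.1 hs)]

include φ in
theorem exists_vert : ∃ π : V ≃ {v : Wd G // VV v},
    ∀ v w, Γ.Adj v w ↔ Adj (π v).1 (π w).1 := by
  have h1 : ∀ v : V, VV ((th φ).symm (Finsupp.single (Sum.inl v) 1)) := fun v => by
    rw [VV_iff φ]
    exact ⟨v, LinearEquiv.apply_symm_apply _ _⟩
  let f : V → {v : Wd G // VV v} := fun v => ⟨(th φ).symm (Finsupp.single (Sum.inl v) 1), h1 v⟩
  have hf : Function.Bijective f := by
    constructor
    · intro v w h
      have h2 := congrArg Subtype.val h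
      have h3 := (th φ).symm.injective h2
      exact Sum.inl_injective (single_inj h3)
    · rintro ⟨x, hx⟩
      obtain ⟨v, hv⟩ := (VV_iff φ x).1 hx
      refine ⟨v, Subtype.ext ?_⟩
      show (th φ).symm (Finsupp.single (Sum.inl v) 1) = x
      rw [← hv, LinearEquiv.symm_apply_apply]
  refine ⟨Equiv.ofBijective f hf, fun v w => ?_⟩
  have hv : ∀ v, th φ ((Equiv.ofBijective f hf v).1) = Finsupp.single (Sum.inl v) 1 := fun v =>
    LinearEquiv.apply_symm_apply _ _
  constructor
  · intro hA
    refine ⟨(th φ).symm (Finsupp.single (Sum.inr ⟨s(v, w), hA⟩) 1), ?_⟩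
    rw [IsE_iff φ]
    exact ⟨v, w, hA, hv v, hv w, LinearEquiv.apply_symm_apply _ _⟩
  · rintro ⟨e, he⟩
    obtain ⟨a, b, hA, h2, h3, -⟩ := (IsE_iff φ _ _ _).1 he
    rw [hv] at h2 h3
    have e1 := Sum.inl_injective (single_inj h2)
    have e2 := Sum.inl_injective (single_inj h3)
    subst e1 e2
    exact hA

end

end Pool.Agent.H4.VG
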