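import Pool.Agent.H4.VG.Cls

set_option autoImplicit false
set_option linter.unusedSectionVars false

/-! First-order axioms for the class. -/

namespace Pool.Agent.H4.VG

open Subgroup

section ops

variable {α : Type} (μ : α → α → α)

/-- central elements -/
def Cen (z : α) : Prop := ∀ x, μ x z = μ z x

/-- commutators -/
def cm (x y : α) : α := μ (μ (μ x y) (μ x y)) (μ (μ x x) (μ y y))

/-- congruence modulo the centre -/
def Cg (x y : α) : Prop := Cen μ (μ x y)

/-- noncentral involutions -/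
def Vx (x : α) : Prop := ¬ Cen μ x ∧ μ (μ x x) (μ x x) = μ x x

/-- edges -/
def Ed (v w e : α) : Prop :=
  Vx μ v ∧ Vx μ w ∧ ¬ Cg μ v w ∧ μ e e = cm μ v w ∧ ¬ Cg μ e (μ v w)

/-- vertices and edges -/
def Bx (x : α) : Prop := Vx μ x ∨ ∃ v w, Ed μ v w x

/-- products of lists -/
def wd (e : α) (l : List α) : α := l.foldr μ e

/-- the first-order axioms -/
structure FA : Prop where
  assoc : ∀ x y z, μ (μ x y) z = μ x (μ y z)
  unit : ∃ e, (∀ x, μ e x = x) ∧ ∀ x, ∃ y, μ y x = e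
  sq : ∀ x, Cen μ (μ x x)
  ex : ∀ z, Cen μ z → μ (μ z z) (μ z z) = μ z z
  ind2 : ∀ (P : Σ n, {P : Finset (Fin n × Fin n) // P.Nonempty ∧ ∀ p ∈ P, p.1 < p.2})
    (e : α) (w : Fin P.1 → α), μ e e = e →
      (∀ T : {T : Finset (Fin P.1) // T.Nonempty}, ¬ Cen μ (wd μ e (T.1.toList.map w))) →
        wd μ e (P.2.1.toList.map fun p => cm μ (w p.1) (w p.2)) ≠ e
  indB : ∀ (n : ℕ) (e : α) (w : Fin (n + 1) → α), μ e e = e → (∀ i, Bx μ (w i)) →
    (∀ i j, i ≠ j → ¬ Cg μ (w i) (w j)) → ¬ Cen μ (wd μ e (List.ofFn w))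
  uniq : ∀ v w e e', Ed μ v w e → Ed μ v w e' → Cg μ e e'
  fin : ∀ (n : ℕ) (e x : α) (y z : Fin n → α), μ e e = e →
    μ x x = wd μ e (List.ofFn fun i => cm μ (y i) (z i)) →
      ∃ (k : Fin (4 ^ (n + 1) + 1)) (u : Fin k → α), (∀ i, Bx μ (u i)) ∧
        Cg μ x (wd μ e (List.ofFn u))
  inf : ∀ n : ℕ, ∃ w : Fin n → α, (∀ i, Vx μ (w i)) ∧ ∀ i j, i ≠ j → ¬ Cg μ (w i) (w j)

/-- the group -/
noncomputable def FA.group {μ : α → α → α} (h : FA μ) : Group α :=
  letI : Mul α := ⟨μ⟩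
  letI : One α := ⟨h.unit.choose⟩
  letI : Inv α := ⟨fun x => (h.unit.choose_spec.2 x).choose⟩
  Group.ofLeftAxioms h.assoc h.unit.choose_spec.1
    (fun x => (h.unit.choose_spec.2 x).choose_spec)

theorem FA.mul_eq {μ : α → α → α} (h : FA μ) (a b : α) :
    (letI := h.group; a * b) = μ a b := rfl

end ops

section grp

variable {G : Type} [Group G]

/-- the multiplication -/
def mu (G : Type) [Group G] : G → G → G := fun a b => a * b

theorem cen_iff' {z : G} : Cen (mu G) z ↔ z ∈ center G := mem_center_iff.symm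

theorem idem {e : G} : mu G e e = e ↔ e = 1 := by
  show e * e = e ↔ e = 1
  rw [mul_eq_left]

theorem wd_eq (l : List G) : wd (mu G) 1 l = l.prod := rfl

variable [E2 G]

theorem cg_iff {x y : G} : Cg (mu G) x y ↔ cl x = cl y := by
  unfold Cg
  rw [cen_iff', ← cl_zero]
  show cl (x * y) = 0 ↔ _
  rw [cl_mul]
  constructor
  · intro h
    calc cl x = cl x + (cl y + cl y) := by rw [wtwo, add_zero]
      _ = (cl x + cl y) + cl y := by abel
      _ = cl y := by rw [h, zero_add]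
  · intro h
    rw [h, wtwo]

theorem cm_eq (x y : G) : cm (mu G) x y = el (bt (cl x) (cl y)) := by
  unfold bt
  rw [el_add, el_add, ← cl_mul, el_q, el_q, el_q]
  show (x * y) * (x * y) * ((x * x) * (y * y)) = _
  rw [mul_assoc ((x * y) * (x * y))]

theorem vx_iff {x : G} : Vx (mu G) x ↔ VV (cl x) := by
  unfold Vx VV
  rw [cen_iff', ← cl_zero, idem]
  refine and_congr Iff.rfl ?_
  constructor
  · intro h
    refine el_inj ?_
    rw [el_q, el_zero]
    exact h
  · intro h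
    have := congrArg el h
    rw [el_q, el_zero] at this
    exact this

theorem ed_iff {v w e : G} : Ed (mu G) v w e ↔ IsE (cl v) (cl w) (cl e) := by
  unfold Ed IsE
  rw [vx_iff, vx_iff, cg_iff, cg_iff, cm_eq]
  have h1 : cl (mu G v w) = cl v + cl w := rfl
  have h2 : mu G e e = el (bt (cl v) (cl w)) ↔ q (cl e) = bt (cl v) (cl w) := by
    constructor
    · intro h
      refine el_inj ?_
      rw [el_q]
      exact h
    · intro h
      rw [← h, el_q]
      rfl
  rw [h1, h2]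

theorem bx_iff {x : G} : Bx (mu G) x ↔ cl x ∈ BB G := by
  show _ ↔ (VV (cl x) ∨ ∃ v w, IsE v w (cl x))
  unfold Bx
  rw [vx_iff]
  refine or_congr Iff.rfl ?_
  constructor
  · rintro ⟨v, w, h⟩
    exact ⟨_, _, ed_iff.1 h⟩
  · rintro ⟨v, w, h⟩
    obtain ⟨v, rfl⟩ := cl_surj v
    obtain ⟨w, rfl⟩ := cl_surj w
    exact ⟨v, w, ed_iff.2 h⟩

theorem cl_prod (l : List G) : cl l.prod = (l.map cl).sum := by
  induction l with
  | nil => rfl
  | cons a l ih => rw [List.prod_cons, cl_mul, ih, List.map_cons, List.sum_cons]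

theorem el_sum (l : List (Zd G)) : el l.sum = (l.map el).prod := by
  induction l with
  | nil => rfl
  | cons a l ih => rw [List.sum_cons, el_add, ih, List.map_cons, List.prod_cons]

theorem cl_ofFn {n : ℕ} (w : Fin n → G) : cl (wd (mu G) 1 (List.ofFn w)) = ∑ i, cl (w i) := by
  rw [wd_eq, cl_prod, List.map_ofFn, List.sum_ofFn]
  rfl

theorem cl_toList {n : ℕ} (T : Finset (Fin n)) (w : Fin n → G) :
    cl (wd (mu G) 1 (T.toList.map w)) = ∑ i ∈ T, cl (w i) := by
  rw [wd_eq, cl_prod, List.map_map]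
  exact Finset.sum_map_toList T _

theorem el_ofFn {n : ℕ} (y z : Fin n → G) :
    wd (mu G) 1 (List.ofFn fun i => cm (mu G) (y i) (z i)) =
      el (∑ i, bt (cl (y i)) (cl (z i))) := by
  rw [wd_eq, ← List.sum_ofFn, el_sum, List.map_ofFn]
  congr 2
  funext i
  exact cm_eq _ _

theorem el_toList {n : ℕ} (P : Finset (Fin n × Fin n)) (w : Fin n → G) :
    wd (mu G) 1 (P.toList.map fun p => cm (mu G) (w p.1) (w p.2)) =
      el (∑ p ∈ P, bt (cl (w p.1)) (cl (w p.2))) := by
  rw [wd_eq, ← Finset.sum_map_toList, el_sum, List.map_map]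
  congr 2
  funext p
  exact cm_eq _ _

end grp

theorem FA.e2 {G : Type} [Group G] (h : FA (mu G)) : E2 G :=
  ⟨fun g => cen_iff'.1 (h.sq g), fun z hz => idem.1 (h.ex z (cen_iff'.2 hz))⟩

theorem ex_sum {G : Type} [Group G] [E2 G] {z : Zd G} (hz : z ∈ SB G) :
    ∃ (n : ℕ) (y y' : Fin n → Wd G), z = ∑ i, bt (y i) (y' i) := by
  refine Submodule.span_induction (p := fun z _ => ∃ (n : ℕ) (y y' : Fin n → Wd G),
    z = ∑ i, bt (y i) (y' i)) ?_ ?_ ?_ ?_ hz
  · rintro _ ⟨y, y', rfl⟩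
    exact ⟨1, fun _ => y, fun _ => y', by simp⟩
  · exact ⟨0, fun _ => 0, fun _ => 0, by simp⟩
  · rintro a b _ _ ⟨n, y, y', rfl⟩ ⟨m, t, t', rfl⟩
    refine ⟨n + m, Fin.append y t, Fin.append y' t', ?_⟩
    rw [Fin.sum_univ_add]
    simp
  · rintro c a _ ⟨n, y, y', rfl⟩
    rcases zmod2 c with rfl | rfl
    · exact ⟨0, fun _ => 0, fun _ => 0, by simp⟩
    · exact ⟨n, y, y', by rw [one_smul]⟩

theorem FA.nice {G : Type} [Group G] [E2 G] (h : FA (mu G)) : Nice G := by
  classical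
  refine ⟨?_, ?_, ?_, ?_⟩
  · intro n w hw P hP h0
    by_contra hne
    choose g hg using fun i => cl_surj (w i)
    refine h.ind2 ⟨n, P, Finset.nonempty_iff_ne_empty.2 hne, hP⟩ 1 g (idem.2 rfl) ?_ ?_
    · rintro ⟨T, hT⟩ hc
      rw [cen_iff', ← cl_zero, cl_toList] at hc
      simp only [hg] at hc
      rw [li2.1 hw T hc] at hT
      exact Finset.not_nonempty_empty hT
    · rw [el_toList]
      simp only [hg]
      rw [h0, el_zero]
  · rw [li2]
    intro T hT
    by_contra hne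
    obtain ⟨n, hn⟩ := Nat.exists_eq_succ_of_ne_zero (Finset.card_ne_zero.2
      (Finset.nonempty_iff_ne_empty.2 hne))
    let e : Fin (n + 1) ≃ T := (T.equivFinOfCardEq hn).symm
    choose g hg using fun i => cl_surj ((e i : BB G) : Wd G)
    refine h.indB n 1 g (idem.2 rfl) (fun i => ?_) (fun i j hij hc => ?_) ?_
    · rw [bx_iff, hg]
      exact (e i : BB G).2
    · rw [cg_iff, hg, hg] at hc
      exact hij (e.injective (Subtype.ext (Subtype.ext hc)))
    · rw [cen_iff', ← cl_zero, cl_ofFn]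
      simp only [hg]
      rw [Equiv.sum_comp e (fun x : T => ((x : BB G) : Wd G)),
        Finset.sum_coe_sort T (fun x : BB G => (x : Wd G))]
      exact hT
  · intro v w e e' h1 h2
    obtain ⟨v, rfl⟩ := cl_surj v
    obtain ⟨w, rfl⟩ := cl_surj w
    obtain ⟨e, rfl⟩ := cl_surj e
    obtain ⟨e', rfl⟩ := cl_surj e'
    exact cg_iff.1 (h.uniq v w e e' (ed_iff.2 h1) (ed_iff.2 h2))
  · intro x hx
    obtain ⟨n, y, z, hyz⟩ := ex_sum hx
    obtain ⟨x, rfl⟩ := cl_surj x
    choose y' hy using fun i => cl_surj (y i)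
    choose z' hz using fun i => cl_surj (z i)
    obtain ⟨k, u, hu1, hu2⟩ := h.fin n 1 x y' z' (idem.2 rfl) (by
      rw [el_ofFn]
      simp only [hy, hz]
      rw [← hyz, el_q]
      rfl)
    rw [cg_iff, cl_ofFn] at hu2
    rw [hu2]
    exact Submodule.sum_mem _ fun i _ => Submodule.subset_span (bx_iff.1 (hu1 i))

theorem FA_of {G : Type} [Group G] [E2 G] (h : Nice G)
    (hfin : ∀ (n : ℕ) (x : Wd G) (y z : Fin n → Wd G), q x = ∑ i, bt (y i) (z i) →
      ∃ (k : Fin (4 ^ (n + 1) + 1)) (u : Fin k → Wd G), (∀ i, u i ∈ BB G) ∧ x = ∑ i, u i)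
    (hinf : Infinite {v : Wd G // VV v}) : FA (mu G) := by
  classical
  refine ⟨fun x y z => mul_assoc x y z, ⟨1, fun x => one_mul x, fun x => ⟨x⁻¹, inv_mul_cancel x⟩⟩,
    fun x => cen_iff'.2 (E2.sq x), fun z hz => idem.2 (E2.ex z (cen_iff'.1 hz)), ?_, ?_, ?_, ?_, ?_⟩
  · rintro ⟨n, P, hP1, hP2⟩ e w he hT h0
    obtain rfl := idem.1 he
    simp only at h0 hT w
    rw [el_toList] at h0
    have hw : LinearIndependent (ZMod 2) (fun i => cl (w i)) := by
      rw [li2]
      intro T hT0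
      by_contra hne
      refine hT ⟨T, Finset.nonempty_iff_ne_empty.2 hne⟩ ?_
      rw [cen_iff', ← cl_zero, cl_toList]
      exact hT0
    have h1 := h.ind2 n _ hw P hP2 (el_inj (h0.trans el_zero.symm))
    rw [h1] at hP1
    exact Finset.not_nonempty_empty hP1
  · intro n e w he hB hne hc
    obtain rfl := idem.1 he
    rw [cen_iff', ← cl_zero, cl_ofFn] at hc
    let f : Fin (n + 1) → BB G := fun i => ⟨cl (w i), bx_iff.1 (hB i)⟩
    have hf : Function.Injective f := by
      intro i j hij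
      by_contra hn
      exact hne i j hn (cg_iff.2 (congrArg Subtype.val hij))
    have h1 := li2.1 h.indB (Finset.univ.image f) (by
      rw [Finset.sum_image fun i _ j _ hij => hf hij]
      exact hc)
    rw [Finset.image_eq_empty] at h1
    exact absurd h1 Finset.univ_nonempty.ne_empty
  · intro v w e e' h1 h2
    exact cg_iff.2 (h.uniq _ _ _ _ (ed_iff.1 h1) (ed_iff.1 h2))
  · intro n e x y z he h0
    obtain rfl := idem.1 he
    rw [el_ofFn] at h0
    obtain ⟨k, u, hu1, hu2⟩ := hfin n (cl x) _ _ (el_inj (by rw [el_q]; exact h0))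
    choose u' hu using fun i => cl_surj (u i)
    refine ⟨k, u', fun i => ?_, ?_⟩
    · rw [bx_iff, hu]
      exact hu1 i
    · rw [cg_iff, cl_ofFn, hu2]
      simp only [hu]
  · intro n
    obtain ⟨f⟩ : Nonempty (ℕ ↪ {v : Wd G // VV v}) := ⟨Infinite.natEmbedding _⟩
    choose g hg using fun v : {v : Wd G // VV v} => cl_surj v.1
    refine ⟨fun i => g (f i), fun i => ?_, fun i j hij hc => ?_⟩
    · rw [vx_iff, hg]
      exact (f i).2
    · rw [cg_iff, hg, hg] at hc
      exact hij (Fin.ext (f.injective (Subtype.ext hc)))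

end Pool.Agent.H4.VG
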