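import Pool.Agent.H4.VG.Op
import Pool.Agent.H4.VG.Mod4
import Pool.Agent.H4.VG.Cls2

set_option autoImplicit false
set_option linter.unusedSectionVars false

/-! Models of the axioms; the two dimensions. -/

namespace Pool.Agent.H4.VG

open Subgroup

section

variable {V : Type} {Γ : SimpleGraph V} {G : Type} [Group G] (φ : G ≃* NG Γ)

include φ in
theorem nice_NG [Nontrivial V] [E2 G] : Nice G := by
  refine ⟨ind2_of φ, indB_of φ, uniq_of φ, fun x hx => ?_⟩
  obtain ⟨n, y, z, h⟩ := ex_sum hx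
  obtain ⟨k, u, h1, h2⟩ := fin_of φ n x y z h
  rw [h2]
  exact Submodule.sum_mem _ fun i _ => Submodule.subset_span (h1 i)

include φ in
theorem FA_NG [Infinite V] [E2 G] : FA (mu G) := by
  refine FA_of (nice_NG φ) (fin_of φ) ?_
  obtain ⟨π, -⟩ := exists_vert φ
  exact Infinite.of_injective π π.injective

end

/-- a model on every countably infinite set -/
theorem exists_model {α : Type} [Countable α] [Infinite α] (Γ : SimpleGraph ℕ) :
    ∃ (g : Group α) (h2 : @E2 α g), FA (@mu α g) ∧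
      ∃ π : ℕ ≃ {v : @Wd α g // @VV α g h2 v},
        ∀ v w, Γ.Adj v w ↔ @Adj α g h2 (π v).1 (π w).1 := by
  classical
  have hc : Countable (NG Γ) := by
    have h1 : Function.Injective (fun a : NG Γ => (a.x, a.z)) := by
      intro a b h
      have h1 := congrArg Prod.fst h
      have h2 := congrArg Prod.snd h
      exact NG.ext h1 h2
    exact h1.countable
  have hi : Infinite (NG Γ) := by
    have h1 : Function.Injective (fun v : ℕ =>
        (⟨Finsupp.single (Sum.inl v) 1, 0⟩ : NG Γ)) := by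
      intro v w h
      exact Sum.inl_injective (single_inj (congrArg NG.x h))
    exact Infinite.of_injective _ h1
  obtain ⟨e⟩ := nonempty_equiv_of_countable (α := α) (β := NG Γ)
  let g : Group α := e.group
  let φ : α ≃* NG Γ := { e with map_mul' := fun a b => e.apply_symm_apply _ }
  have h2 : E2 α := e2_of φ
  exact ⟨g, h2, FA_NG φ, exists_vert φ⟩

/-- spans over the field with two elements -/
theorem span2 {M : Type} [AddCommGroup M] [Module (ZMod 2) M] {A : Set M} {x : M} :
    x ∈ Submodule.span (ZMod 2) A ↔ ∃ (n : ℕ) (u : Fin n → M), (∀ i, u i ∈ A) ∧ x = ∑ i, u i := by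
  constructor
  · intro hx
    refine Submodule.span_induction (p := fun x _ => ∃ (n : ℕ) (u : Fin n → M),
      (∀ i, u i ∈ A) ∧ x = ∑ i, u i) ?_ ?_ ?_ ?_ hx
    · intro y hy
      exact ⟨1, fun _ => y, fun _ => hy, by simp⟩
    · exact ⟨0, fun _ => 0, fun i => i.elim0, by simp⟩
    · rintro a b _ _ ⟨n, y, hy, rfl⟩ ⟨m, t, ht, rfl⟩
      refine ⟨n + m, Fin.append y t, fun i => ?_, ?_⟩
      · refine Fin.addCases (fun j => ?_) (fun j => ?_) i
        · rw [Fin.append_left]
          exact hy j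
        · rw [Fin.append_right]
          exact ht j
      · rw [Fin.sum_univ_add]
        simp
    · rintro c a _ ⟨n, y, hy, rfl⟩
      rcases zmod2 c with rfl | rfl
      · exact ⟨0, fun _ => 0, fun i => i.elim0, by simp⟩
      · exact ⟨n, y, hy, by rw [one_smul]⟩
  · rintro ⟨n, u, h1, rfl⟩
    exact Submodule.sum_mem _ fun i _ => Submodule.subset_span (h1 i)

/-- the rank of a quotient -/
theorem le_rank {M : Type} [AddCommGroup M] [Module (ZMod 2) M] (S : Submodule (ZMod 2) M)
    (n : ℕ) : (n : Cardinal) ≤ Module.rank (ZMod 2) (M ⧸ S) ↔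
      ∃ w : Fin n → M, ∀ T : Finset (Fin n), T.Nonempty → ∑ i ∈ T, w i ∉ S := by
  have key : ∀ w : Fin n → M, (∀ T : Finset (Fin n), T.Nonempty → ∑ i ∈ T, w i ∉ S) ↔
      LinearIndependent (ZMod 2) (fun i => (Submodule.Quotient.mk (w i) : M ⧸ S)) := by
    intro w
    rw [li2]
    refine forall_congr' fun T => ?_
    have h1 : ∑ i ∈ T, (Submodule.Quotient.mk (w i) : M ⧸ S) = 0 ↔ ∑ i ∈ T, w i ∈ S := by
      rw [← Submodule.Quotient.mk_eq_zero S]
      have : (Submodule.Quotient.mk (∑ i ∈ T, w i) : M ⧸ S) =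
          ∑ i ∈ T, (Submodule.Quotient.mk (w i) : M ⧸ S) := map_sum S.mkQ w T
      rw [this]
    rw [h1, Finset.nonempty_iff_ne_empty]
    tauto
  constructor
  · intro h
    obtain ⟨s, hs1, hs2⟩ := le_rank_iff_exists_linearIndependent_finset.1 h
    let e : Fin n ≃ s := (s.equivFinOfCardEq hs1).symm
    choose w hw using fun x : M ⧸ S => Submodule.Quotient.mk_surjective S x
    refine ⟨fun i => w (e i), (key _).2 ?_⟩
    simp only [hw]
    exact hs2.comp e e.injective
  · rintro ⟨w, hw⟩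
    have h1 := ((key w).1 hw).cardinal_lift_le_rank
    simpa using h1

/-- countable ranks are determined by the natural numbers below them -/
theorem rank_eq {M M' : Type} [AddCommGroup M] [Module (ZMod 2) M] [AddCommGroup M']
    [Module (ZMod 2) M'] [Countable M] [Countable M']
    (h : ∀ n : ℕ, (n : Cardinal) ≤ Module.rank (ZMod 2) M ↔
      (n : Cardinal) ≤ Module.rank (ZMod 2) M') :
    Module.rank (ZMod 2) M = Module.rank (ZMod 2) M' := by
  have key : ∀ κ κ' : Cardinal.{0}, κ ≤ Cardinal.aleph0 → κ' ≤ Cardinal.aleph0 →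
      (∀ n : ℕ, (n : Cardinal) ≤ κ → (n : Cardinal) ≤ κ') → κ ≤ κ' := by
    intro κ κ' h1 h2 h3
    rcases h1.lt_or_eq with h4 | h4
    · obtain ⟨m, rfl⟩ := Cardinal.lt_aleph0.1 h4
      exact h3 m le_rfl
    · rw [h4]
      refine Cardinal.aleph0_le.2 fun n => h3 n ?_
      rw [h4]
      exact (Cardinal.natCast_lt_aleph0).le
  have h1 : Module.rank (ZMod 2) M ≤ Cardinal.aleph0 :=
    (rank_le_card (ZMod 2) M).trans (Cardinal.mk_le_aleph0_iff.2 inferInstance)
  have h2 : Module.rank (ZMod 2) M' ≤ Cardinal.aleph0 :=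
    (rank_le_card (ZMod 2) M').trans (Cardinal.mk_le_aleph0_iff.2 inferInstance)
  exact le_antisymm (key _ _ h1 h2 fun n => (h n).1) (key _ _ h2 h1 fun n => (h n).2)

section ops

variable {α : Type} (μ : α → α → α)

/-- the subgroup generated by the vertices and edges and the centre -/
def InP (x : α) : Prop := ∃ e, μ e e = e ∧ ∃ (k : ℕ) (u : Fin k → α), (∀ i, Bx μ (u i)) ∧
  Cg μ x (wd μ e (List.ofFn u))

/-- products of squares -/
def InQ (x : α) : Prop := ∃ e, μ e e = e ∧ ∃ (k : ℕ) (u : Fin k → α),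
  x = wd μ e (List.ofFn fun i => μ (u i) (u i))

/-- the first dimension is at least `n` -/
def D1 (n : ℕ) : Prop := ∃ e, μ e e = e ∧ ∃ w : Fin n → α,
  ∀ T : {T : Finset (Fin n) // T.Nonempty}, ¬ InP μ (wd μ e (T.1.toList.map w))

/-- the second dimension is at least `n` -/
def D2 (n : ℕ) : Prop := ∃ e, μ e e = e ∧ ∃ w : Fin n → α, (∀ i, Cen μ (w i)) ∧
  ∀ T : {T : Finset (Fin n) // T.Nonempty}, ¬ InQ μ (wd μ e (T.1.toList.map w))

end ops

section grp

variable {G : Type} [Group G] [E2 G]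

theorem inP_iff {x : G} : InP (mu G) x ↔ cl x ∈ SP G := by
  unfold InP SP
  rw [span2]
  constructor
  · rintro ⟨e, he, k, u, h1, h2⟩
    obtain rfl := idem.1 he
    rw [cg_iff, cl_ofFn] at h2
    exact ⟨k, fun i => cl (u i), fun i => bx_iff.1 (h1 i), h2⟩
  · rintro ⟨k, u, h1, h2⟩
    choose g hg using fun i => cl_surj (u i)
    refine ⟨1, idem.2 rfl, k, g, fun i => ?_, ?_⟩
    · rw [bx_iff, hg]
      exact h1 i
    · rw [cg_iff, cl_ofFn, h2]
      simp only [hg]

theorem inQ_iff {z : Zd G} : InQ (mu G) (el z) ↔ z ∈ SQ G := by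
  have key : ∀ {k : ℕ} (u : Fin k → G), wd (mu G) 1 (List.ofFn fun i => mu G (u i) (u i)) =
      el (∑ i, q (cl (u i))) := by
    intro k u
    rw [wd_eq, ← List.sum_ofFn, el_sum, List.map_ofFn]
    congr 2
    funext i
    exact (el_q _).symm
  unfold InQ SQ
  rw [span2]
  constructor
  · rintro ⟨e, he, k, u, h⟩
    obtain rfl := idem.1 he
    rw [key] at h
    exact ⟨k, fun i => q (cl (u i)), fun i => ⟨_, rfl⟩, el_inj h⟩
  · rintro ⟨k, u, h1, h2⟩
    choose x hx using h1
    choose g hg using fun i => cl_surj (x i)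
    refine ⟨1, idem.2 rfl, k, g, ?_⟩
    rw [key, h2]
    simp only [hg, hx]

theorem D1_iff (n : ℕ) : D1 (mu G) n ↔ (n : Cardinal) ≤ Module.rank (ZMod 2) (Wd G ⧸ SP G) := by
  rw [le_rank]
  unfold D1
  constructor
  · rintro ⟨e, he, w, h⟩
    obtain rfl := idem.1 he
    refine ⟨fun i => cl (w i), fun T hT hc => h ⟨T, hT⟩ ?_⟩
    rw [inP_iff, cl_toList]
    exact hc
  · rintro ⟨w, h⟩
    choose g hg using fun i => cl_surj (w i)
    refine ⟨1, idem.2 rfl, g, fun T hc => h T.1 T.2 ?_⟩
    rw [inP_iff, cl_toList] at hc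
    simpa only [hg] using hc

theorem D2_iff (n : ℕ) : D2 (mu G) n ↔ (n : Cardinal) ≤ Module.rank (ZMod 2) (Zd G ⧸ SQ G) := by
  rw [le_rank]
  unfold D2
  have key : ∀ (w : Fin n → Zd G) (T : Finset (Fin n)),
      wd (mu G) 1 (T.toList.map fun i => el (w i)) = el (∑ i ∈ T, w i) := by
    intro w T
    rw [wd_eq, ← Finset.sum_map_toList, el_sum, List.map_map]
    rfl
  constructor
  · rintro ⟨e, he, w, h1, h2⟩
    obtain rfl := idem.1 he
    let w' : Fin n → Zd G := fun i => ct (w i) (cen_iff'.1 (h1 i))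
    have e1 : w = fun i => el (w' i) := rfl
    refine ⟨w', fun T hT hc => h2 ⟨T, hT⟩ ?_⟩
    rw [e1, key, inQ_iff]
    exact hc
  · rintro ⟨w, h⟩
    refine ⟨1, idem.2 rfl, fun i => el (w i), fun i => cen_iff'.2 (el_mem _),
      fun T hc => h T.1 T.2 ?_⟩
    rw [key, inQ_iff] at hc
    exact hc

end grp

/-- the least failure -/
noncomputable def fl (P : ℕ → Prop) : Option ℕ := by
  classical
  exact if h : ∃ n, ¬ P n then some (Nat.find h) else none

theorem fl_none {P : ℕ → Prop} : fl P = none ↔ ∀ n, P n := by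
  classical
  unfold fl
  split_ifs with h
  · simp only [reduceCtorEq, false_iff]
    push Not
    exact h
  · push Not at h
    simpa using h

theorem fl_some {P : ℕ → Prop} {m : ℕ} : fl P = some m ↔ ¬ P m ∧ ∀ n, n < m → P n := by
  classical
  unfold fl
  split_ifs with h
  · rw [Option.some_inj, Nat.find_eq_iff]
    simp only [not_not]
  · push Not at h
    simp only [reduceCtorEq, false_iff]
    exact fun h1 => h1.1 (h m)

theorem fl_eq {P Q : ℕ → Prop} (hP : ∀ n m, n ≤ m → P m → P n) (hQ : ∀ n m, n ≤ m → Q m → Q n)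
    (h : fl P = fl Q) (n : ℕ) : P n ↔ Q n := by
  rcases e : fl P with _ | m
  · have h1 := fl_none.1 e
    rw [e] at h
    exact iff_of_true (h1 n) (fl_none.1 h.symm n)
  · have h1 := fl_some.1 e
    rw [e] at h
    have h2 := fl_some.1 h.symm
    by_cases hn : n < m
    · exact iff_of_true (h1.2 n hn) (h2.2 n hn)
    · exact iff_of_false (fun h3 => h1.1 (hP m n (not_lt.1 hn) h3))
        (fun h3 => h2.1 (hQ m n (not_lt.1 hn) h3))

/-- the classification, for countable groups -/
theorem class_iso {α β : Type} [Countable α] [Countable β] [Group α] [Group β] [E2 α] [E2 β]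
    (h : FA (mu α)) (h' : FA (mu β))
    (π : {v : Wd α // VV v} ≃ {v : Wd β // VV v})
    (hπ : ∀ v w, Adj v.1 w.1 ↔ Adj (π v).1 (π w).1)
    (h1 : fl (D1 (mu α)) = fl (D1 (mu β))) (h3 : fl (D2 (mu α)) = fl (D2 (mu β))) :
    Nonempty (α ≃* β) := by
  have mono : ∀ (κ : Cardinal.{0}) (n m : ℕ), n ≤ m → (m : Cardinal) ≤ κ → (n : Cardinal) ≤ κ :=
    fun κ n m hnm hm => le_trans (by exact_mod_cast hnm) hm
  have m1 : ∀ (G : Type) [Group G] [E2 G] (n m : ℕ), n ≤ m → D1 (mu G) m → D1 (mu G) n := by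
    intro G _ _ n m hnm
    rw [D1_iff, D1_iff]
    exact mono _ n m hnm
  have m2 : ∀ (G : Type) [Group G] [E2 G] (n m : ℕ), n ≤ m → D2 (mu G) m → D2 (mu G) n := by
    intro G _ _ n m hnm
    rw [D2_iff, D2_iff]
    exact mono _ n m hnm
  have k1 : ∀ (G : Type) [Group G] [E2 G] [Countable G], Countable (Wd G ⧸ SP G) ∧
      Countable (Zd G ⧸ SQ G) := by
    intro G _ _ _
    constructor
    · have h1 : Function.Surjective (cl : G → Wd G) := cl_surj
      have : Countable (Wd G) := h1.countable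
      exact (Submodule.Quotient.mk_surjective (SP G)).countable
    · have h1 : Function.Injective (el : Zd G → G) := fun a b => el_inj
      have : Countable (Zd G) := h1.countable
      exact (Submodule.Quotient.mk_surjective (SQ G)).countable
  have := (k1 α).1
  have := (k1 α).2
  have := (k1 β).1
  have := (k1 β).2
  refine classify h.nice h'.nice π hπ (rank_eq fun n => ?_) (rank_eq fun n => ?_)
  · rw [← D1_iff, ← D1_iff]
    exact fl_eq (m1 α) (m1 β) h1 n
  · rw [← D2_iff, ← D2_iff]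
    exact fl_eq (m2 α) (m2 β) h3 n

end Pool.Agent.H4.VG
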