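import Pool.Agent.H4.VG.Lift

set_option autoImplicit false
set_option linter.unusedSectionVars false

/-! The central quotient and the centre as vector spaces, squares and commutators. -/

namespace Pool.Agent.H4.VG

open Subgroup

variable (G : Type) [Group G] [E2 G]

/-- the central quotient -/
def Wd : Type := Additive (G ⧸ center G)

/-- the centre -/
def Zd : Type := Additive (center G)

theorem cen_comm' (a b : center G) : a * b = b * a :=
  Subtype.ext (mem_center_iff.1 b.2 a.1)

instance : AddCommGroup (Zd G) :=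
  { (inferInstance : AddGroup (Additive (center G))) with
    add_comm := fun a b => cen_comm' G a b }

variable {G}

theorem quot_comm (a b : G ⧸ center G) : a * b = b * a := by
  obtain ⟨g, rfl⟩ := QuotientGroup.mk_surjective a
  obtain ⟨h, rfl⟩ := QuotientGroup.mk_surjective b
  rw [← QuotientGroup.mk_mul, ← QuotientGroup.mk_mul, QuotientGroup.eq]
  have h1 := comm_of h⁻¹ g⁻¹
  have e : (g * h)⁻¹ * (h * g) = h⁻¹ * g⁻¹ * h⁻¹⁻¹ * g⁻¹⁻¹ := by group
  rw [e]
  exact h1

variable (G)

instance : AddCommGroup (Wd G) :=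
  { (inferInstance : AddGroup (Additive (G ⧸ center G))) with
    add_comm := fun a b => quot_comm (G := G) a b }

variable {G}

/-- the class of an element -/
def cl (g : G) : Wd G := (Additive.ofMul (g : G ⧸ center G) : Additive (G ⧸ center G))

/-- a central element -/
def ct (z : G) (hz : z ∈ center G) : Zd G := (Additive.ofMul ⟨z, hz⟩ : Additive (center G))

/-- the element -/
def el (z : Zd G) : G := ((Additive.toMul (z : Additive (center G)) : center G) : G)

theorem el_mem (z : Zd G) : el z ∈ center G := (Additive.toMul (z : Additive (center G))).2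

theorem el_ct (z : G) (hz : z ∈ center G) : el (ct z hz) = z := rfl

theorem ct_el (z : Zd G) : ct (el z) (el_mem z) = z := rfl

theorem el_add (z w : Zd G) : el (z + w) = el z * el w := rfl

theorem el_zero : el (0 : Zd G) = 1 := rfl

theorem el_inj {z w : Zd G} (h : el z = el w) : z = w := by
  rw [← ct_el z, ← ct_el w]
  exact congrArg (Additive.ofMul (α := center G)) (Subtype.ext h)

theorem cl_mul (g h : G) : cl (g * h) = cl g + cl h := rfl

theorem cl_one : cl (1 : G) = 0 := rfl

theorem cl_surj (x : Wd G) : ∃ g : G, cl g = x := by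
  obtain ⟨g, hg⟩ := QuotientGroup.mk_surjective (Additive.toMul (x : Additive (G ⧸ center G)))
  exact ⟨g, congrArg (Additive.ofMul (α := G ⧸ center G)) hg⟩

theorem cl_eq {g h : G} : cl g = cl h ↔ g⁻¹ * h ∈ center G := by
  rw [← QuotientGroup.eq]
  exact Iff.rfl

theorem cl_zero {g : G} : cl g = 0 ↔ g ∈ center G := by
  rw [← QuotientGroup.eq_one_iff]
  exact Iff.rfl

theorem wtwo (x : Wd G) : x + x = 0 := by
  obtain ⟨g, rfl⟩ := cl_surj x
  rw [← cl_mul, cl_zero]
  exact E2.sq g

theorem ztwo (z : Zd G) : z + z = 0 := by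
  refine el_inj ?_
  rw [el_add, el_zero]
  exact E2.ex _ (el_mem z)

instance : Module (ZMod 2) (Wd G) :=
  AddCommGroup.zmodModule (n := 2) fun x => by rw [two_nsmul]; exact wtwo x

instance : Module (ZMod 2) (Zd G) :=
  AddCommGroup.zmodModule (n := 2) fun x => by rw [two_nsmul]; exact ztwo x

theorem zmod2 (c : ZMod 2) : c = 0 ∨ c = 1 := by
  revert c
  decide

theorem cen_comm {z : G} (hz : z ∈ center G) (x : G) : x * z = z * x := mem_center_iff.1 hz x

theorem sq_mul_central (g : G) {z : G} (hz : z ∈ center G) : (g * z) * (g * z) = g * g := by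
  have h1 := E2.ex z hz
  have h2 := cen_comm hz g
  calc (g * z) * (g * z) = g * (z * g) * z := by group
    _ = g * (g * z) * z := by rw [h2]
    _ = g * g * (z * z) := by group
    _ = g * g := by rw [h1, mul_one]

/-- squares -/
noncomputable def q (x : Wd G) : Zd G := ct ((cl_surj x).choose * (cl_surj x).choose) (E2.sq _)

theorem q_cl (g : G) : q (cl g) = ct (g * g) (E2.sq g) := by
  refine el_inj ?_
  unfold q
  rw [el_ct, el_ct]
  have h := (cl_surj (cl g)).choose_spec
  set k := (cl_surj (cl g)).choose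
  have h1 : g⁻¹ * k ∈ center G := cl_eq.1 h.symm
  have h2 := sq_mul_central g h1
  have e : g * (g⁻¹ * k) = k := by group
  rw [e] at h2
  exact h2

theorem el_q (g : G) : el (q (cl g)) = g * g := by rw [q_cl, el_ct]

theorem q_zero : q (0 : Wd G) = 0 := by
  rw [← cl_one, q_cl]
  exact el_inj (by rw [el_ct, el_zero, one_mul])

/-- the polar form -/
noncomputable def bt (x y : Wd G) : Zd G := q (x + y) + q x + q y

/-- the commutator -/
theorem el_bt (g h : G) : el (bt (cl g) (cl h)) = g * h * g⁻¹ * h⁻¹ := by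
  unfold bt
  rw [el_add, el_add, ← cl_mul, el_q, el_q, el_q]
  have h2 : ∀ x, x * (g * g) = (g * g) * x := cen_comm (E2.sq g)
  have h3 := E2.ex (g * g) (E2.sq g)
  have h4 := E2.ex (h * h) (E2.sq h)
  have e1 : (g * h) * (g * h) = (g * h * g⁻¹ * h⁻¹) * (g * g) * (h * h) := by
    have : (g * h * g⁻¹ * h⁻¹) * (g * g) * (h * h) = (g * h * g⁻¹) * (h⁻¹ * (g * g)) * (h * h) := by
      group
    rw [this, h2]
    group
  rw [e1]
  have h5 : ∀ x, x * (h * h) = (h * h) * x := cen_comm (E2.sq h)
  calc g * h * g⁻¹ * h⁻¹ * (g * g) * (h * h) * (g * g) * (h * h)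
      = g * h * g⁻¹ * h⁻¹ * (g * g) * ((h * h) * (g * g)) * (h * h) := by group
    _ = g * h * g⁻¹ * h⁻¹ * (g * g) * ((g * g) * (h * h)) * (h * h) := by rw [h2 (h * h)]
    _ = g * h * g⁻¹ * h⁻¹ * ((g * g) * (g * g)) * ((h * h) * (h * h)) := by group
    _ = g * h * g⁻¹ * h⁻¹ := by rw [h3, h4, mul_one, mul_one]

theorem bt_symm (x y : Wd G) : bt x y = bt y x := by
  unfold bt
  rw [add_comm x y]
  abel

theorem bt_add (x y z : Wd G) : bt (x + y) z = bt x z + bt y z := by
  obtain ⟨g, rfl⟩ := cl_surj x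
  obtain ⟨h, rfl⟩ := cl_surj y
  obtain ⟨k, rfl⟩ := cl_surj z
  refine el_inj ?_
  rw [el_add, ← cl_mul, el_bt, el_bt, el_bt]
  have h1 : h * k * h⁻¹ * k⁻¹ ∈ center G := comm_of h k
  have h2 := cen_comm h1 g
  have h3 := cen_comm h1 (g * k * g⁻¹ * k⁻¹)
  calc g * h * k * (g * h)⁻¹ * k⁻¹ = g * (h * k * h⁻¹ * k⁻¹) * k * g⁻¹ * k⁻¹ := by group
    _ = (h * k * h⁻¹ * k⁻¹) * g * k * g⁻¹ * k⁻¹ := by rw [h2]
    _ = (h * k * h⁻¹ * k⁻¹) * (g * k * g⁻¹ * k⁻¹) := by group
    _ = g * k * g⁻¹ * k⁻¹ * (h * k * h⁻¹ * k⁻¹) := h3.symm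

theorem bt_add' (x y z : Wd G) : bt x (y + z) = bt x y + bt x z := by
  rw [bt_symm, bt_add, bt_symm y, bt_symm z]

theorem bt_zero (x : Wd G) : bt 0 x = 0 := by
  have h := bt_add (0 : Wd G) 0 x
  rw [add_zero] at h
  exact left_eq_add.1 h

theorem bt_self (x : Wd G) : bt x x = 0 := by
  unfold bt
  rw [wtwo, q_zero, zero_add]
  exact ztwo _

theorem q_add (x y : Wd G) : q (x + y) = q x + q y + bt x y := by
  unfold bt
  have h1 := ztwo (q x)
  have h2 := ztwo (q y)
  calc q (x + y) = q (x + y) + (q x + q x) + (q y + q y) := by rw [h1, h2]; simp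
    _ = q x + q y + (q (x + y) + q x + q y) := by abel

/-- the polar form as a bilinear map -/
noncomputable def bl : Wd G →ₗ[ZMod 2] Wd G →ₗ[ZMod 2] Zd G :=
  LinearMap.mk₂ (ZMod 2) bt bt_add
    (fun c x y => by
      rcases zmod2 c with rfl | rfl
      · rw [zero_smul, zero_smul, bt_zero]
      · rw [one_smul, one_smul])
    bt_add'
    (fun c x y => by
      rcases zmod2 c with rfl | rfl
      · rw [zero_smul, zero_smul, bt_symm, bt_zero]
      · rw [one_smul, one_smul])

theorem bl_apply (x y : Wd G) : bl x y = bt x y := rfl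

end Pool.Agent.H4.VG
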